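import Pool.Agent.H.MP_43e44c_ag.GA.Odd
import Pool.Agent.H.MP_43e44c_ag.SB.Rep

/-!
The signed action of the group on the representatives.
-/

set_option autoImplicit false

open Finset Module

namespace Pool.MP43e44c.GA

open Pool.MP43e44c.OD

universe u v

namespace Half

variable {G : Type u} [Group G] {ι : Type v} (H : Half G ι)

/-- The action of the group on the representatives. -/
@[reducible] def act : MulAction G ι where
  smul h i := H.π (H.t i * h⁻¹)
  one_smul i := by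
    show H.π (H.t i * 1⁻¹) = i
    rw [inv_one, mul_one, H.π_t]
  mul_smul g h i := by
    show H.π (H.t i * (g * h)⁻¹) = H.π (H.t (H.π (H.t i * h⁻¹)) * g⁻¹)
    rcases H.t_π (H.t i * h⁻¹) with h1 | h1
    · rw [h1, mul_inv_rev, mul_assoc]
    · have h2 : H.t i * h⁻¹ * H.c * g⁻¹ = H.t i * (g * h)⁻¹ * H.c := by
        rw [mul_inv_rev, mul_assoc (H.t i * h⁻¹), ← H.cen, ← mul_assoc, ← mul_assoc]
      rw [h1, h2, H.π_c]

theorem act_smul (h : G) (i : ι) : (letI := H.act; h • i) = H.π (H.t i * h⁻¹) := rfl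

open Classical in
/-- The sign of an element: `1` if it is a representative. -/
noncomputable def sn (x : G) : ℝ := if H.t (H.π x) = x then 1 else -1

theorem sn_sq (x : G) : H.sn x = 1 ∨ H.sn x = -1 := by
  unfold sn
  split_ifs
  · exact Or.inl rfl
  · exact Or.inr rfl

theorem sn_one {x : G} (h : H.t (H.π x) = x) : H.sn x = 1 := if_pos h

theorem sn_neg {x : G} (h : H.t (H.π x) = x * H.c) : H.sn x = -1 := by
  unfold sn
  rw [if_neg]
  rw [h]
  exact H.mul_c_ne x

theorem sn_t (i : ι) : H.sn (H.t i) = 1 := H.sn_one (by rw [H.π_t])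

theorem sn_mul_c (x : G) : H.sn (x * H.c) = -H.sn x := by
  rcases H.t_π x with h | h
  · rw [H.sn_one h, H.sn_neg]
    rw [H.π_c, h, H.mul_c_c]
  · rw [H.sn_neg h, H.sn_one, neg_neg]
    rw [H.π_c, h]

/-- The sign: `t i * h⁻¹` is `t (h • i)` or `t (h • i) * c`. -/
noncomputable def eps (h : G) (i : ι) : ℝ := H.sn (H.t i * h⁻¹)

theorem eps_mul (g h : G) (i : ι) :
    H.eps (g * h) i = H.eps g (H.π (H.t i * h⁻¹)) * H.eps h i := by
  unfold eps
  rcases H.t_π (H.t i * h⁻¹) with h1 | h1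
  · rw [H.sn_one h1, h1, mul_one, mul_inv_rev, mul_assoc]
  · rw [H.sn_neg h1, h1]
    have h2 : H.t i * h⁻¹ * H.c * g⁻¹ = H.t i * (g * h)⁻¹ * H.c := by
      rw [mul_inv_rev, mul_assoc (H.t i * h⁻¹), ← H.cen, ← mul_assoc, ← mul_assoc]
    rw [h2, H.sn_mul_c]
    ring

/-- The cocycle of signs. -/
noncomputable def coc : letI := H.act; Coc G ι :=
  letI := H.act
  { ε := H.eps
    sq := fun g i => H.sn_sq _
    mul := fun g h i => H.eps_mul g h i }

theorem act_pretransitive : letI := H.act; MulAction.IsPretransitive G ι := by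
  letI := H.act
  constructor
  intro i j
  refine ⟨(H.t j)⁻¹ * H.t i, ?_⟩
  show H.π (H.t i * ((H.t j)⁻¹ * H.t i)⁻¹) = j
  rw [mul_inv_rev, inv_inv, mul_inv_cancel_left, H.π_t]

variable [Fintype G] [Fintype ι]

/-- The odd element of the real group algebra attached to a vector: its coefficient at `(t i)⁻¹` is
`x i` and its coefficient at `(t i * c)⁻¹` is `- x i`. -/
noncomputable def ph : EuclideanSpace ℝ ι →ₗ[ℝ] MonoidAlgebra ℝ G where
  toFun x := ∑ i, (MonoidAlgebra.single (H.t i)⁻¹ (x i) - MonoidAlgebra.single (H.t i * H.c)⁻¹ (x i))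
  map_add' x y := by
    rw [← sum_add_distrib]
    refine sum_congr rfl fun i _ => ?_
    rw [PiLp.add_apply, MonoidAlgebra.single_add, MonoidAlgebra.single_add]
    abel
  map_smul' r x := by
    rw [RingHom.id_apply, smul_sum]
    refine sum_congr rfl fun i _ => ?_
    rw [PiLp.smul_apply, smul_sub, MonoidAlgebra.smul_single, MonoidAlgebra.smul_single]

/-- All coefficients. -/
theorem ph_coeff (x : EuclideanSpace ℝ ι) (g : G) :
    (H.ph x).coeff g⁻¹ = H.sn g * x (H.π g) := by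
  classical
  have h0 : (H.ph x).coeff g⁻¹ = ∑ i, ((if (H.t i)⁻¹ = g⁻¹ then x i else 0) -
      (if (H.t i * H.c)⁻¹ = g⁻¹ then x i else 0)) := by
    show (∑ i, (MonoidAlgebra.single (H.t i)⁻¹ (x i) -
      MonoidAlgebra.single (H.t i * H.c)⁻¹ (x i)) : MonoidAlgebra ℝ G).coeff g⁻¹ = _
    rw [coeff_sum']
    refine sum_congr rfl fun i _ => ?_
    have h1 : (MonoidAlgebra.single (H.t i)⁻¹ (x i) -
        MonoidAlgebra.single (H.t i * H.c)⁻¹ (x i) : MonoidAlgebra ℝ G).coeff g⁻¹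
        = (MonoidAlgebra.single (H.t i)⁻¹ (x i) : MonoidAlgebra ℝ G).coeff g⁻¹ -
          (MonoidAlgebra.single (H.t i * H.c)⁻¹ (x i) : MonoidAlgebra ℝ G).coeff g⁻¹ := rfl
    rw [h1, MonoidAlgebra.coeff_single, MonoidAlgebra.coeff_single, Finsupp.single_apply,
      Finsupp.single_apply]
  rw [h0, sum_eq_single (H.π g)]
  · simp only [inv_inj]
    rcases H.t_π g with h1 | h1
    · rw [H.sn_one h1, if_pos h1, if_neg, one_mul, sub_zero]
      rw [h1]
      exact H.mul_c_ne g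
    · rw [H.sn_neg h1, if_neg, if_pos]
      · ring
      · rw [h1, H.mul_c_c]
      · rw [h1]
        exact H.mul_c_ne g
  · intro i _ hi
    simp only [inv_inj]
    rw [if_neg, if_neg, sub_zero]
    · intro h
      apply hi
      rw [← h, H.π_c, H.π_t]
    · intro h
      apply hi
      rw [← h, H.π_t]
  · intro h
    exact absurd (mem_univ _) h

theorem ph_coeff_t (x : EuclideanSpace ℝ ι) (i : ι) : (H.ph x).coeff (H.t i)⁻¹ = x i := by
  rw [H.ph_coeff, H.sn_t, H.π_t, one_mul]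

theorem ph_inj : Function.Injective H.ph := by
  intro x y h
  ext i
  rw [← H.ph_coeff_t, h, H.ph_coeff_t]

/-- The coefficients of the product with the involution. -/
theorem mul_cc_coeff {R : Type*} [CommRing R] (y : MonoidAlgebra R G) (g : G) :
    (y * H.cc R).coeff g = y.coeff (g * H.c) := by
  unfold cc
  have h1 : g = g * H.c * H.c := (H.mul_c_c g).symm
  conv_lhs => rw [h1]
  rw [MonoidAlgebra.coeff_mul_single_apply]
  simp [H.c_inv, H.mul_c_c]

/-- The image of `ph` consists of the odd elements. -/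
theorem ph_range (y : MonoidAlgebra ℝ G) : (∃ x, H.ph x = y) ↔ y * H.cc ℝ = -y := by
  constructor
  · rintro ⟨x, rfl⟩
    apply ma_ext
    intro g
    have h1 : (-H.ph x).coeff g = -(H.ph x).coeff g := rfl
    rw [mul_cc_coeff, h1]
    have h2 : g * H.c = (g⁻¹ * H.c)⁻¹ := by
      rw [mul_inv_rev, inv_inv, H.c_inv, H.cen]
    have h3 : (H.ph x).coeff g = H.sn g⁻¹ * x (H.π g⁻¹) := by
      rw [← H.ph_coeff, inv_inv]
    rw [h2, H.ph_coeff, h3, H.sn_mul_c, H.π_c]
    ring
  · intro h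
    refine ⟨WithLp.toLp 2 fun i => y.coeff (H.t i)⁻¹, ?_⟩
    have hc : ∀ g, y.coeff (g * H.c) = -y.coeff g := by
      intro g
      rw [← mul_cc_coeff, h]
      rfl
    apply ma_ext
    intro g
    have h3 := H.ph_coeff (WithLp.toLp 2 fun i => y.coeff (H.t i)⁻¹) g⁻¹
    rw [inv_inv] at h3
    rw [h3]
    show H.sn g⁻¹ * y.coeff (H.t (H.π g⁻¹))⁻¹ = _
    rcases H.t_π g⁻¹ with h1 | h1
    · rw [H.sn_one h1, h1, inv_inv, one_mul]
    · rw [H.sn_neg h1, h1, mul_inv_rev, inv_inv, H.c_inv, ← H.cen, hc]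
      ring

/-- The signed action corresponds to the multiplication from the left. -/
theorem ph_act (g : G) (x : EuclideanSpace ℝ ι) :
    H.ph ((letI := H.act; H.coc.act g x)) = MonoidAlgebra.single g 1 * H.ph x := by
  letI := H.act
  apply ma_ext
  intro h
  have h1 : (H.ph (H.coc.act g x)).coeff h = H.sn h⁻¹ * (H.coc.act g x) (H.π h⁻¹) := by
    rw [← H.ph_coeff, inv_inv]
  rw [h1, MonoidAlgebra.coeff_single_mul_apply, one_mul]
  have h2 : (H.ph x).coeff (g⁻¹ * h) = H.sn (h⁻¹ * g) * x (H.π (h⁻¹ * g)) := by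
    rw [← H.ph_coeff, mul_inv_rev, inv_inv]
  rw [h2, H.coc.act_apply]
  have h3 : g⁻¹ • H.π h⁻¹ = H.π (h⁻¹ * g) := by
    show H.π (H.t (H.π h⁻¹) * g⁻¹⁻¹) = _
    rw [inv_inv]
    rcases H.t_π h⁻¹ with h4 | h4
    · rw [h4]
    · rw [h4, mul_assoc, ← H.cen, ← mul_assoc, H.π_c]
  rw [h3]
  have h5 : H.sn h⁻¹ * H.eps g (H.π (h⁻¹ * g)) = H.sn (h⁻¹ * g) := by
    unfold eps
    rcases H.t_π (h⁻¹ * g) with h6 | h6
    · rw [h6, mul_inv_cancel_right, H.sn_one h6]
      rcases H.sn_sq h⁻¹ with h7 | h7 <;> rw [h7] <;> norm_num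
    · rw [h6, H.sn_neg h6]
      have h8 : h⁻¹ * g * H.c * g⁻¹ = h⁻¹ * H.c := by
        rw [mul_assoc (h⁻¹ * g), ← H.cen, ← mul_assoc, mul_inv_cancel_right]
      rw [h8, H.sn_mul_c]
      rcases H.sn_sq h⁻¹ with h7 | h7 <;> rw [h7] <;> norm_num
  have h6 : H.coc.ε g (H.π (h⁻¹ * g)) = H.eps g (H.π (h⁻¹ * g)) := rfl
  rw [h6, ← h5]
  ring

/-- The inner product with the vector of signs. -/
theorem ph_inner (v : ι → Bool) (x : EuclideanSpace ℝ ι) :
    inner ℝ (sv v) x = (H.ph x * H.el ℝ v).coeff 1 := by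
  have h1 : H.ph x * H.el ℝ v = ∑ i, H.ph x * MonoidAlgebra.single (H.t i)
      (if v i then (1 : ℝ) else -1) := by
    unfold el
    rw [mul_sum]
  rw [h1, coeff_sum', PiLp.inner_apply]
  refine sum_congr rfl fun i _ => ?_
  have h2 : (1 : G) = (H.t i)⁻¹ * H.t i := (inv_mul_cancel _).symm
  rw [MonoidAlgebra.coeff_mul_single_apply, one_mul, H.ph_coeff_t]
  simp only [RCLike.inner_apply, conj_trivial, sv]

end Half

end Pool.MP43e44c.GA
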