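import Pool.Agent.H.MP_43e44c_ag.OD.Prim

/-!
Numerical assembly.
-/

set_option autoImplicit false

open Finset

namespace Pool.MP43e44c.GA

/-- The bounds for one component, in terms of its dimension `a` and the degree `f` of its center;
`B` is the proportion of the bad sign vectors. -/
structure BndG (C₀ c₀ c₁ : ℝ) (Δ₀ n a f : ℕ) (B : ℝ) : Prop where
  nonneg : 0 ≤ B
  le_one : B ≤ 1
  f_pos : 1 ≤ f
  f_le : f ≤ a
  odd : ∀ p : ℕ, p.Prime → p ≠ 2 → ¬ p ∣ n →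
    (p : ℝ) ^ 2 * Real.sqrt (a * f) * Real.log (6 * Real.sqrt (a * f)) ≤ n →
    B ≤ 2 * (3 / (2 * p)) ^ f
  large : C₀ * Real.log n ≤ f → B ≤ C₀ * (n : ℝ) ^ (-2 : ℝ) ∨
    ((n : ℝ) ≤ C₀ * f ∧ B ≤ C₀ * (n : ℝ) ^ (-(1 / 4) : ℝ))
  midA : f ≤ 2 → Δ₀ ≤ a → (a : ℝ) ≤ (n : ℝ) ^ c₁ → B ≤ C₀ * (n : ℝ) ^ (-(1 + c₀))
  midB : f ≤ 2 → (n : ℝ) ^ c₁ ≤ a → (a : ℝ) ≤ (n : ℝ) ^ (4 / 5 : ℝ) →
    B ≤ C₀ * (a : ℝ) ^ (3 / 4 : ℝ) * (Real.log n) ^ 4 / n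
  small : f ≤ 2 → a ≤ Δ₀ → B ≤ C₀ * (n : ℝ) ^ (-(1 + c₀))

/-- Powers of the logarithm are small. -/
theorem asmG_log (k : ℕ) {ε K : ℝ} (hε : 0 < ε) (hK : 0 < K) : ∃ n₀ : ℕ, 3 ≤ n₀ ∧
    ∀ n : ℕ, n₀ ≤ n → K * (Real.log n) ^ k ≤ (n : ℝ) ^ ε := by
  have hlo := (isLittleO_log_rpow_rpow_atTop (k : ℝ) hε).bound (show (0 : ℝ) < 1 / K by positivity)
  have hlo2 := (tendsto_natCast_atTop_atTop (R := ℝ)).eventually hlo
  obtain ⟨n₁, hn₁⟩ := Filter.eventually_atTop.1 hlo2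
  refine ⟨max n₁ 3, le_max_right _ _, fun n hn => ?_⟩
  have h1 := hn₁ n ((le_max_left _ _).trans hn)
  have h3 : 3 ≤ n := (le_max_right _ _).trans hn
  have h3' : (3 : ℝ) ≤ n := by exact_mod_cast h3
  have hl : 0 ≤ Real.log n := Real.log_nonneg (by linarith)
  rw [Real.rpow_natCast, Real.norm_of_nonneg (pow_nonneg hl k),
    Real.norm_of_nonneg (Real.rpow_nonneg (by linarith) ε)] at h1
  calc K * (Real.log n) ^ k ≤ K * (1 / K * (n : ℝ) ^ ε) := mul_le_mul_of_nonneg_left h1 hK.le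
    _ = (n : ℝ) ^ ε := by field_simp

theorem asmG_one_le_log {n : ℕ} (hn : 3 ≤ n) : 1 ≤ Real.log n := by
  have h3' : (3 : ℝ) ≤ n := by exact_mod_cast hn
  rw [Real.le_log_iff_exp_le (by linarith)]
  have := Real.exp_one_lt_d9
  linarith

/-- The version of `exists_prime_kappa` with a general constant. -/
theorem asmG_prime {K : ℝ} (hK : 1 ≤ K) : ∃ n₀ : ℕ, 3 ≤ n₀ ∧ ∀ n : ℕ, n₀ ≤ n → ∀ κ : ℝ, 1 ≤ κ →
    κ ^ 2 ≤ K * n * Real.log n →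
    Real.log (6 * κ) ≤ 2 * Real.log n ∧
    ∃ p : ℕ, p.Prime ∧ p ≠ 2 ∧ ¬ p ∣ n ∧ (p : ℝ) ^ 2 * κ * Real.log (6 * κ) ≤ n ∧
      (n : ℝ) ≤ 1024 * (p : ℝ) ^ 2 * κ * Real.log (6 * κ) := by
  obtain ⟨n₁, hn₁3, hn₁⟩ := asmG_log 20 (ε := 1) (K := (2048 * K) ^ 10 * 2) one_pos (by positivity)
  obtain ⟨n₂, hn₂⟩ := exists_nat_ge (max (36 * K) (96 ^ 4 * 4 * K ^ 2 + 1))
  refine ⟨max n₁ n₂, hn₁3.trans (le_max_left _ _), ?_⟩
  intro n hn κ hκ1 hκ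
  have h1 := hn₁ n ((le_max_left _ _).trans hn)
  have hn3 : 3 ≤ n := hn₁3.trans ((le_max_left _ _).trans hn)
  have hn2 : (n₂ : ℝ) ≤ n := by exact_mod_cast (le_max_right _ _).trans hn
  have hn36 : 36 * K ≤ n := (le_max_left _ _).trans (hn₂.trans hn2)
  have hn3' : (3 : ℝ) ≤ n := by exact_mod_cast hn3
  have hnpos : (0 : ℝ) < n := by linarith
  have hl1 := asmG_one_le_log hn3
  rw [Real.rpow_one] at h1
  set l : ℝ := Real.log n with hl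
  have hln : l ≤ n := by
    have := Real.log_le_sub_one_of_pos hnpos
    linarith
  have h6k : Real.log (6 * κ) ≤ 2 * l := by
    have h7 : (6 * κ) ^ 2 ≤ ((n : ℝ) ^ 2) ^ 2 := by
      have h8 : (6 * κ) ^ 2 ≤ 36 * K * n * n := by
        have h81 : K * n * l ≤ K * n * n := mul_le_mul_of_nonneg_left hln (by positivity)
        nlinarith
      have h9 : 36 * K * n * n ≤ n * n * n := by nlinarith [mul_pos hnpos hnpos]
      have h10 : (n : ℝ) * n * n ≤ n * n * n * n := by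
        have : 0 < (n : ℝ) * n * n := by positivity
        nlinarith
      calc (6 * κ) ^ 2 ≤ n * n * n * n := by linarith
        _ = ((n : ℝ) ^ 2) ^ 2 := by ring
    have h10 : 6 * κ ≤ (n : ℝ) ^ 2 :=
      (pow_le_pow_iff_left₀ (by positivity) (by positivity) two_ne_zero).1 h7
    have h11 := Real.log_le_log (by positivity) h10
    rw [Real.log_pow] at h11
    push_cast at h11
    exact h11
  refine ⟨h6k, ?_⟩
  have hlog1 : 1 ≤ Real.log (6 * κ) := by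
    rw [Real.le_log_iff_exp_le (by positivity)]
    have := Real.exp_one_lt_d9
    linarith
  set D : ℝ := κ * Real.log (6 * κ) with hD
  have hD1 : 1 ≤ D := by nlinarith
  have hDpos : 0 < D := by linarith
  -- D ^ 2 ≤ 4 K n l ^ 3
  have hD2 : D ^ 2 ≤ 4 * K * n * l ^ 3 := by
    have h12 : Real.log (6 * κ) ^ 2 ≤ (2 * l) ^ 2 := pow_le_pow_left₀ (by linarith) h6k 2
    calc D ^ 2 = κ ^ 2 * Real.log (6 * κ) ^ 2 := by rw [hD]; ring
      _ ≤ (K * n * l) * (2 * l) ^ 2 := mul_le_mul hκ h12 (by positivity) (by positivity)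
      _ = 4 * K * n * l ^ 3 := by ring
  set x : ℝ := Real.sqrt (n / D) with hx
  have hx0 : 0 ≤ x := Real.sqrt_nonneg _
  have hxx : x ^ 2 = n / D := Real.sq_sqrt (by positivity)
  have hxD : x ^ 2 * D = n := by rw [hxx]; field_simp
  -- key inequality: n ^ 2 < (x ^ 2 / 1024) ^ 5
  have hkey : ((n : ℝ)) ^ 2 < (x ^ 2 / 1024) ^ 5 := by
    -- n ^ 5 = x ^ 10 D ^ 5
    have h13 : (D ^ 5) ^ 2 ≤ (4 * K * n * l ^ 3) ^ 5 := by
      calc (D ^ 5) ^ 2 = (D ^ 2) ^ 5 := by ring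
        _ ≤ (4 * K * n * l ^ 3) ^ 5 := pow_le_pow_left₀ (by positivity) hD2 5
    have h14 : (1024 ^ 5 * D ^ 5) ^ 2 < ((n : ℝ) ^ 3) ^ 2 := by
      have h15 : (1024 ^ 5 * D ^ 5) ^ 2 ≤ 1024 ^ 10 * ((4 * K) ^ 5 * n ^ 5 * l ^ 15) := by
        calc (1024 ^ 5 * D ^ 5) ^ 2 = 1024 ^ 10 * (D ^ 5) ^ 2 := by ring
          _ ≤ 1024 ^ 10 * (4 * K * n * l ^ 3) ^ 5 := mul_le_mul_of_nonneg_left h13 (by positivity)
          _ = _ := by ring
      have h16 : 1024 ^ 10 * (4 * K) ^ 5 * l ^ 15 < n := by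
        have h17 : 1024 ^ 10 * (4 * K) ^ 5 * l ^ 15 ≤ (2048 * K) ^ 10 * l ^ 20 := by
          have h18 : (1024 : ℝ) ^ 10 * (4 * K) ^ 5 ≤ (2048 * K) ^ 10 := by
            have h19 : K ^ 5 ≤ K ^ 10 := pow_le_pow_right₀ hK (by norm_num)
            calc (1024 : ℝ) ^ 10 * (4 * K) ^ 5 = 1024 ^ 10 * 4 ^ 5 * K ^ 5 := by ring
              _ ≤ 1024 ^ 10 * 4 ^ 5 * K ^ 10 := mul_le_mul_of_nonneg_left h19 (by positivity)
              _ = (2048 * K) ^ 10 := by ring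
          have h20 : l ^ 15 ≤ l ^ 20 := pow_le_pow_right₀ hl1 (by norm_num)
          exact mul_le_mul h18 h20 (by positivity) (by positivity)
        have h21 : 0 < (2048 * K) ^ 10 * l ^ 20 := by positivity
        nlinarith
      calc (1024 ^ 5 * D ^ 5) ^ 2 ≤ 1024 ^ 10 * ((4 * K) ^ 5 * n ^ 5 * l ^ 15) := h15
        _ = (1024 ^ 10 * (4 * K) ^ 5 * l ^ 15) * (n : ℝ) ^ 5 := by ring
        _ < n * (n : ℝ) ^ 5 := mul_lt_mul_of_pos_right h16 (by positivity)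
        _ = ((n : ℝ) ^ 3) ^ 2 := by ring
    have h22 : 1024 ^ 5 * D ^ 5 < (n : ℝ) ^ 3 :=
      (pow_lt_pow_iff_left₀ (by positivity) (by positivity) two_ne_zero).1 h14
    have h23 : (x ^ 2 / 1024) ^ 5 = (n : ℝ) ^ 5 / (1024 ^ 5 * D ^ 5) := by
      rw [hxx]
      field_simp
    rw [h23, lt_div_iff₀ (by positivity)]
    calc (n : ℝ) ^ 2 * (1024 ^ 5 * D ^ 5) < (n : ℝ) ^ 2 * (n : ℝ) ^ 3 :=
          mul_lt_mul_of_pos_left h22 (by positivity)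
      _ = (n : ℝ) ^ 5 := by ring
  have hx5 : (n : ℝ) < (x / 32) ^ 5 := by
    have h24 : (n : ℝ) ^ 2 < ((x / 32) ^ 5) ^ 2 := by
      calc (n : ℝ) ^ 2 < (x ^ 2 / 1024) ^ 5 := hkey
        _ = ((x / 32) ^ 5) ^ 2 := by ring
    exact (pow_lt_pow_iff_left₀ (by positivity) (by positivity) two_ne_zero).1 h24
  have hx96 : 96 ≤ x := by
    -- (x / 32) ^ 5 > n ≥ 3 ^ 5
    have hn243 : (243 : ℝ) ≤ n := by
      have h25 := (le_max_right (36 * K) (96 ^ 4 * 4 * K ^ 2 + 1)).trans (hn₂.trans hn2)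
      nlinarith
    by_contra hcon
    rw [not_le] at hcon
    have h26 : x / 32 ≤ 3 := by linarith
    have h27 : (x / 32) ^ 5 ≤ 3 ^ 5 := pow_le_pow_left₀ (by positivity) h26 5
    norm_num at h27
    linarith
  obtain ⟨p, hp, hp2, hpn, hpl, hpu⟩ := OD.exists_prime_ndvd (by omega : 1 ≤ n) hx96 hx5
  refine ⟨p, hp, hp2, hpn, ?_, ?_⟩
  · have h28 : (p : ℝ) ^ 2 ≤ x ^ 2 := pow_le_pow_left₀ (by positivity) hpu 2
    calc (p : ℝ) ^ 2 * κ * Real.log (6 * κ) = (p : ℝ) ^ 2 * D := by rw [hD]; ring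
      _ ≤ x ^ 2 * D := mul_le_mul_of_nonneg_right h28 hDpos.le
      _ = n := hxD
  · have h29 : x ^ 2 ≤ 1024 * (p : ℝ) ^ 2 := by
      have h30 : x ≤ 32 * p := by linarith
      calc x ^ 2 ≤ (32 * (p : ℝ)) ^ 2 := pow_le_pow_left₀ hx0 h30 2
        _ = _ := by ring
    calc (n : ℝ) = x ^ 2 * D := hxD.symm
      _ ≤ 1024 * (p : ℝ) ^ 2 * D := mul_le_mul_of_nonneg_right h29 hDpos.le
      _ = 1024 * (p : ℝ) ^ 2 * κ * Real.log (6 * κ) := by rw [hD]; ring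

theorem asmG_q {K : ℝ} (hK : 1 ≤ K) : ∃ n₀ : ℕ, 3 ≤ n₀ ∧ ∀ {C₀ c₀ c₁ : ℝ} {Δ₀ n a f : ℕ} {B : ℝ},
    n₀ ≤ n → BndG C₀ c₀ c₁ Δ₀ n a f B → (a : ℝ) * f ≤ K * n * Real.log n →
    ∃ q : ℝ, 0 ≤ q ∧ q ≤ 1 ∧ B ≤ 2 * q ^ f ∧
      q ^ 4 * (n : ℝ) ^ 2 ≤ 4608 ^ 2 * (a * f) * (Real.log n) ^ 2 := by
  obtain ⟨n₀, hn₀3, hn₀⟩ := asmG_prime hK
  refine ⟨n₀, hn₀3, ?_⟩
  intro C₀ c₀ c₁ Δ₀ n a f B hn hB haf
  have hn3 : 3 ≤ n := hn₀3.trans hn
  have hnpos : (0 : ℝ) < n := by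
    have : (3 : ℝ) ≤ n := by exact_mod_cast hn3
    linarith
  have hl1 := asmG_one_le_log hn3
  have hf1 : (1 : ℝ) ≤ f := by exact_mod_cast hB.f_pos
  have ha1 : (1 : ℝ) ≤ a := by exact_mod_cast hB.f_pos.trans hB.f_le
  set κ : ℝ := Real.sqrt (a * f) with hκ
  have hκ2 : κ ^ 2 = a * f := Real.sq_sqrt (by positivity)
  have hκ1 : 1 ≤ κ := by
    rw [hκ, Real.le_sqrt' one_pos]
    nlinarith
  obtain ⟨h6, p, hp, hp2, hpn, hpl, hpu⟩ := hn₀ n hn κ hκ1 (by rw [hκ2]; exact haf)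
  have hp3 : 3 ≤ p := by
    have := hp.two_le
    omega
  have hp3' : (3 : ℝ) ≤ p := by exact_mod_cast hp3
  refine ⟨3 / (2 * p), by positivity, ?_, hB.odd p hp hp2 hpn hpl, ?_⟩
  · rw [div_le_one (by positivity)]
    linarith
  · set l : ℝ := Real.log n with hl
    have h7 : (n : ℝ) ≤ 2048 * (p : ℝ) ^ 2 * (κ * l) := by
      calc (n : ℝ) ≤ 1024 * (p : ℝ) ^ 2 * κ * Real.log (6 * κ) := hpu
        _ ≤ 1024 * (p : ℝ) ^ 2 * κ * (2 * l) := mul_le_mul_of_nonneg_left h6 (by positivity)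
        _ = _ := by ring
    have h8 : (3 / (2 * (p : ℝ))) ^ 2 * n ≤ 4608 * (κ * l) := by
      calc (3 / (2 * (p : ℝ))) ^ 2 * n ≤ (3 / (2 * (p : ℝ))) ^ 2 *
            (2048 * (p : ℝ) ^ 2 * (κ * l)) := mul_le_mul_of_nonneg_left h7 (by positivity)
        _ = 4608 * (κ * l) := by
          field_simp
          ring
    calc (3 / (2 * (p : ℝ))) ^ 4 * (n : ℝ) ^ 2 = ((3 / (2 * (p : ℝ))) ^ 2 * n) ^ 2 := by ring
      _ ≤ (4608 * (κ * l)) ^ 2 := pow_le_pow_left₀ (by positivity) h8 2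
      _ = 4608 ^ 2 * (κ ^ 2) * l ^ 2 := by ring
      _ = 4608 ^ 2 * (a * f) * l ^ 2 := by rw [hκ2]

/-- Middle `f`: as `bnd_mid` in OD/Asm.lean (`κ = √(a f) ≤ √(C n log n)`; the version of
`exists_prime_kappa` in OD/Prim.lean with the constant `8` replaced by a larger one is proved in the
same way). -/
theorem bnd_mid {C₀ c₀ c₁ : ℝ} {Δ₀ : ℕ} (hC₀ : 0 < C₀) : ∃ C : ℝ, 0 < C ∧ ∃ n₀ : ℕ,
    ∀ {n a f : ℕ} {B : ℝ}, n₀ ≤ n → BndG C₀ c₀ c₁ Δ₀ n a f B →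
    a ≤ n → 3 ≤ f → (f : ℝ) < C₀ * Real.log n →
    B ≤ C * a * (Real.log n) ^ 3 * (n : ℝ) ^ (-(3 / 2) : ℝ) := by
  obtain ⟨n₀, hn₀3, hn₀⟩ := asmG_q (K := C₀ + 1) (by linarith)
  set C : ℝ := 16 * 4608 ^ 6 * (C₀ + 1) ^ 3 with hC
  have hC1 : 1 ≤ C := by
    have h1 : 1 ≤ (C₀ + 1) ^ 3 := one_le_pow₀ (by linarith)
    rw [hC]
    linarith
  refine ⟨C, by linarith, n₀, ?_⟩
  intro n a f B hn hB han hf3 hfl
  have hn3 : 3 ≤ n := hn₀3.trans hn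
  have hnpos : (0 : ℝ) < n := by
    have : (3 : ℝ) ≤ n := by exact_mod_cast hn3
    linarith
  have hl1 := asmG_one_le_log hn3
  have hf1 : (1 : ℝ) ≤ f := by exact_mod_cast hB.f_pos
  have ha1 : (1 : ℝ) ≤ a := by exact_mod_cast hB.f_pos.trans hB.f_le
  have han' : (a : ℝ) ≤ n := by exact_mod_cast han
  have hfl' : (f : ℝ) ≤ (C₀ + 1) * Real.log n := by nlinarith
  have haf : (a : ℝ) * f ≤ (C₀ + 1) * n * Real.log n := by
    calc (a : ℝ) * f ≤ n * ((C₀ + 1) * Real.log n) :=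
          mul_le_mul han' hfl' (by positivity) (by positivity)
      _ = _ := by ring
  obtain ⟨q, hq0, hq1, hqB, hq4⟩ := hn₀ hn hB haf
  set l : ℝ := Real.log n with hl
  set t : ℝ := (n : ℝ) ^ (-(3 / 2) : ℝ) with ht
  have ht0 : 0 < t := Real.rpow_pos_of_pos hnpos _
  have ht4 : t ^ 4 * (n : ℝ) ^ 6 = 1 := by
    rw [ht, ← Real.rpow_natCast, ← Real.rpow_mul hnpos.le, ← Real.rpow_natCast (n : ℝ) 6,
      ← Real.rpow_add hnpos]
    norm_num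
  have hB3 : B ≤ 2 * q ^ 3 :=
    hqB.trans (mul_le_mul_of_nonneg_left (pow_le_pow_of_le_one hq0 hq1 hf3) (by norm_num))
  have hpow : B ^ 4 ≤ (C * a * l ^ 3 * t) ^ 4 := by
    have h1 : B ^ 4 ≤ (2 * q ^ 3) ^ 4 := pow_le_pow_left₀ hB.nonneg hB3 4
    have h2 : (2 * q ^ 3) ^ 4 * (n : ℝ) ^ 6 ≤ 16 * (4608 ^ 2 * (a * f) * l ^ 2) ^ 3 := by
      calc (2 * q ^ 3) ^ 4 * (n : ℝ) ^ 6 = 16 * (q ^ 4 * (n : ℝ) ^ 2) ^ 3 := by ring
        _ ≤ 16 * (4608 ^ 2 * (a * f) * l ^ 2) ^ 3 :=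
          mul_le_mul_of_nonneg_left (pow_le_pow_left₀ (by positivity) hq4 3) (by norm_num)
    have h3 : 16 * (4608 ^ 2 * (a * f) * l ^ 2) ^ 3 ≤ (C * a * l ^ 3) ^ 4 := by
      have h4 : (4608 ^ 2 * ((a : ℝ) * f) * l ^ 2) ^ 3 ≤
          (4608 ^ 2 * (a * ((C₀ + 1) * l)) * l ^ 2) ^ 3 := by
        refine pow_le_pow_left₀ (by positivity) ?_ 3
        refine mul_le_mul_of_nonneg_right ?_ (by positivity)
        refine mul_le_mul_of_nonneg_left ?_ (by norm_num)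
        exact mul_le_mul_of_nonneg_left hfl' (by positivity)
      have h5 : 16 * (4608 ^ 2 * (a * ((C₀ + 1) * l)) * l ^ 2) ^ 3 = C * a ^ 3 * l ^ 9 := by
        rw [hC]
        ring
      have h6 : C * (a : ℝ) ^ 3 * l ^ 9 ≤ C ^ 4 * a ^ 4 * l ^ 12 := by
        have h7 : C ≤ C ^ 4 := by
          calc C = C ^ 1 := (pow_one C).symm
            _ ≤ C ^ 4 := pow_le_pow_right₀ hC1 (by norm_num)
        have h8 : (a : ℝ) ^ 3 ≤ a ^ 4 := pow_le_pow_right₀ ha1 (by norm_num)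
        have h9 : l ^ 9 ≤ l ^ 12 := pow_le_pow_right₀ hl1 (by norm_num)
        exact mul_le_mul (mul_le_mul h7 h8 (by positivity) (by positivity)) h9 (by positivity)
          (by positivity)
      calc 16 * (4608 ^ 2 * ((a : ℝ) * f) * l ^ 2) ^ 3
          ≤ 16 * (4608 ^ 2 * (a * ((C₀ + 1) * l)) * l ^ 2) ^ 3 :=
            mul_le_mul_of_nonneg_left h4 (by norm_num)
        _ = C * a ^ 3 * l ^ 9 := h5
        _ ≤ C ^ 4 * a ^ 4 * l ^ 12 := h6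
        _ = (C * a * l ^ 3) ^ 4 := by ring
    have h10 : B ^ 4 * (n : ℝ) ^ 6 ≤ (C * a * l ^ 3 * t) ^ 4 * (n : ℝ) ^ 6 := by
      calc B ^ 4 * (n : ℝ) ^ 6 ≤ (2 * q ^ 3) ^ 4 * (n : ℝ) ^ 6 :=
            mul_le_mul_of_nonneg_right h1 (by positivity)
        _ ≤ (C * a * l ^ 3) ^ 4 := h2.trans h3
        _ = (C * a * l ^ 3) ^ 4 * (t ^ 4 * (n : ℝ) ^ 6) := by rw [ht4, mul_one]
        _ = _ := by ring
    exact le_of_mul_le_mul_right h10 (by positivity)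
  exact (pow_le_pow_iff_left₀ hB.nonneg (by positivity) (by norm_num)).1 hpow

/-- `f ≤ 2`, `a ≥ n ^ (4/5)`: with `κ = √(a f) ≤ √(2 n)` and the prime of `exists_prime_kappa`
(`3 / (2p) ≤ 1`), `B ≤ 2 (3 / (2p)) ≤ C (κ log (6 κ) / n) ^ (1/2) ≤ C a ^ (1/4) (log n) ^ (1/2) n ^ (-1/2)`. -/
theorem bnd_big {C₀ c₀ c₁ : ℝ} {Δ₀ : ℕ} : ∃ C : ℝ, 0 < C ∧ ∃ n₀ : ℕ,
    ∀ {n a f : ℕ} {B : ℝ}, n₀ ≤ n → BndG C₀ c₀ c₁ Δ₀ n a f B →
    a ≤ n → f ≤ 2 → (n : ℝ) ^ (4 / 5 : ℝ) ≤ a →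
    B ≤ C * (a : ℝ) ^ (1 / 4 : ℝ) * (Real.log n) * (n : ℝ) ^ (-(1 / 2) : ℝ) := by
  obtain ⟨n₀, hn₀3, hn₀⟩ := asmG_q (K := 2) (by norm_num)
  refine ⟨32 * 4608 ^ 2, by norm_num, n₀, ?_⟩
  intro n a f B hn hB han hf2 _
  have hn3 : 3 ≤ n := hn₀3.trans hn
  have hnpos : (0 : ℝ) < n := by
    have : (3 : ℝ) ≤ n := by exact_mod_cast hn3
    linarith
  have hl1 := asmG_one_le_log hn3
  have hf1 : (1 : ℝ) ≤ f := by exact_mod_cast hB.f_pos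
  have hf2' : (f : ℝ) ≤ 2 := by exact_mod_cast hf2
  have ha1 : (1 : ℝ) ≤ a := by exact_mod_cast hB.f_pos.trans hB.f_le
  have han' : (a : ℝ) ≤ n := by exact_mod_cast han
  have haf : (a : ℝ) * f ≤ 2 * n * Real.log n := by
    calc (a : ℝ) * f ≤ n * 2 := mul_le_mul han' hf2' (by positivity) (by positivity)
      _ ≤ 2 * n * Real.log n := by nlinarith
  obtain ⟨q, hq0, hq1, hqB, hq4⟩ := hn₀ hn hB haf
  set l : ℝ := Real.log n with hl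
  set t : ℝ := (n : ℝ) ^ (-(1 / 2) : ℝ) with ht
  have ht0 : 0 < t := Real.rpow_pos_of_pos hnpos _
  have ht4 : t ^ 4 * (n : ℝ) ^ 2 = 1 := by
    rw [ht, ← Real.rpow_natCast, ← Real.rpow_mul hnpos.le, ← Real.rpow_natCast (n : ℝ) 2,
      ← Real.rpow_add hnpos]
    norm_num
  set u : ℝ := (a : ℝ) ^ (1 / 4 : ℝ) with hu
  have hu0 : 0 < u := Real.rpow_pos_of_pos (by linarith) _
  have hu4 : u ^ 4 = a := by
    rw [hu, ← Real.rpow_natCast, ← Real.rpow_mul (by linarith)]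
    norm_num
  have hB1 : B ≤ 2 * q := by
    have h1 : q ^ f ≤ q ^ 1 := pow_le_pow_of_le_one hq0 hq1 hB.f_pos
    rw [pow_one] at h1
    linarith
  have hpow : B ^ 4 ≤ (32 * 4608 ^ 2 * u * l * t) ^ 4 := by
    have h1 : B ^ 4 ≤ (2 * q) ^ 4 := pow_le_pow_left₀ hB.nonneg hB1 4
    have h2 : (2 * q) ^ 4 * (n : ℝ) ^ 2 ≤ 32 * 4608 ^ 2 * a * l ^ 2 := by
      calc (2 * q) ^ 4 * (n : ℝ) ^ 2 = 16 * (q ^ 4 * (n : ℝ) ^ 2) := by ring
        _ ≤ 16 * (4608 ^ 2 * (a * f) * l ^ 2) :=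
          mul_le_mul_of_nonneg_left hq4 (by norm_num)
        _ ≤ 16 * (4608 ^ 2 * (a * 2) * l ^ 2) := by
          refine mul_le_mul_of_nonneg_left ?_ (by norm_num)
          refine mul_le_mul_of_nonneg_right ?_ (by positivity)
          refine mul_le_mul_of_nonneg_left ?_ (by norm_num)
          exact mul_le_mul_of_nonneg_left hf2' (by positivity)
        _ = _ := by ring
    have h3 : 32 * 4608 ^ 2 * (a : ℝ) * l ^ 2 ≤ (32 * 4608 ^ 2 * u * l) ^ 4 := by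
      have h4 : l ^ 2 ≤ l ^ 4 := pow_le_pow_right₀ hl1 (by norm_num)
      calc 32 * 4608 ^ 2 * (a : ℝ) * l ^ 2 ≤ (32 * 4608 ^ 2) ^ 4 * a * l ^ 4 := by
            refine mul_le_mul ?_ h4 (by positivity) (by positivity)
            exact mul_le_mul_of_nonneg_right (by norm_num) (by positivity)
        _ = (32 * 4608 ^ 2) ^ 4 * u ^ 4 * l ^ 4 := by rw [hu4]
        _ = _ := by ring
    have h10 : B ^ 4 * (n : ℝ) ^ 2 ≤ (32 * 4608 ^ 2 * u * l * t) ^ 4 * (n : ℝ) ^ 2 := by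
      calc B ^ 4 * (n : ℝ) ^ 2 ≤ (2 * q) ^ 4 * (n : ℝ) ^ 2 :=
            mul_le_mul_of_nonneg_right h1 (by positivity)
        _ ≤ (32 * 4608 ^ 2 * u * l) ^ 4 := h2.trans h3
        _ = (32 * 4608 ^ 2 * u * l) ^ 4 * (t ^ 4 * (n : ℝ) ^ 2) := by rw [ht4, mul_one]
        _ = _ := by ring
    exact le_of_mul_le_mul_right h10 (by positivity)
  exact (pow_le_pow_iff_left₀ hB.nonneg (by positivity) (by norm_num)).1 hpow

/-- The bound for one component. -/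
theorem asmG_point {C₀ c₀ c₁ : ℝ} (hC₀ : 0 < C₀) (hc₀ : 0 < c₀) (hc₁ : 0 < c₁) (Δ₀ : ℕ) :
    ∃ C c : ℝ, 0 < C ∧ 0 < c ∧ c ≤ 1 ∧ ∃ n₀ : ℕ, ∀ {n a f : ℕ} {B : ℝ}, n₀ ≤ n →
      BndG C₀ c₀ c₁ Δ₀ n a f B → a ≤ n → B ≤ C * a / n * (n : ℝ) ^ (-c) := by
  obtain ⟨Cm, hCm, nm, hm⟩ := bnd_mid (c₀ := c₀) (c₁ := c₁) (Δ₀ := Δ₀) hC₀
  obtain ⟨Cb, hCb, nb, hb⟩ := bnd_big (C₀ := C₀) (c₀ := c₀) (c₁ := c₁) (Δ₀ := Δ₀)
  obtain ⟨n1, hn1, h1⟩ := asmG_log 3 (ε := 1 / 4) (K := 1) (by norm_num) one_pos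
  obtain ⟨n2, hn2, h2⟩ := asmG_log 4 (ε := c₁ / 8) (K := 1) (by linarith) one_pos
  obtain ⟨n3, hn3, h3⟩ := asmG_log 1 (ε := 1 / 20) (K := 1) (by norm_num) one_pos
  set c : ℝ := min (min c₀ (c₁ / 8)) (1 / 20) with hc
  have hcpos : 0 < c := lt_min (lt_min hc₀ (by linarith)) (by norm_num)
  have hcc₀ : c ≤ c₀ := (min_le_left _ _).trans (min_le_left _ _)
  have hcc₁ : c ≤ c₁ / 8 := (min_le_left _ _).trans (min_le_right _ _)
  have hc20 : c ≤ 1 / 20 := min_le_right _ _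
  set C : ℝ := Cm + Cb + C₀ + C₀ ^ 2 with hC
  refine ⟨C, c, by positivity, hcpos, by linarith, nm + nb + n1 + n2 + n3, ?_⟩
  intro n a f B hn hB han
  have hn3' : (3 : ℝ) ≤ n := by exact_mod_cast (by omega : 3 ≤ n)
  have hnpos : (0 : ℝ) < n := by linarith
  have hl1 := asmG_one_le_log (by omega : 3 ≤ n)
  have ha1 : (1 : ℝ) ≤ a := by exact_mod_cast hB.f_pos.trans hB.f_le
  have hapos : (0 : ℝ) < a := by linarith
  have han' : (a : ℝ) ≤ n := by exact_mod_cast han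
  have hfa : (f : ℝ) ≤ a := by exact_mod_cast hB.f_le
  have h1' := h1 n (by omega)
  have h2' := h2 n (by omega)
  have h3' := h3 n (by omega)
  rw [one_mul] at h1' h2' h3'
  rw [pow_one] at h3'
  set l : ℝ := Real.log n with hl
  have hmono : ∀ c' : ℝ, c ≤ c' → (n : ℝ) ^ (-c') ≤ (n : ℝ) ^ (-c) := fun c' h =>
    Real.rpow_le_rpow_of_exponent_le (by linarith) (by linarith)
  have han0 : (0 : ℝ) ≤ a / n := by positivity
  -- reduction to a bound with a smaller constant and a larger exponent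
  have hred : ∀ (K c' : ℝ), 0 ≤ K → K ≤ C → c ≤ c' → B ≤ K * (a / n) * (n : ℝ) ^ (-c') →
      B ≤ C * a / n * (n : ℝ) ^ (-c) := by
    intro K c' hK0 hK hc' hB'
    refine hB'.trans ?_
    rw [mul_div_assoc]
    exact mul_le_mul (mul_le_mul_of_nonneg_right hK han0) (hmono c' hc')
      (Real.rpow_nonneg hnpos.le _) (by positivity)
  have hinv : (n : ℝ)⁻¹ = (n : ℝ) ^ (-1 : ℝ) := (Real.rpow_neg_one _).symm
  have hone : (n : ℝ) ^ (-1 : ℝ) ≤ a / n := by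
    rw [← hinv, inv_eq_one_div]
    exact div_le_div_of_nonneg_right ha1 hnpos.le
  have hCC : Cm ≤ C ∧ Cb ≤ C ∧ C₀ ≤ C ∧ C₀ ^ 2 ≤ C := by
    have := sq_nonneg C₀
    refine ⟨?_, ?_, ?_, ?_⟩ <;> linarith
  have hs : ∀ c' : ℝ, (n : ℝ) ^ (-(1 + c')) = (n : ℝ) ^ (-1 : ℝ) * (n : ℝ) ^ (-c') := by
    intro c'
    rw [← Real.rpow_add hnpos]
    congr 1
    ring
  rcases Nat.lt_or_ge 2 f with hf | hf
  · by_cases hfl : (f : ℝ) < C₀ * l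
    · have hB' := hm (by omega : nm ≤ n) hB han hf hfl
      refine hred Cm (1 / 4) hCm.le hCC.1 (by linarith) (hB'.trans ?_)
      have h4 : (n : ℝ) ^ (-(3 / 2) : ℝ) = (n : ℝ)⁻¹ * ((n : ℝ) ^ (1 / 4 : ℝ))⁻¹ *
          (n : ℝ) ^ (-(1 / 4) : ℝ) := by
        rw [hinv, ← Real.rpow_neg hnpos.le, ← Real.rpow_add hnpos, ← Real.rpow_add hnpos]
        norm_num
      rw [h4]
      have h5 : l ^ 3 * ((n : ℝ) ^ (1 / 4 : ℝ))⁻¹ ≤ 1 := by
        rw [← div_eq_mul_inv, div_le_one (Real.rpow_pos_of_pos hnpos _)]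
        exact h1'
      have h6 : Cm * a * l ^ 3 * ((n : ℝ)⁻¹ * ((n : ℝ) ^ (1 / 4 : ℝ))⁻¹ *
          (n : ℝ) ^ (-(1 / 4) : ℝ)) = Cm * (a / n) * (n : ℝ) ^ (-(1 / 4) : ℝ) *
            (l ^ 3 * ((n : ℝ) ^ (1 / 4 : ℝ))⁻¹) := by
        rw [div_eq_mul_inv]
        ring
      rw [h6]
      refine mul_le_of_le_one_right ?_ h5
      have := Real.rpow_nonneg hnpos.le (-(1 / 4) : ℝ)
      positivity
    · rw [not_lt] at hfl
      rcases hB.large hfl with h | ⟨h, h'⟩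
      · refine hred C₀ 1 hC₀.le hCC.2.2.1 (by linarith) (h.trans ?_)
        have h4 : (n : ℝ) ^ (-2 : ℝ) = (n : ℝ) ^ (-1 : ℝ) * (n : ℝ) ^ (-1 : ℝ) := by
          rw [← Real.rpow_add hnpos]
          norm_num
        rw [h4, mul_assoc]
        refine mul_le_mul_of_nonneg_left ?_ hC₀.le
        exact mul_le_mul_of_nonneg_right hone (Real.rpow_nonneg hnpos.le _)
      · refine hred (C₀ ^ 2) (1 / 4) (by positivity) hCC.2.2.2 (by linarith) (h'.trans ?_)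
        have h4 : 1 ≤ C₀ * (a / n) := by
          rw [← mul_div_assoc, le_div_iff₀ hnpos, one_mul]
          exact h.trans (mul_le_mul_of_nonneg_left hfa hC₀.le)
        have h5 := Real.rpow_nonneg hnpos.le (-(1 / 4) : ℝ)
        calc C₀ * (n : ℝ) ^ (-(1 / 4) : ℝ) ≤ (C₀ * (n : ℝ) ^ (-(1 / 4) : ℝ)) * (C₀ * (a / n)) :=
              le_mul_of_one_le_right (by positivity) h4
          _ = _ := by ring
  · have hsm : B ≤ C₀ * (n : ℝ) ^ (-(1 + c₀)) → B ≤ C * a / n * (n : ℝ) ^ (-c) := by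
      intro h
      refine hred C₀ c₀ hC₀.le hCC.2.2.1 hcc₀ (h.trans ?_)
      rw [hs, mul_assoc]
      refine mul_le_mul_of_nonneg_left ?_ hC₀.le
      exact mul_le_mul_of_nonneg_right hone (Real.rpow_nonneg hnpos.le _)
    rcases Nat.lt_or_ge Δ₀ a with hΔ | hΔ
    · rcases le_total (a : ℝ) ((n : ℝ) ^ c₁) with h | h
      · exact hsm (hB.midA hf hΔ.le h)
      · rcases le_total (a : ℝ) ((n : ℝ) ^ (4 / 5 : ℝ)) with h' | h'
        · have hB' := hB.midB hf h h'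
          refine hred C₀ (c₁ / 8) hC₀.le hCC.2.2.1 hcc₁ (hB'.trans ?_)
          have h4 : (a : ℝ) ^ (3 / 4 : ℝ) = a * (a : ℝ) ^ (-(1 / 4) : ℝ) := by
            nth_rewrite 2 [← Real.rpow_one (a : ℝ)]
            rw [← Real.rpow_add hapos]
            norm_num
          have h5 : (a : ℝ) ^ (-(1 / 4) : ℝ) ≤ (n : ℝ) ^ (-(c₁ / 4)) := by
            have h6 : (n : ℝ) ^ (-(c₁ / 4)) = ((n : ℝ) ^ c₁) ^ (-(1 / 4) : ℝ) := by
              rw [← Real.rpow_mul hnpos.le]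
              congr 1
              ring
            rw [h6]
            exact Real.rpow_le_rpow_of_nonpos (Real.rpow_pos_of_pos hnpos _) h (by norm_num)
          have h7 : (n : ℝ) ^ (-(c₁ / 4)) = ((n : ℝ) ^ (c₁ / 8))⁻¹ * (n : ℝ) ^ (-(c₁ / 8)) := by
            rw [← Real.rpow_neg hnpos.le, ← Real.rpow_add hnpos]
            congr 1
            ring
          have h8 : l ^ 4 * ((n : ℝ) ^ (c₁ / 8))⁻¹ ≤ 1 := by
            rw [← div_eq_mul_inv, div_le_one (Real.rpow_pos_of_pos hnpos _)]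
            exact h2'
          have h9 := Real.rpow_nonneg hnpos.le (-(c₁ / 8))
          calc C₀ * (a : ℝ) ^ (3 / 4 : ℝ) * l ^ 4 / n
              = C₀ * (a / n) * l ^ 4 * (a : ℝ) ^ (-(1 / 4) : ℝ) := by
                rw [h4]
                ring
            _ ≤ C₀ * (a / n) * l ^ 4 * (n : ℝ) ^ (-(c₁ / 4)) :=
                mul_le_mul_of_nonneg_left h5 (by positivity)
            _ = C₀ * (a / n) * (n : ℝ) ^ (-(c₁ / 8)) * (l ^ 4 * ((n : ℝ) ^ (c₁ / 8))⁻¹) := by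
                rw [h7]
                ring
            _ ≤ C₀ * (a / n) * (n : ℝ) ^ (-(c₁ / 8)) :=
                mul_le_of_le_one_right (by positivity) h8
        · have hB' := hb (by omega : nb ≤ n) hB han hf h'
          refine hred Cb (1 / 20) hCb.le hCC.2.1 hc20 (hB'.trans ?_)
          have h4 : (a : ℝ) ^ (1 / 4 : ℝ) = a * (a : ℝ) ^ (-(3 / 4) : ℝ) := by
            nth_rewrite 2 [← Real.rpow_one (a : ℝ)]
            rw [← Real.rpow_add hapos]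
            norm_num
          have h5 : (a : ℝ) ^ (-(3 / 4) : ℝ) ≤ (n : ℝ) ^ (-(3 / 5) : ℝ) := by
            have h6 : (n : ℝ) ^ (-(3 / 5) : ℝ) = ((n : ℝ) ^ (4 / 5 : ℝ)) ^ (-(3 / 4) : ℝ) := by
              rw [← Real.rpow_mul hnpos.le]
              norm_num
            rw [h6]
            exact Real.rpow_le_rpow_of_nonpos (Real.rpow_pos_of_pos hnpos _) h' (by norm_num)
          have h7 : (n : ℝ) ^ (-(3 / 5) : ℝ) * (n : ℝ) ^ (-(1 / 2) : ℝ) =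
              (n : ℝ)⁻¹ * ((n : ℝ) ^ (1 / 20 : ℝ))⁻¹ * (n : ℝ) ^ (-(1 / 20) : ℝ) := by
            rw [hinv, ← Real.rpow_neg hnpos.le, ← Real.rpow_add hnpos, ← Real.rpow_add hnpos,
              ← Real.rpow_add hnpos]
            norm_num
          have h8 : l * ((n : ℝ) ^ (1 / 20 : ℝ))⁻¹ ≤ 1 := by
            rw [← div_eq_mul_inv, div_le_one (Real.rpow_pos_of_pos hnpos _)]
            exact h3'
          have h9 := Real.rpow_nonneg hnpos.le (-(1 / 20) : ℝ)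
          have h10 := Real.rpow_nonneg hnpos.le (-(1 / 2) : ℝ)
          calc Cb * (a : ℝ) ^ (1 / 4 : ℝ) * l * (n : ℝ) ^ (-(1 / 2) : ℝ)
              = Cb * a * l * (n : ℝ) ^ (-(1 / 2) : ℝ) * (a : ℝ) ^ (-(3 / 4) : ℝ) := by
                rw [h4]
                ring
            _ ≤ Cb * a * l * (n : ℝ) ^ (-(1 / 2) : ℝ) * (n : ℝ) ^ (-(3 / 5) : ℝ) :=
                mul_le_mul_of_nonneg_left h5 (by positivity)
            _ = Cb * a * l * ((n : ℝ) ^ (-(3 / 5) : ℝ) * (n : ℝ) ^ (-(1 / 2) : ℝ)) := by ring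
            _ = Cb * (a / n) * (n : ℝ) ^ (-(1 / 20) : ℝ) * (l * ((n : ℝ) ^ (1 / 20 : ℝ))⁻¹) := by
                rw [h7, div_eq_mul_inv]
                ring
            _ ≤ Cb * (a / n) * (n : ℝ) ^ (-(1 / 20) : ℝ) :=
                mul_le_of_le_one_right (by positivity) h8
    · exact hsm (hB.small hf hΔ)

/-- PROOF. It is enough to treat `n ≥ n₀` (`∑ B ≤ ∑ a ≤ n ≤ n₀` otherwise).  The components with
`f ≥ 3`, `f < C₀ log n`: `bnd_mid`, total `C (log n) ^ 3 n ^ (-1/2)`.  `f ≥ C₀ log n`: the first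
alternative gives at most `n * C₀ n ^ (-2)`; the second holds for at most `C₀` components (`∑ f ≤ n`),
total `C₀ ^ 2 n ^ (-1/4)`.  `f ≤ 2`: `a ≤ Δ₀` or `Δ₀ ≤ a ≤ n ^ c₁`: at most `n` components, total
`C₀ n ^ (- c₀)`.  `n ^ c₁ ≤ a ≤ n ^ (4/5)`: `∑ a ^ (3/4) ≤ n * n ^ (- c₁/4)`, total `C (log n) ^ 2 n ^ (- c₁/4)`.
`a ≥ n ^ (4/5)`: `∑ a ^ (1/4) ≤ n * n ^ (- 3/5)`, total `C log n n ^ (-1/10)`. -/
theorem assembleG {C₀ c₀ c₁ : ℝ} (hC₀ : 0 < C₀) (hc₀ : 0 < c₀) (hc₁ : 0 < c₁) (Δ₀ : ℕ) :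
    ∃ C c : ℝ, 0 < C ∧ 0 < c ∧ ∀ n : ℕ, 1 ≤ n → ∀ {I : Type} (S : Finset I) (a f : I → ℕ)
      (B : I → ℝ), (∑ i ∈ S, a i ≤ n) → (∀ i ∈ S, BndG C₀ c₀ c₁ Δ₀ n (a i) (f i) (B i)) →
      ∑ i ∈ S, B i ≤ C * (n : ℝ) ^ (-c) := by
  obtain ⟨C, c, hC, hc, hc1, n₀, hpt⟩ := asmG_point hC₀ hc₀ hc₁ Δ₀
  refine ⟨C + (n₀ : ℝ) ^ 2, c, by positivity, hc, ?_⟩
  intro n hn I S a f B hsum hB
  have hn1 : (1 : ℝ) ≤ n := by exact_mod_cast hn
  have hnpos : (0 : ℝ) < n := by linarith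
  have hsum' : ∑ i ∈ S, (a i : ℝ) ≤ n := by exact_mod_cast hsum
  have hr := Real.rpow_pos_of_pos hnpos (-c)
  rcases Nat.lt_or_ge n n₀ with h | h
  · have h1 : ∑ i ∈ S, B i ≤ n := by
      refine le_trans (sum_le_sum fun i hi => ?_) hsum'
      have h2 := (hB i hi).le_one
      have h3 : (1 : ℝ) ≤ a i := by exact_mod_cast (hB i hi).f_pos.trans (hB i hi).f_le
      linarith
    have h4 : (n : ℝ) ≤ n₀ := by exact_mod_cast h.le
    have h5 : (n : ℝ)⁻¹ ≤ (n : ℝ) ^ (-c) := by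
      rw [← Real.rpow_neg_one]
      exact Real.rpow_le_rpow_of_exponent_le hn1 (by linarith)
    have h6 : (n : ℝ) ≤ (n₀ : ℝ) ^ 2 * (n : ℝ) ^ (-c) := by
      calc (n : ℝ) = n ^ 2 * (n : ℝ)⁻¹ := by field_simp
        _ ≤ (n₀ : ℝ) ^ 2 * (n : ℝ) ^ (-c) :=
          mul_le_mul (pow_le_pow_left₀ hnpos.le h4 2) h5 (by positivity) (by positivity)
    have h7 : 0 ≤ C * (n : ℝ) ^ (-c) := by positivity
    linarith
  · have h1 : ∀ i ∈ S, B i ≤ C / n * (n : ℝ) ^ (-c) * a i := by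
      intro i hi
      have h2 : a i ≤ n := (single_le_sum (f := a) (fun _ _ => Nat.zero_le _) hi).trans hsum
      refine (hpt h (hB i hi) h2).trans (le_of_eq ?_)
      ring
    calc ∑ i ∈ S, B i ≤ ∑ i ∈ S, C / n * (n : ℝ) ^ (-c) * a i := sum_le_sum h1
      _ = C / n * (n : ℝ) ^ (-c) * ∑ i ∈ S, (a i : ℝ) := (mul_sum _ _ _).symm
      _ ≤ C / n * (n : ℝ) ^ (-c) * n := mul_le_mul_of_nonneg_left hsum' (by positivity)
      _ = C * (n : ℝ) ^ (-c) := by field_simp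
      _ ≤ (C + (n₀ : ℝ) ^ 2) * (n : ℝ) ^ (-c) :=
        mul_le_mul_of_nonneg_right (by nlinarith [sq_nonneg (n₀ : ℝ)]) hr.le

end Pool.MP43e44c.GA
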