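import Pool.Agent.H.MP_43e44c_ag.GA.Row
import Pool.Agent.H.MP_43e44c_ag.OD.BMain

/-!
The bound from an odd prime.
-/

set_option autoImplicit false

open Finset Module

namespace Pool.MP43e44c.GA

open Pool.MP43e44c.OD

universe u v

namespace Half

variable {G : Type u} [Group G] {ι : Type v} (H : Half G ι) [Fintype G] [Fintype ι]

/-- PROOF as in OD/BMain.lean.  `L = n / k ≥ p ^ 2 log (6 k) ≥ p ^ 2`, `cosS p L ^ k ≤ 2` by `cosS_le`,
and `∏ (p ^ f_j - 1) ≥ (2 / 3) ^ F p ^ F` (as `q - 1 ≥ 2 q / 3` for `q ≥ 3` and `card S ≤ F`).  If `S` is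
empty the claim is trivial. -/
theorem badI_le_S {p : ℕ} [Fact p.Prime] (hp2 : p ≠ 2) (hp : ¬ p ∣ Fintype.card G) (W : WD ℚ G)
    (P : WD (ZMod p) G) {i : Fin W.m} (hi : H.Odd W i) {S : Finset (Fin P.m)}
    (hS : S ⊆ J W P i) {k F : ℕ} (hk : k = ∑ j ∈ S, P.r j * P.f j) (hF : F = ∑ j ∈ S, P.f j)
    (h : (p : ℝ) ^ 2 * k * Real.log (6 * k) ≤ Fintype.card ι) :
    (((H.badI W i).ncard : ℕ) : ℝ) ≤ 2 * (3 / (2 * p)) ^ F * 2 ^ Fintype.card ι := by
  classical
  have hpr : p.Prime := Fact.out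
  have hp3 : 3 ≤ p := by
    have := hpr.two_le
    omega
  have hpR : (3 : ℝ) ≤ p := by exact_mod_cast hp3
  have hp0 : (0 : ℝ) < p := by linarith
  rcases S.eq_empty_or_nonempty with hS0 | hSne
  · subst hS0
    rw [sum_empty] at hF
    subst hF
    rw [pow_zero, mul_one]
    have h0 : (H.badI W i).ncard ≤ Nat.card (ι → Bool) := by
      rw [← Set.ncard_univ]
      exact Set.ncard_le_ncard (Set.subset_univ _) (Set.toFinite _)
    have h00 : Nat.card (ι → Bool) = 2 ^ Fintype.card ι := by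
      rw [Nat.card_eq_fintype_card, Fintype.card_fun, Fintype.card_bool]
    rw [h00] at h0
    have h1 : (((H.badI W i).ncard : ℕ) : ℝ) ≤ 2 ^ Fintype.card ι := by exact_mod_cast h0
    have h2 : (0 : ℝ) < 2 ^ Fintype.card ι := by positivity
    linarith
  have hk0 : 0 < k := by
    rw [hk]
    obtain ⟨j, hj⟩ := hSne
    exact lt_of_lt_of_le (Nat.mul_pos (Nat.pos_of_ne_zero (NeZero.ne (P.r j))) (P.f_pos j))
      (single_le_sum (f := fun j => P.r j * P.f j) (fun _ _ => Nat.zero_le _) hj)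
  have hk1 : (1 : ℝ) ≤ k := by exact_mod_cast hk0
  have hkR : (0 : ℝ) < k := by linarith
  have hlog6 : 1 ≤ Real.log (6 * k) := by
    rw [Real.le_log_iff_exp_le (by positivity)]
    have := Real.exp_one_lt_d9
    nlinarith
  obtain ⟨L, hL⟩ : ∃ L : ℝ, L = (Fintype.card ι : ℝ) / k := ⟨_, rfl⟩
  have hL1 : (p : ℝ) ^ 2 * Real.log (6 * k) ≤ L := by
    rw [hL, le_div_iff₀ hkR]
    nlinarith
  have hLp : (p : ℝ) ^ 2 ≤ L := by
    have : (p : ℝ) ^ 2 * 1 ≤ (p : ℝ) ^ 2 * Real.log (6 * k) :=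
      mul_le_mul_of_nonneg_left hlog6 (by positivity)
    linarith
  have hcos := cosS_le hp2 hLp
  have hexp : Real.exp (-(4 * L) / p ^ 2) ≤ 1 / (6 * k) := by
    have h1 : Real.log (6 * k) ≤ L / p ^ 2 := by
      rw [le_div_iff₀ (by positivity)]
      linarith
    have h2 : -(4 * L) / (p : ℝ) ^ 2 ≤ -Real.log (6 * k) := by
      have h3 : -(4 * L) / (p : ℝ) ^ 2 = -(4 * (L / p ^ 2)) := by ring
      rw [h3]
      linarith
    refine (Real.exp_le_exp.2 h2).trans (le_of_eq ?_)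
    rw [Real.exp_neg, Real.exp_log (by positivity), one_div]
  have hcos2 : cosS p L ≤ 1 + 1 / (2 * k) := by
    refine hcos.trans ?_
    have h1 : 3 * (1 / (6 * (k : ℝ))) = 1 / (2 * k) := by
      field_simp
      norm_num
    linarith
  have hcos0 : 0 ≤ cosS p L := sum_nonneg fun a _ => Real.rpow_nonneg (abs_nonneg _) _
  have hpow : cosS p L ^ k ≤ 2 := by
    have h1 : cosS p L ≤ Real.exp (1 / (2 * k)) := by
      have := Real.add_one_le_exp (1 / (2 * (k : ℝ)))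
      linarith
    calc cosS p L ^ k ≤ Real.exp (1 / (2 * k)) ^ k := pow_le_pow_left₀ hcos0 h1 k
      _ = Real.exp (1 / 2) := by
          rw [← Real.exp_nat_mul]
          congr 1
          field_simp
      _ ≤ 2 := by
          have h2 : Real.exp (1 / 2) ^ 2 ≤ 2 ^ 2 := by
            rw [← Real.exp_nat_mul]
            have h3 : ((2 : ℕ) : ℝ) * (1 / 2) = 1 := by norm_num
            rw [h3]
            have := Real.exp_one_lt_d9
            linarith
          exact (sq_le_sq₀ (Real.exp_pos _).le (by norm_num)).1 h2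
  have hrow := H.badI_row hp2 hp W P hi hS hk
  rw [← hL] at hrow
  have hrow2 : (((H.badI W i).ncard : ℕ) : ℝ) * ∏ j ∈ S, ((p : ℝ) ^ P.f j - 1)
      ≤ 2 ^ Fintype.card ι * 2 :=
    hrow.trans (mul_le_mul_of_nonneg_left hpow (by positivity))
  have hprod : (2 / 3 * (p : ℝ)) ^ F ≤ ∏ j ∈ S, ((p : ℝ) ^ P.f j - 1) := by
    calc (2 / 3 * (p : ℝ)) ^ F = (2 / 3) ^ (∑ j ∈ S, P.f j) *
          (p : ℝ) ^ (∑ j ∈ S, P.f j) := by
          rw [hF, mul_pow]
      _ = ∏ j ∈ S, ((2 / 3 : ℝ) ^ P.f j * (p : ℝ) ^ P.f j) := by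
          rw [← prod_pow_eq_pow_sum, ← prod_pow_eq_pow_sum, ← prod_mul_distrib]
      _ ≤ ∏ j ∈ S, ((p : ℝ) ^ P.f j - 1) := by
          refine prod_le_prod (fun j _ => by positivity) fun j _ => ?_
          have hfj : 1 ≤ P.f j := P.f_pos j
          have h1 : (2 / 3 : ℝ) ^ P.f j ≤ 2 / 3 := by
            calc (2 / 3 : ℝ) ^ P.f j ≤ (2 / 3 : ℝ) ^ 1 :=
                  pow_le_pow_of_le_one (by norm_num) (by norm_num) hfj
              _ = 2 / 3 := pow_one _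
          have h2 : (3 : ℝ) ≤ (p : ℝ) ^ P.f j := by
            calc (3 : ℝ) ≤ p := hpR
              _ = (p : ℝ) ^ 1 := (pow_one _).symm
              _ ≤ (p : ℝ) ^ P.f j := pow_le_pow_right₀ (by linarith) hfj
          have h3 : (2 / 3 : ℝ) ^ P.f j * (p : ℝ) ^ P.f j ≤ 2 / 3 * (p : ℝ) ^ P.f j :=
            mul_le_mul_of_nonneg_right h1 (by positivity)
          linarith
  have hfin : (((H.badI W i).ncard : ℕ) : ℝ) * (2 / 3 * (p : ℝ)) ^ F
      ≤ 2 ^ Fintype.card ι * 2 :=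
    (mul_le_mul_of_nonneg_left hprod (Nat.cast_nonneg _)).trans hrow2
  have hq : (3 / (2 * (p : ℝ))) ^ F * (2 / 3 * (p : ℝ)) ^ F = 1 := by
    rw [← mul_pow]
    have h1 : 3 / (2 * (p : ℝ)) * (2 / 3 * (p : ℝ)) = 1 := by field_simp
    rw [h1, one_pow]
  have hpos : 0 < (2 / 3 * (p : ℝ)) ^ F := by positivity
  refine le_of_mul_le_mul_right ?_ hpos
  calc (((H.badI W i).ncard : ℕ) : ℝ) * (2 / 3 * (p : ℝ)) ^ F
      ≤ 2 ^ Fintype.card ι * 2 := hfin
    _ = 2 * ((3 / (2 * (p : ℝ))) ^ F * (2 / 3 * (p : ℝ)) ^ F) * 2 ^ Fintype.card ι := by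
        rw [hq]
        ring
    _ = 2 * (3 / (2 * (p : ℝ))) ^ F * 2 ^ Fintype.card ι * (2 / 3 * (p : ℝ)) ^ F := by
        ring

/-- PROOF as in OD/BMain.lean (`badI_le_S` with `S = J W P i`, `exists_wd`,
`sum_rf_sq_le`, `sum_below_f`). -/
theorem badI_le_B {p : ℕ} [Fact p.Prime] (hp2 : p ≠ 2) (hp : ¬ p ∣ Fintype.card G) (W : WD ℚ G)
    {i : Fin W.m} (hi : H.Odd W i)
    (h : (p : ℝ) ^ 2 * Real.sqrt (W.a i * W.f i) * Real.log (6 * Real.sqrt (W.a i * W.f i))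
      ≤ Fintype.card ι) :
    (((H.badI W i).ncard : ℕ) : ℝ) ≤ 2 * (3 / (2 * p)) ^ W.f i * 2 ^ Fintype.card ι := by
  classical
  have hpr : p.Prime := Fact.out
  have hp0 : (0 : ℝ) < p := by exact_mod_cast hpr.pos
  obtain ⟨P⟩ := exists_wd (ZMod p) G (by
    rw [Ne, ZMod.natCast_eq_zero_iff]
    exact hp)
  obtain ⟨k, hk⟩ : ∃ k, k = ∑ j ∈ J W P i, P.r j * P.f j := ⟨_, rfl⟩
  have hk0 : 0 < k := by
    rw [hk]
    exact sum_rf_pos hp W P i
  have hk1 : (1 : ℝ) ≤ k := by exact_mod_cast hk0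
  have hsq : k ^ 2 ≤ W.a i * W.f i := by
    rw [hk]
    exact sum_rf_sq_le hp W P i
  have hkκ : (k : ℝ) ≤ Real.sqrt (W.a i * W.f i) := by
    apply Real.le_sqrt_of_sq_le
    exact_mod_cast hsq
  have hlog6 : 1 ≤ Real.log (6 * k) := by
    rw [Real.le_log_iff_exp_le (by positivity)]
    have := Real.exp_one_lt_d9
    nlinarith
  have hbig : (p : ℝ) ^ 2 * k * Real.log (6 * k) ≤ Fintype.card ι := by
    refine le_trans ?_ h
    have h1 : Real.log (6 * k) ≤ Real.log (6 * Real.sqrt (W.a i * W.f i)) :=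
      Real.log_le_log (by positivity) (by linarith)
    have h2 : (p : ℝ) ^ 2 * k ≤ (p : ℝ) ^ 2 * Real.sqrt (W.a i * W.f i) :=
      mul_le_mul_of_nonneg_left hkκ (by positivity)
    exact mul_le_mul h2 h1 (by linarith) (by positivity)
  exact H.badI_le_S hp2 hp W P hi (Finset.Subset.refl _) hk (sum_below_f hp W P i).symm hbig

end Half

end Pool.MP43e44c.GA
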