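import Pool.Agent.H.MP_43e44c_ag.OD.Fp

/-!
The degrees of the residue fields of the group algebra modulo `p` are bounded by the order of `p`.
-/

set_option autoImplicit false

open Finset Module

namespace Pool.MP43e44c.GA

open Pool.MP43e44c.OD

universe u

open Polynomial in
theorem expand_charpoly_pow {K : Type*} [Field K] {p : ℕ} [Fact p.Prime] [CharP K p] {d : ℕ}
    [Nonempty (Fin d)] (M : Matrix (Fin d) (Fin d) K) :
    expand K p (M ^ p).charpoly = M.charpoly ^ p := by
  unfold Matrix.charpoly
  rw [AlgHom.map_det, ← Matrix.coe_detMonoidHom,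
    ← (Matrix.detMonoidHom : Matrix (Fin d) (Fin d) K[X] →* K[X]).map_pow]
  apply congr_arg Matrix.det
  refine matPolyEquiv.injective ?_
  have h1 : matPolyEquiv (M.charmatrix ^ p) = (X - C M) ^ p := by
    rw [map_pow, Matrix.matPolyEquiv_charmatrix]
  have h2 : (X - C M) ^ p = X ^ p - C (M ^ p) := by
    have := sub_pow_char_pow_of_commute p 1 (x := (X : (Matrix (Fin d) (Fin d) K)[X])) (y := C M)
      (C M).commute_X
    rw [pow_one] at this
    rw [this, ← C_pow]
  rw [h1, h2]
  exact matPolyEquiv_eq_X_pow_sub_C p M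

open Polynomial in
theorem charpoly_pow_char {K : Type*} [Field K] {p : ℕ} [Fact p.Prime] [CharP K p] {d : ℕ}
    [Nonempty (Fin d)] (M : Matrix (Fin d) (Fin d) K) :
    (M ^ p).charpoly = M.charpoly.map (frobenius K p) := by
  apply expand_injective (R := K) (Fact.out : p.Prime).pos
  rw [expand_charpoly_pow, ← map_frobenius_expand, map_expand]

/-- The trace commutes with the power map in characteristic `p`: `(charpoly (M ^ p)).expand p` is the
`p`-th power of `charpoly M`. -/
theorem trace_pow_char {K : Type*} [Field K] {p : ℕ} [Fact p.Prime] [CharP K p] {d : ℕ}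
    (M : Matrix (Fin d) (Fin d) K) : (M ^ p).trace = M.trace ^ p := by
  have hp : p ≠ 0 := (Fact.out : p.Prime).ne_zero
  rcases isEmpty_or_nonempty (Fin d) with h | h
  · simp [Matrix.trace, hp]
  · rw [Matrix.trace_eq_neg_charpoly_coeff, Matrix.trace_eq_neg_charpoly_coeff,
      charpoly_pow_char, Polynomial.coeff_map, frobenius_def]
    have h1 := map_neg (frobenius K p) (M.charpoly.coeff (Fintype.card (Fin d) - 1))
    rw [frobenius_def, frobenius_def] at h1
    rw [h1]

theorem trace_pow_char_pow {K : Type*} [Field K] {p : ℕ} [Fact p.Prime] [CharP K p] {d : ℕ}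
    (M : Matrix (Fin d) (Fin d) K) (m : ℕ) : (M ^ (p ^ m)).trace = M.trace ^ (p ^ m) := by
  induction m with
  | zero => simp
  | succ m ih => rw [pow_succ p m, pow_mul, trace_pow_char, ih, ← pow_mul]

theorem card_le_of_surj {K : Type*} [Field K] [Finite K] {p : ℕ} [Fact p.Prime]
    [Algebra (ZMod p) K] {G : Type*} [Group G] {r : ℕ} [NeZero r]
    (ψ : MonoidAlgebra (ZMod p) G →ₐ[ZMod p] Matrix (Fin r) (Fin r) K)
    (hψ : Function.Surjective ψ) {m : ℕ} (hm : 0 < m) (hg : ∀ g : G, g ^ (p ^ m) = g) :
    Nat.card K ≤ p ^ m := by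
  have : CharP K p := charP_of_injective_algebraMap (algebraMap (ZMod p) K).injective p
  have hp := (Fact.out : p.Prime)
  have hpm : p ^ m ≠ 0 := pow_ne_zero _ hp.ne_zero
  have key : ∀ y : MonoidAlgebra (ZMod p) G, (ψ y).trace ^ (p ^ m) = (ψ y).trace := by
    intro y
    induction y using MonoidAlgebra.induction_linear with
    | zero => rw [map_zero, Matrix.trace_zero, zero_pow hpm]
    | add a b ha hb => rw [map_add, Matrix.trace_add, add_pow_char_pow, ha, hb]
    | single a c =>
      have h1 : (MonoidAlgebra.single a c : MonoidAlgebra (ZMod p) G)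
          = c • MonoidAlgebra.single a 1 := by
        rw [MonoidAlgebra.smul_single, smul_eq_mul, mul_one]
      have h2 : (ψ (MonoidAlgebra.single a 1)) ^ (p ^ m) = ψ (MonoidAlgebra.single a 1) := by
        rw [← map_pow, MonoidAlgebra.single_pow, hg, one_pow]
      rw [h1, map_smul, Matrix.trace_smul, smul_pow, ← trace_pow_char_pow, h2, ZMod.pow_card_pow]
  have hall : ∀ x : K, x ^ (p ^ m) = x := by
    intro x
    obtain ⟨y, hy⟩ := hψ (Matrix.single 0 0 x)
    have h3 := key y
    rwa [hy, Matrix.trace_single_eq_same] at h3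
  have := Fintype.ofFinite K
  classical
  have hne := FiniteField.X_pow_card_pow_sub_X_ne_zero K hm.ne' hp.one_lt
  have hdeg := FiniteField.X_pow_card_pow_sub_X_natDegree_eq K hm.ne' hp.one_lt
  have h4 : (Finset.univ : Finset K).val ⊆
      (Polynomial.X ^ (p ^ m) - Polynomial.X : Polynomial K).roots := by
    intro x _
    rw [Polynomial.mem_roots hne]
    simp [hall x]
  have h5 := Polynomial.card_le_degree_of_subset_roots h4
  rw [hdeg, Finset.card_univ] at h5
  rwa [Nat.card_eq_fintype_card]

theorem comp_surj {k : Type} [Field k] {O : Type u} [Group O] [Fintype O] (W : WD k O)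
    (i : Fin W.m) : Function.Surjective (W.comp i) := by
  intro x
  refine ⟨W.φ.symm (Pi.single i x), ?_⟩
  rw [WD.comp_apply, AlgEquiv.apply_symm_apply, Pi.single_eq_same]

/-- If `p ^ m ≡ 1` modulo `card G` then the degree of the center of each component modulo `p` is
at most `m`. -/
theorem f_le_of_pow {G : Type u} [Group G] [Fintype G] {p : ℕ} [Fact p.Prime]
    (P : WD (ZMod p) G) (j : Fin P.m) {m : ℕ} (hm : 0 < m)
    (h : p ^ m ≡ 1 [MOD Fintype.card G]) : P.f j ≤ m := by
  have hp := (Fact.out : p.Prime)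
  have hg : ∀ g : G, g ^ (p ^ m) = g := by
    intro g
    have h1 : g ^ (p ^ m) = g ^ 1 :=
      pow_eq_pow_iff_modEq.2 (h.of_dvd (orderOf_dvd_card))
    rw [h1, pow_one]
  have := finD P j
  have h2 : Nat.card (P.D j) ≤ p ^ m :=
    @card_le_of_surj (P.D j) (littleWedderburn (P.D j)) _ p _ (P.al j) G _ (P.r j) _
      (P.comp j) (comp_surj P j) m hm hg
  rw [cardD] at h2
  exact (Nat.pow_le_pow_iff_right hp.one_lt).1 h2

end Pool.MP43e44c.GA
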