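import Mathlib

/-!
The order of a number modulo an integer with many prime factors, and the smallest odd prime which
does not divide an integer.
-/

set_option autoImplicit false

open Finset

namespace Pool.MP43e44c.GA

/-- The number of the odd prime factors. -/
def ow (m : ℕ) : ℕ := (m.primeFactors.erase 2).card

theorem ordB_mul {a b : ℕ} (h : Nat.Coprime a b) : ow (a * b) = ow a + ow b := by
  unfold ow
  rw [h.primeFactors_mul, Finset.erase_union_distrib, Finset.card_union_of_disjoint]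
  exact (h.disjoint_primeFactors.mono (Finset.erase_subset _ _) (Finset.erase_subset _ _))

theorem ordB_exp : ∀ m : ℕ, 0 < m → ∃ e : ℕ, 0 < e ∧
    (∀ x : ℕ, Nat.Coprime x m → x ^ e ≡ 1 [MOD m]) ∧
      ((ow m = 0 ∧ e ≤ m) ∨ (Even e ∧ e * 2 ^ ow m ≤ 2 * m)) := by
  apply Nat.recOnPosPrimePosCoprime
  · intro p n hp hn _
    have hpn : 0 < p ^ n := pow_pos hp.pos n
    refine ⟨Nat.totient (p ^ n), Nat.totient_pos.2 hpn, fun x hx => Nat.ModEq.pow_totient hx, ?_⟩
    have h1 : (p ^ n).primeFactors = {p} := Nat.primeFactors_prime_pow hn.ne' hp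
    rcases eq_or_ne p 2 with h2 | h2
    · left
      refine ⟨?_, Nat.totient_le _⟩
      unfold ow
      rw [h1, h2]
      rfl
    · right
      have h3 : ow (p ^ n) = 1 := by
        unfold ow
        rw [h1, Finset.erase_eq_of_notMem, Finset.card_singleton]
        rw [Finset.mem_singleton]
        exact fun h => h2 h.symm
      have h4 : 2 < p ^ n := by
        have h5 : 2 < p := lt_of_le_of_ne hp.two_le (Ne.symm h2)
        exact h5.trans_le (Nat.le_self_pow hn.ne' p)
      refine ⟨Nat.totient_even h4, ?_⟩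
      rw [h3, pow_one, mul_comm]
      exact Nat.mul_le_mul_left 2 (Nat.totient_le _)
  · intro h
    exact absurd h (lt_irrefl 0)
  · intro _
    refine ⟨1, one_pos, fun x _ => Nat.modEq_one, Or.inl ⟨?_, le_rfl⟩⟩
    unfold ow
    rw [Nat.primeFactors_one]
    rfl
  · intro a b ha hb hab iha ihb _
    obtain ⟨ea, ha0, ha1, ha2⟩ := iha (by omega)
    obtain ⟨eb, hb0, hb1, hb2⟩ := ihb (by omega)
    rw [ordB_mul hab]
    have key : ∀ e, ea ∣ e → eb ∣ e → ∀ x : ℕ, Nat.Coprime x (a * b) → x ^ e ≡ 1 [MOD a * b] := by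
      intro e h1 h2 x hx
      obtain ⟨c, rfl⟩ := h1
      obtain ⟨c', hc'⟩ := h2
      rw [← Nat.modEq_and_modEq_iff_modEq_mul hab]
      constructor
      · have h3 := (ha1 x (Nat.Coprime.coprime_mul_right_right hx)).pow c
        rwa [one_pow, ← pow_mul] at h3
      · have h3 := (hb1 x (Nat.Coprime.coprime_mul_left_right hx)).pow c'
        rwa [one_pow, ← pow_mul, ← hc'] at h3
    rcases ha2 with ⟨hao, hae⟩ | ⟨hae, hab2⟩
    · rcases hb2 with ⟨hbo, hbe⟩ | ⟨hbe, hbb2⟩
      · refine ⟨ea * eb, Nat.mul_pos ha0 hb0, key _ (Dvd.intro _ rfl) (Dvd.intro_left _ rfl),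
          Or.inl ⟨by omega, Nat.mul_le_mul hae hbe⟩⟩
      · refine ⟨ea * eb, Nat.mul_pos ha0 hb0, key _ (Dvd.intro _ rfl) (Dvd.intro_left _ rfl),
          Or.inr ⟨hbe.mul_left ea, ?_⟩⟩
        rw [hao, zero_add]
        calc ea * eb * 2 ^ ow b = ea * (eb * 2 ^ ow b) := by ring
          _ ≤ a * (2 * b) := Nat.mul_le_mul hae hbb2
          _ = 2 * (a * b) := by ring
    · rcases hb2 with ⟨hbo, hbe⟩ | ⟨hbe, hbb2⟩
      · refine ⟨ea * eb, Nat.mul_pos ha0 hb0, key _ (Dvd.intro _ rfl) (Dvd.intro_left _ rfl),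
          Or.inr ⟨hae.mul_right eb, ?_⟩⟩
        rw [hbo, add_zero]
        calc ea * eb * 2 ^ ow a = (ea * 2 ^ ow a) * eb := by ring
          _ ≤ (2 * a) * b := Nat.mul_le_mul hab2 hbe
          _ = 2 * (a * b) := by ring
      · obtain ⟨c, hc⟩ := hae
        have hc' : ea = 2 * c := by omega
        obtain ⟨d, hd⟩ := hbe
        have hd' : eb = 2 * d := by omega
        refine ⟨c * eb, Nat.mul_pos (by omega) hb0, key _ ⟨d, ?_⟩ (Dvd.intro_left _ rfl),
          Or.inr ⟨(show Even eb from ⟨d, hd⟩).mul_left c, ?_⟩⟩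
        · rw [hd', hc']
          ring
        · have h1 : (ea * 2 ^ ow a) * (eb * 2 ^ ow b) ≤ (2 * a) * (2 * b) :=
            Nat.mul_le_mul hab2 hbb2
          have h2 : 2 * (c * eb * 2 ^ (ow a + ow b)) = (ea * 2 ^ ow a) * (eb * 2 ^ ow b) := by
            rw [hc', pow_add]
            ring
          have h3 : (2 * a) * (2 * b) = 2 * (2 * (a * b)) := by ring
          omega

/-- PROOF. Show for all `m > 0` that there is `e > 0` with `x ^ e ≡ 1 [MOD m]` for all `x` prime to `m` and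
`e * 2 ^ ow m ≤ 2 * m`; more precisely `e = φ(m)` if `ow m = 0` and `e * 2 ^ (ow m - 1) = φ(m)` if
`ow m ≥ 1`.  Induction over the coprime factorisation (`Nat.recOnPosPrimePosCoprime` or
`Nat.recOnPrimeCoprime`): for `m = a b`, `a, b` coprime with exponents `e_a, e_b` take
`e = lcm(e_a, e_b)`, which is `e_a e_b / 2` at most if both are even; the exponent of an odd prime power
`q ^ k` is `φ(q ^ k)`, which is even.  (One can carry the exact statement: if `ow m ≥ 1`, then
`φ(m) = e * 2 ^ (ow m - 1)` with `e` even.) -/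
theorem exists_exp {m x : ℕ} (hm : 0 < m) (hx : Nat.Coprime x m) :
    ∃ e : ℕ, 0 < e ∧ x ^ e ≡ 1 [MOD m] ∧ e * 2 ^ ow m ≤ 2 * m := by
  obtain ⟨e, h0, h1, h2⟩ := ordB_exp m hm
  refine ⟨e, h0, h1 x hx, ?_⟩
  rcases h2 with ⟨h3, h4⟩ | ⟨-, h4⟩
  · rw [h3, pow_zero, mul_one]
    omega
  · exact h4

/-- a lower bound for the first Chebyshev function -/
theorem ordB_theta : ∃ C : ℝ, 0 < C ∧ ∀ n : ℕ, (n : ℝ) ≤ 4 * Chebyshev.theta n + C := by
  obtain ⟨K, hK⟩ := Chebyshev.psi_sub_theta_le_mul_sqrt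
  refine ⟨4 * (3 + 2 * K ^ 2) + 1, by positivity, fun n => ?_⟩
  have h1 := Chebyshev.psi_ge n
  have h2 := hK n
  have h3 : K * Real.sqrt n ≤ n / 8 + 2 * K ^ 2 := by
    have h4 : Real.sqrt n ^ 2 = n := Real.sq_sqrt (Nat.cast_nonneg n)
    nlinarith [sq_nonneg (Real.sqrt n - 4 * K), h4]
  have h4 : Real.log (n + 1) ≤ n / 8 + 3 := by
    have hn : (0 : ℝ) < (n + 1) / 8 := by positivity
    have h5 := Real.log_le_sub_one_of_pos hn
    rw [Real.log_div (by positivity) (by norm_num)] at h5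
    have h6 : Real.log 8 ≤ 3 := by
      rw [show (8 : ℝ) = 2 ^ 3 by norm_num, Real.log_pow]
      have := Real.log_two_lt_d9
      push_cast
      linarith
    linarith
  have h5 := Real.log_two_gt_d9
  have h6 : (0 : ℝ) ≤ n := Nat.cast_nonneg n
  have h7 : (n : ℝ) * Real.log 2 ≥ n * (1 / 2) := by
    apply mul_le_mul_of_nonneg_left _ h6
    linarith
  linarith

theorem ordB_primorial {m p : ℕ} (hm : 0 < m)
    (h : ∀ q : ℕ, q.Prime → q ≠ 2 → q < p → q ∣ m) : primorial (p - 1) ≤ 2 * m := by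
  apply Nat.le_of_dvd (by omega)
  unfold primorial
  apply Finset.prod_primes_dvd
  · intro q hq
    rw [Finset.mem_filter] at hq
    exact hq.2.prime
  · intro q hq
    rw [Finset.mem_filter, Finset.mem_range] at hq
    rcases eq_or_ne q 2 with h2 | h2
    · rw [h2]
      exact Dvd.intro _ rfl
    · have h3 : q < p := by
        have := hq.2.two_le
        omega
      exact Dvd.dvd.mul_left (h q hq.2 h2 h3) 2

/-- PROOF. Let `p` be the smallest odd prime which does not divide `m` (there are infinitely many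
primes).  The primes `q < p`, `q ≠ 2` divide `m`, so `primorial (p - 1) ∣ 2 * m` and
`θ (p - 1) ≤ log (2 m)` (`Chebyshev.theta_eq_log_primorial`), and
`θ (p - 1) ≥ (p - 1) log 2 - log p - 2 √(p - 1) log (p - 1)` (`Chebyshev.theta_ge`), which is at least
`p / C - C`.  And `ow m ≥ π (p - 1) - 1` (`π` the number of the primes), so
`2 ^ ow m ≥ 2 ^ (π (p - 1) - 1)`, which exceeds `A p ^ B` if `p` is large (`Chebyshev.pi_ge`). -/
theorem exists_small_prime : ∃ C : ℝ, 0 < C ∧ ∀ m : ℕ, 2 ≤ m → ∃ p : ℕ, p.Prime ∧ p ≠ 2 ∧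
    ¬ p ∣ m ∧ (p : ℝ) ≤ C * Real.log m ∧
    (∀ q : ℕ, q.Prime → q ≠ 2 → q < p → q ∣ m) := by
  classical
  obtain ⟨K, hK0, hK⟩ := ordB_theta
  refine ⟨4 + (4 * Real.log 2 + K + 1) / Real.log 2, by positivity, fun m hm => ?_⟩
  have hex : ∃ p : ℕ, p.Prime ∧ p ≠ 2 ∧ ¬ p ∣ m := by
    obtain ⟨p, hp1, hp2⟩ := Nat.exists_infinite_primes (m + 3)
    refine ⟨p, hp2, by omega, fun h => ?_⟩
    have := Nat.le_of_dvd (by omega) h
    omega
  obtain ⟨hp1, hp2, hp3⟩ := Nat.find_spec hex
  have hmin : ∀ q : ℕ, q.Prime → q ≠ 2 → q < Nat.find hex → q ∣ m := by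
    intro q hq hq2 hqp
    by_contra hcon
    exact Nat.find_min hex hqp ⟨hq, hq2, hcon⟩
  refine ⟨Nat.find hex, hp1, hp2, hp3, ?_, hmin⟩
  set p : ℕ := Nat.find hex with hp
  have hpr := ordB_primorial (by omega) hmin
  have h1 : Chebyshev.theta ((p - 1 : ℕ) : ℝ) ≤ Real.log (2 * m) := by
    rw [Chebyshev.theta_eq_log_primorial, Nat.floor_natCast]
    apply Real.log_le_log
    · exact_mod_cast primorial_pos _
    · exact_mod_cast hpr
  have h2 := hK (p - 1)
  have h3 : ((p - 1 : ℕ) : ℝ) = p - 1 := by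
    rw [Nat.cast_sub hp1.one_le, Nat.cast_one]
  have hm0 : (0 : ℝ) < m := by
    have : 0 < m := by omega
    exact_mod_cast this
  have h4 : Real.log (2 * m) = Real.log 2 + Real.log m := Real.log_mul (by norm_num) hm0.ne'
  have h5 : Real.log 2 ≤ Real.log m := Real.log_le_log (by norm_num) (by exact_mod_cast hm)
  have hl2 : 0 < Real.log 2 := Real.log_pos (by norm_num)
  have h6 : 4 * Real.log 2 + K + 1 ≤ (4 * Real.log 2 + K + 1) / Real.log 2 * Real.log m := by
    rw [div_mul_eq_mul_div, le_div_iff₀ hl2]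
    exact mul_le_mul_of_nonneg_left h5 (by positivity)
  rw [add_mul]
  linarith

theorem ow_large (A B : ℕ) : ∃ P : ℕ, ∀ m p : ℕ, 0 < m → P ≤ p →
    (∀ q : ℕ, q.Prime → q ≠ 2 → q < p → q ∣ m) → A * p ^ B < 2 ^ ow m := by
  obtain ⟨K, hK0, hK⟩ := ordB_theta
  set D : ℝ := Real.log (A + 1) + Real.log 2 + 2 * B with hD
  have hl2 : 0 < Real.log 2 := Real.log_pos (by norm_num)
  have hA0 : 0 ≤ Real.log (A + 1) := Real.log_nonneg (by
    have : (0 : ℝ) ≤ A := Nat.cast_nonneg A
    linarith)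
  have hD0 : 0 ≤ D := by positivity
  set D' : ℝ := 4 * D / Real.log 2 + 1 with hD'
  have hD'0 : 0 < D' := by positivity
  have hev : ∀ᶠ x : ℝ in Filter.atTop, Real.log x ^ 2 ≤ 1 / (2 * D') * x := by
    have h := (Real.isLittleO_pow_log_id_atTop (n := 2)).def
      (show (0 : ℝ) < 1 / (2 * D') by positivity)
    filter_upwards [h, Filter.eventually_ge_atTop (0 : ℝ)] with x hx hx0
    rw [Real.norm_of_nonneg (sq_nonneg _), id, Real.norm_of_nonneg hx0] at hx
    exact hx
  have hev2 : ∀ᶠ x : ℝ in Filter.atTop, K < 1 / 2 * x := by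
    filter_upwards [Filter.eventually_gt_atTop (2 * K)] with x hx
    linarith
  have hev3 := (hev.and hev2).and (Filter.eventually_ge_atTop (3 : ℝ))
  obtain ⟨N, hN⟩ := (tendsto_natCast_atTop_atTop.eventually hev3).exists_forall_of_atTop
  refine ⟨N + 4, fun m p hm hp h => ?_⟩
  obtain ⟨⟨h1, h2⟩, h3⟩ := hN (p - 1) (by omega)
  set n : ℕ := p - 1 with hn
  have hn3 : 3 ≤ n := by omega
  have hlog1 : 1 ≤ Real.log n := by
    rw [Real.le_log_iff_exp_le (by linarith)]
    have := Real.exp_one_lt_d9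
    linarith
  -- the number of the odd prime factors
  have hcard : Nat.primeCounting n ≤ ow m + 1 := by
    rw [← Nat.primesLE_card_eq_primeCounting]
    unfold ow
    have h4 : (Nat.primesLE n).erase 2 ⊆ m.primeFactors.erase 2 := by
      intro q hq
      rw [Finset.mem_erase, Nat.mem_primesLE] at hq
      rw [Finset.mem_erase, Nat.mem_primeFactors]
      exact ⟨hq.1, hq.2.2, h q hq.2.2 hq.1 (by omega), hm.ne'⟩
    have h5 := Finset.card_le_card h4
    have h6 := Finset.pred_card_le_card_erase (s := Nat.primesLE n) (a := 2)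
    omega
  have hpi : Chebyshev.theta n ≤ (Nat.primeCounting n) * Real.log n :=
    Chebyshev.theta_le_pi_mul_log n
  have hKn := hK n
  have hcard' : (Nat.primeCounting n : ℝ) ≤ ow m + 1 := by exact_mod_cast hcard
  -- main inequality
  have h4 : D' * Real.log n ^ 2 ≤ 1 / 2 * n := by
    have := mul_le_mul_of_nonneg_left h1 hD'0.le
    have e : D' * (1 / (2 * D') * (n : ℝ)) = 1 / 2 * n := by
      field_simp
    rwa [e] at this
  have h5 : D' * Real.log n ^ 2 < 4 * ((ow m + 1) * Real.log n) := by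
    have h6 : (Nat.primeCounting n : ℝ) * Real.log n ≤ (ow m + 1) * Real.log n :=
      mul_le_mul_of_nonneg_right hcard' (by linarith)
    linarith
  have h6 : D' * Real.log n < 4 * (ow m + 1) := by
    have hpos : 0 < Real.log n := by linarith
    have h7 : D' * Real.log n * Real.log n < 4 * (ow m + 1) * Real.log n := by
      calc D' * Real.log n * Real.log n = D' * Real.log n ^ 2 := by ring
        _ < 4 * ((ow m + 1) * Real.log n) := h5
        _ = 4 * (ow m + 1) * Real.log n := by ring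
    exact lt_of_mul_lt_mul_right h7 hpos.le
  have h7 : D * Real.log n < (ow m + 1) * Real.log 2 := by
    have h8 : D' * Real.log n * (Real.log 2 / 4) < 4 * (ow m + 1) * (Real.log 2 / 4) :=
      mul_lt_mul_of_pos_right h6 (by positivity)
    have h9 : D' * Real.log n * (Real.log 2 / 4) =
        D * Real.log n + Real.log 2 / 4 * Real.log n := by
      rw [hD']
      field_simp
    have h10 : 0 ≤ Real.log 2 / 4 * Real.log n := by positivity
    linarith
  have hB0 : (0 : ℝ) ≤ 2 * B := by positivity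
  have h8 : Real.log (A + 1) + Real.log 2 + 2 * B * Real.log n ≤ D * Real.log n := by
    have h9 : (Real.log (A + 1) + Real.log 2) * 1 ≤ (Real.log (A + 1) + Real.log 2) * Real.log n :=
      mul_le_mul_of_nonneg_left hlog1 (by linarith)
    rw [hD]
    linarith
  have hp0 : (0 : ℝ) < p := by
    have : 0 < p := by omega
    exact_mod_cast this
  have hlogp : Real.log p ≤ 2 * Real.log n := by
    have h9 : (p : ℝ) ≤ (n : ℝ) ^ 2 := by
      have h10 : p ≤ n ^ 2 := by
        have h11 : p = n + 1 := by omega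
        rw [h11]
        nlinarith
      exact_mod_cast h10
    have h10 := Real.log_le_log hp0 h9
    rw [Real.log_pow] at h10
    push_cast at h10
    exact h10
  have h9 : Real.log ((A + 1) * (p : ℝ) ^ B) < ow m * Real.log 2 := by
    have hA1 : (0 : ℝ) < (A : ℝ) + 1 := by positivity
    rw [Real.log_mul hA1.ne' (by positivity), Real.log_pow]
    have h10 : (B : ℝ) * Real.log p ≤ B * (2 * Real.log n) :=
      mul_le_mul_of_nonneg_left hlogp (Nat.cast_nonneg B)
    linarith
  have h10 : ((A : ℝ) + 1) * (p : ℝ) ^ B < 2 ^ ow m := by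
    rw [← Real.log_pow] at h9
    exact (Real.log_lt_log_iff (by positivity) (by positivity)).1 h9
  have h11 : (A + 1) * p ^ B < 2 ^ ow m := by exact_mod_cast h10
  calc A * p ^ B ≤ (A + 1) * p ^ B := Nat.mul_le_mul_right _ (Nat.le_succ A)
    _ < 2 ^ ow m := h11

end Pool.MP43e44c.GA
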