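import Pool.Agent.H.MP_43e44c_ag.GA.BMain
import Pool.Agent.H.MP_43e44c_ag.GA.Ord
import Pool.Agent.H.MP_43e44c_ag.GA.OrdB

/-!
Components with a center of large degree.
-/

set_option autoImplicit false

open Finset Module

namespace Pool.MP43e44c.GA

open Pool.MP43e44c.OD

universe u v

theorem bigF_subset {α : Type*} (f : α → ℕ) {M : ℕ} (hM0 : 0 < M) (J : Finset α)
    (h : ∀ j ∈ J, f j < M) (hM : M ≤ ∑ j ∈ J, f j) :
    ∃ S ⊆ J, M ≤ ∑ j ∈ S, f j ∧ ∑ j ∈ S, f j < 2 * M := by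
  classical
  induction J using Finset.induction_on with
  | empty =>
    rw [sum_empty] at hM
    omega
  | insert a J ha ih =>
    by_cases h1 : M ≤ ∑ j ∈ J, f j
    · obtain ⟨S, hS, h2, h3⟩ := ih (fun j hj => h j (mem_insert_of_mem hj)) h1
      exact ⟨S, hS.trans (subset_insert a J), h2, h3⟩
    · refine ⟨insert a J, Finset.Subset.refl _, hM, ?_⟩
      rw [sum_insert ha]
      have h2 := h a (mem_insert_self a J)
      omega

/-- The numerical estimate of case 1. -/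
theorem bigF_num {C₁ : ℝ} (hC₁ : 0 < C₁) : ∃ n₀ : ℕ, 26 ≤ n₀ ∧ ∀ n : ℕ, n₀ ≤ n →
    ∀ (k : ℕ) (p M : ℝ), 0 ≤ p → p ≤ C₁ * Real.log (2 * n) → M ≤ 9 * Real.log n →
      (k : ℝ) ^ 2 ≤ n * (2 * M) → p ^ 2 * k * Real.log (6 * k) ≤ n := by
  have hlo := (Real.isLittleO_pow_log_id_atTop (n := 8)).bound
    (show (0 : ℝ) < 1 / (40 * C₁ ^ 2) ^ 2 by positivity)
  have hlo2 := tendsto_natCast_atTop_atTop (R := ℝ) |>.eventually hlo
  obtain ⟨n₁, hn₁⟩ := Filter.eventually_atTop.1 hlo2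
  refine ⟨max n₁ 26, le_max_right _ _, ?_⟩
  intro n hn k p M hp0 hp hM hk
  have hn1 : n₁ ≤ n := (le_max_left _ _).trans hn
  have hn26 : 26 ≤ n := (le_max_right _ _).trans hn
  have hn26' : (26 : ℝ) ≤ n := by exact_mod_cast hn26
  have hnpos : (0 : ℝ) < n := by linarith
  set l : ℝ := Real.log n with hl
  have hl1 : 1 ≤ l := by
    rw [hl, Real.le_log_iff_exp_le hnpos]
    have := Real.exp_one_lt_d9
    linarith
  have hln : l ≤ n := by
    have := Real.log_le_sub_one_of_pos hnpos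
    linarith
  have hl2n : Real.log (2 * n) ≤ 2 * l := by
    rw [Real.log_mul (by norm_num) hnpos.ne']
    have h2 : Real.log 2 ≤ l := Real.log_le_log (by norm_num) (by linarith)
    linarith
  have hbd := hn₁ n hn1
  rw [Real.norm_of_nonneg (by positivity), id, Real.norm_of_nonneg hnpos.le] at hbd
  have hsq : (40 * C₁ ^ 2 * l ^ 4) ^ 2 ≤ n := by
    have h3 : (40 * C₁ ^ 2) ^ 2 * l ^ 8 ≤ n := by
      calc (40 * C₁ ^ 2) ^ 2 * l ^ 8 ≤ (40 * C₁ ^ 2) ^ 2 * (1 / (40 * C₁ ^ 2) ^ 2 * n) :=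
            mul_le_mul_of_nonneg_left hbd (by positivity)
        _ = n := by field_simp
    calc (40 * C₁ ^ 2 * l ^ 4) ^ 2 = (40 * C₁ ^ 2) ^ 2 * l ^ 8 := by ring
      _ ≤ (n : ℝ) := h3
  rcases Nat.eq_zero_or_pos k with hk0 | hk0
  · subst hk0
    simp only [Nat.cast_zero, mul_zero, zero_mul]
    exact hnpos.le
  have hkpos : (1 : ℝ) ≤ k := by exact_mod_cast hk0
  set w : ℝ := Real.sqrt n with hw
  have hw0 : 0 < w := Real.sqrt_pos.2 hnpos
  have hww : w ^ 2 = n := Real.sq_sqrt hnpos.le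
  have hk18 : (k : ℝ) ^ 2 ≤ 18 * n * l := by nlinarith
  have hkw : (k : ℝ) ≤ 5 * w * l := by
    have h4 : (k : ℝ) ^ 2 ≤ (5 * w * l) ^ 2 := by
      have h5 : (5 * w * l) ^ 2 = 25 * n * l ^ 2 := by rw [← hww]; ring
      rw [h5]
      have h6 : n * l ≤ n * l ^ 2 := mul_le_mul_of_nonneg_left (by nlinarith) hnpos.le
      nlinarith [mul_pos hnpos (zero_lt_one.trans_le hl1)]
    exact (pow_le_pow_iff_left₀ (by positivity) (by positivity) two_ne_zero).1 h4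
  have h6k : Real.log (6 * k) ≤ 2 * l := by
    have h7 : (6 * (k : ℝ)) ^ 2 ≤ ((n : ℝ) ^ 2) ^ 2 := by
      have h8 : (6 * (k : ℝ)) ^ 2 ≤ 648 * n * n := by nlinarith
      have h9 : (648 : ℝ) ≤ n ^ 2 := by nlinarith
      nlinarith [mul_pos hnpos hnpos]
    have h10 : 6 * (k : ℝ) ≤ (n : ℝ) ^ 2 :=
      (pow_le_pow_iff_left₀ (by positivity) (by positivity) two_ne_zero).1 h7
    have h11 := Real.log_le_log (by positivity) h10
    rw [Real.log_pow] at h11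
    push_cast at h11
    exact h11
  have hp2 : p ^ 2 ≤ 4 * C₁ ^ 2 * l ^ 2 := by
    have h12 : p ≤ 2 * C₁ * l := by
      calc p ≤ C₁ * Real.log (2 * n) := hp
        _ ≤ C₁ * (2 * l) := mul_le_mul_of_nonneg_left hl2n hC₁.le
        _ = 2 * C₁ * l := by ring
    calc p ^ 2 ≤ (2 * C₁ * l) ^ 2 := pow_le_pow_left₀ hp0 h12 2
      _ = _ := by ring
  have hlog0 : 0 ≤ Real.log (6 * k) := Real.log_nonneg (by linarith)
  have h13 : 40 * C₁ ^ 2 * l ^ 4 ≤ w := by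
    rw [← hww] at hsq
    exact (pow_le_pow_iff_left₀ (by positivity) hw0.le two_ne_zero).1 hsq
  calc p ^ 2 * k * Real.log (6 * k)
      ≤ (4 * C₁ ^ 2 * l ^ 2) * (5 * w * l) * (2 * l) := by
        refine mul_le_mul (mul_le_mul hp2 hkw (by positivity) (by positivity)) h6k hlog0
          (by positivity)
    _ = (40 * C₁ ^ 2 * l ^ 4) * w := by ring
    _ ≤ w * w := mul_le_mul_of_nonneg_right h13 hw0.le
    _ = n := by rw [← sq, hww]

theorem bigF_log {x : ℝ} (hx : 0 ≤ x) : Real.log (6 * x) ≤ 6 * Real.sqrt x := by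
  rcases hx.eq_or_lt with h | h
  · rw [← h]
    simp
  · have h1 : Real.log (6 * x) = 2 * Real.log (Real.sqrt (6 * x)) := by
      rw [Real.log_sqrt (by positivity)]
      ring
    have h2 : Real.log (Real.sqrt (6 * x)) ≤ Real.sqrt (6 * x) :=
      (Real.log_le_sub_one_of_pos (Real.sqrt_pos.2 (by positivity))).trans (by linarith)
    have h3 : Real.sqrt (6 * x) ≤ 3 * Real.sqrt x := by
      rw [Real.sqrt_mul (by norm_num)]
      have h4 : Real.sqrt 6 ≤ 3 := by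
        rw [Real.sqrt_le_left (by norm_num)]
        norm_num
      exact mul_le_mul_of_nonneg_right h4 (Real.sqrt_nonneg _)
    rw [h1]
    linarith

/-- The numerical estimates of case 2. -/
theorem bigF_num2 {n d f w p : ℕ} (hp1 : 1 ≤ p) (hd1 : 1 ≤ d) (hf1 : 1 ≤ f)
    (h1 : (n : ℝ) < (p : ℝ) ^ 2 * (d * f) * Real.log (6 * d)) (h2 : d ^ 2 * f ≤ n)
    (h3 : f * 2 ^ w ≤ 4 * n) :
    2 ^ w ≤ 5184 * p ^ 8 ∧ n ≤ 1296 * p ^ 8 * f := by
  have hp1' : (1 : ℝ) ≤ p := by exact_mod_cast hp1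
  have hd1' : (1 : ℝ) ≤ d := by exact_mod_cast hd1
  have hf1' : (1 : ℝ) ≤ f := by exact_mod_cast hf1
  have h2' : (d : ℝ) ^ 2 * f ≤ n := by exact_mod_cast h2
  have h3' : (f : ℝ) * 2 ^ w ≤ 4 * n := by exact_mod_cast h3
  set s : ℝ := Real.sqrt d with hs
  have hs0 : 0 < s := Real.sqrt_pos.2 (by linarith)
  have hss : s ^ 2 = d := Real.sq_sqrt (by linarith)
  have hlog : Real.log (6 * d) ≤ 6 * s := bigF_log (by linarith)
  have hdf : (0 : ℝ) < d * f := by positivity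
  have h4 : (d : ℝ) ^ 2 * f < (p : ℝ) ^ 2 * (d * f) * (6 * s) :=
    (h2'.trans_lt h1).trans_le (mul_le_mul_of_nonneg_left hlog (by positivity))
  have h5 : (d : ℝ) < (p : ℝ) ^ 2 * (6 * s) := by
    have h6 : (d : ℝ) * (d * f) < (p : ℝ) ^ 2 * (6 * s) * (d * f) := by nlinarith
    exact lt_of_mul_lt_mul_right h6 hdf.le
  have h6 : s < 6 * (p : ℝ) ^ 2 := by
    have h7 : s * s < 6 * (p : ℝ) ^ 2 * s := by
      calc s * s = d := by rw [← sq, hss]
        _ < (p : ℝ) ^ 2 * (6 * s) := h5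
        _ = 6 * (p : ℝ) ^ 2 * s := by ring
    exact lt_of_mul_lt_mul_right h7 hs0.le
  have h8 : (d : ℝ) * s ≤ 216 * (p : ℝ) ^ 6 := by
    calc (d : ℝ) * s = s ^ 3 := by rw [← hss]; ring
      _ ≤ (6 * (p : ℝ) ^ 2) ^ 3 := pow_le_pow_left₀ hs0.le h6.le 3
      _ = 216 * (p : ℝ) ^ 6 := by ring
  have h9 : (n : ℝ) ≤ 1296 * (p : ℝ) ^ 8 * f := by
    calc (n : ℝ) ≤ (p : ℝ) ^ 2 * (d * f) * Real.log (6 * d) := h1.le
      _ ≤ (p : ℝ) ^ 2 * (d * f) * (6 * s) := mul_le_mul_of_nonneg_left hlog (by positivity)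
      _ = 6 * (p : ℝ) ^ 2 * f * (d * s) := by ring
      _ ≤ 6 * (p : ℝ) ^ 2 * f * (216 * (p : ℝ) ^ 6) :=
        mul_le_mul_of_nonneg_left h8 (by positivity)
      _ = 1296 * (p : ℝ) ^ 8 * f := by ring
  constructor
  · have h10 : (f : ℝ) * 2 ^ w ≤ f * (5184 * (p : ℝ) ^ 8) := by
      calc (f : ℝ) * 2 ^ w ≤ 4 * n := h3'
        _ ≤ 4 * (1296 * (p : ℝ) ^ 8 * f) := by linarith
        _ = f * (5184 * (p : ℝ) ^ 8) := by ring
    have h11 : (2 : ℝ) ^ w ≤ 5184 * (p : ℝ) ^ 8 :=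
      le_of_mul_le_mul_left h10 (by linarith)
    exact_mod_cast h11
  · exact_mod_cast h9

theorem bigF_half {n M : ℕ} (hn : 2 ≤ n) (hM : 8 * Real.log n ≤ M) :
    (1 / 2 : ℝ) ^ M ≤ (n : ℝ) ^ (-2 : ℝ) := by
  have hnpos : (0 : ℝ) < n := by
    have : (2 : ℝ) ≤ n := by exact_mod_cast hn
    linarith
  have hl0 : 0 ≤ Real.log n := Real.log_nonneg (by exact_mod_cast (by omega : 1 ≤ n))
  rw [Real.rpow_def_of_pos hnpos, ← Real.exp_log (show (0 : ℝ) < (1 / 2) ^ M by positivity)]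
  refine Real.exp_le_exp.2 ?_
  rw [Real.log_pow, Real.log_div one_ne_zero two_ne_zero, Real.log_one]
  have h2 := Real.log_two_gt_d9
  nlinarith

namespace Half

variable {G : Type u} [Group G] {ι : Type v} (H : Half G ι) [Fintype G] [Fintype ι]

theorem bigF_cosS_nonneg (p : ℕ) [NeZero p] (L : ℝ) : 0 ≤ cosS p L := by
  unfold cosS
  exact sum_nonneg fun a _ => Real.rpow_nonneg (abs_nonneg _) _

/-- PROOF. `badI_row` with `S = {j}`, `k = d f` (`d = P.r j`, `f = P.f j`), `L = n / k ≥ p ^ 2 log (6 d) ≥ p ^ 2`.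
By `cosS_le`, `cosS p L ≤ 1 + 3 exp (- 4 log (6 d)) = 1 + 3 / (6 d) ^ 4`, so
`cosS p L ^ k ≤ exp (3 d f / (6 d) ^ 4) ≤ exp (f / 432) ≤ (4 / 3) ^ f`, and `p ^ f - 1 ≥ (2 / 3) p ^ f`, `p ≥ 3`:
the proportion is at most `(3 / 2) (4 / 9) ^ f`. -/
theorem badI_le_T {p : ℕ} [Fact p.Prime] (hp2 : p ≠ 2) (hp : ¬ p ∣ Fintype.card G) (W : WD ℚ G)
    (P : WD (ZMod p) G) {i : Fin W.m} (hi : H.Odd W i) {j : Fin P.m} (hj : j ∈ J W P i)
    (h : (p : ℝ) ^ 2 * (P.r j * P.f j) * Real.log (6 * P.r j) ≤ Fintype.card ι) :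
    (((H.badI W i).ncard : ℕ) : ℝ) ≤ 2 * (1 / 2) ^ P.f j * 2 ^ Fintype.card ι := by
  have hpP : p.Prime := Fact.out
  have hp3 : 3 ≤ p := by
    have := hpP.two_le
    omega
  have hp3' : (3 : ℝ) ≤ p := by exact_mod_cast hp3
  have hrow := H.badI_row hp2 hp W P hi (S := {j}) (Finset.singleton_subset_iff.2 hj)
    (k := P.r j * P.f j) (by rw [Finset.sum_singleton])
  rw [Finset.prod_singleton] at hrow
  have hd1 : 1 ≤ P.r j := Nat.pos_of_ne_zero (NeZero.ne (P.r j))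
  have hf1 : 1 ≤ P.f j := P.f_pos j
  generalize P.r j = d at *
  generalize P.f j = f at *
  generalize Fintype.card ι = n at *
  generalize (H.badI W i).ncard = b at *
  have hd1' : (1 : ℝ) ≤ d := by exact_mod_cast hd1
  have hf1' : (1 : ℝ) ≤ f := by exact_mod_cast hf1
  set L : ℝ := (n : ℝ) / ((d * f : ℕ) : ℝ) with hL
  have hk0 : (0 : ℝ) < ((d * f : ℕ) : ℝ) := by
    push_cast
    positivity
  have hlog : 1 ≤ Real.log (6 * d) := by
    rw [Real.le_log_iff_exp_le (by positivity)]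
    have := Real.exp_one_lt_d9
    nlinarith
  have hLge : (p : ℝ) ^ 2 * Real.log (6 * d) ≤ L := by
    rw [hL, le_div_iff₀ hk0]
    push_cast
    calc (p : ℝ) ^ 2 * Real.log (6 * d) * ((d : ℝ) * f) =
          (p : ℝ) ^ 2 * (d * f) * Real.log (6 * d) := by ring
      _ ≤ (n : ℝ) := h
  have hLp : (p : ℝ) ^ 2 ≤ L := le_trans (by nlinarith [sq_nonneg (p : ℝ)]) hLge
  have hcos := cosS_le hp2 hLp
  have hexp : Real.exp (-(4 * L) / p ^ 2) ≤ 1 / (6 * d) ^ 4 := by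
    have h1 : -(4 * L) / (p : ℝ) ^ 2 ≤ -(4 * Real.log (6 * d)) := by
      rw [div_le_iff₀ (by positivity)]
      nlinarith
    calc Real.exp (-(4 * L) / p ^ 2) ≤ Real.exp (-(4 * Real.log (6 * d))) := Real.exp_le_exp.2 h1
      _ = 1 / (6 * d) ^ 4 := by
        rw [Real.exp_neg, show 4 * Real.log (6 * d) = Real.log ((6 * d) ^ 4) by
          rw [Real.log_pow]; norm_num, Real.exp_log (by positivity), one_div]
  have hcos2 : cosS p L ≤ Real.exp (3 / (6 * d) ^ 4) := by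
    refine hcos.trans ?_
    have h2 := Real.add_one_le_exp (3 / (6 * (d : ℝ)) ^ 4)
    have h3 : 3 * Real.exp (-(4 * L) / p ^ 2) ≤ 3 / (6 * (d : ℝ)) ^ 4 := by
      rw [div_eq_mul_one_div (3 : ℝ)]
      exact mul_le_mul_of_nonneg_left hexp (by norm_num)
    linarith
  have hcosk : cosS p L ^ (d * f) ≤ (3 / 2) ^ f := by
    calc cosS p L ^ (d * f) ≤ (Real.exp (3 / (6 * d) ^ 4)) ^ (d * f) :=
          pow_le_pow_left₀ (bigF_cosS_nonneg p L) hcos2 _
      _ = ((Real.exp (3 / (6 * d) ^ 4)) ^ d) ^ f := by rw [pow_mul]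
      _ ≤ (3 / 2) ^ f := by
        refine pow_le_pow_left₀ (by positivity) ?_ f
        rw [← Real.exp_nat_mul]
        have h4 : (d : ℝ) * (3 / (6 * d) ^ 4) ≤ 1 / 3 := by
          have hd3 : (1 : ℝ) ≤ d ^ 3 := one_le_pow₀ hd1'
          have h5 : (d : ℝ) * (3 / (6 * d) ^ 4) = 1 / (432 * d ^ 3) := by
            field_simp
            norm_num
          rw [h5]
          refine one_div_le_one_div_of_le (by norm_num) ?_
          linarith
        refine (Real.exp_le_exp.2 h4).trans ?_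
        have h6 := Real.add_one_le_exp (-(1 / 3 : ℝ))
        have h7 : Real.exp (1 / 3) * Real.exp (-(1 / 3)) = 1 := by
          rw [← Real.exp_add]
          simp
        have h8 := Real.exp_pos (1 / 3 : ℝ)
        nlinarith
  have hpf : (2 / 3 : ℝ) * 3 ^ f ≤ (p : ℝ) ^ f - 1 := by
    have h9 : (3 : ℝ) ^ f ≤ (p : ℝ) ^ f := pow_le_pow_left₀ (by norm_num) hp3' f
    have h10 : (3 : ℝ) ≤ 3 ^ f := by
      calc (3 : ℝ) = 3 ^ 1 := (pow_one 3).symm
        _ ≤ 3 ^ f := pow_le_pow_right₀ (by norm_num) hf1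
    linarith
  have hb0 : (0 : ℝ) ≤ b := Nat.cast_nonneg b
  have hmain : (b : ℝ) * ((2 / 3 : ℝ) * 3 ^ f) ≤ 2 ^ n * (3 / 2) ^ f := by
    calc (b : ℝ) * ((2 / 3 : ℝ) * 3 ^ f) ≤ b * ((p : ℝ) ^ f - 1) :=
          mul_le_mul_of_nonneg_left hpf hb0
      _ ≤ 2 ^ n * cosS p L ^ (d * f) := hrow
      _ ≤ 2 ^ n * (3 / 2) ^ f := mul_le_mul_of_nonneg_left hcosk (by positivity)
  have h3f : (3 / 2 : ℝ) ^ f = (1 / 2) ^ f * 3 ^ f := by
    rw [← mul_pow]
    norm_num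
  rw [h3f] at hmain
  have h3pos : (0 : ℝ) < 3 ^ f := by positivity
  have h11 : (b : ℝ) * (2 / 3) ≤ 2 ^ n * (1 / 2) ^ f := by
    have h12 : (b : ℝ) * (2 / 3) * 3 ^ f ≤ 2 ^ n * (1 / 2) ^ f * 3 ^ f := by
      calc (b : ℝ) * (2 / 3) * 3 ^ f = (b : ℝ) * ((2 / 3 : ℝ) * 3 ^ f) := by ring
        _ ≤ _ := hmain
        _ = _ := by ring
    exact le_of_mul_le_mul_right h12 h3pos
  have h13 : (0 : ℝ) ≤ 2 ^ n * (1 / 2) ^ f := by positivity
  nlinarith

/-- PROOF. Let `n = card ι`, `card G = 2 n`, `p` the prime of `exists_small_prime` for `m = 2 n`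
(`p ≤ C log (2 n)`), `P` a decomposition over `ZMod p`, `M = ⌈8 log n⌉`, `f_i ≥ 8 log n` (adjust the
constants).

Case 1: all `f_j < M` for `j ∈ J`.  As `∑_{J} f_j = f_i ≥ M` (`sum_below_f`; take `C ≥ 9`), there is
`S ⊆ J` with `M ≤ F = ∑_{S} f_j < 2 M`.  `k = ∑_{S} d_j f_j` satisfies `k ^ 2 ≤ (∑ d_j ^ 2 f_j)(∑ f_j) ≤ n * 2 M`
(`sum_below_a_le`, `sum_odd_a`), so `p ^ 2 k log (6 k) ≤ n` for large `n`, and `badI_le_S` gives
`2 (1 / 2) ^ M ≤ 2 n ^ (-5)`.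

Case 2: some `f_j ≥ M`.  If `p ^ 2 d f log (6 d) ≤ n` (`d = P.r j`, `f = P.f j`), `badI_le_T` gives
`2 (1 / 2) ^ M`.  Otherwise `n < p ^ 2 d f log (6 d)`, and `d ^ 2 f ≤ n` (`a_eq`, `sum_below_a_le`), so
`d < p ^ 2 log (6 d) ≤ 6 p ^ 2 √d` and `d < 36 p ^ 4`.  By `exists_exp` and `f_le_of_pow` (`e ≥ f`),
`f * 2 ^ ow (2 n) ≤ 4 n < 4 p ^ 2 d f log (6 d)`, so `2 ^ ow (2 n) < 4 p ^ 2 d log (6 d) ≤ A p ^ B` and by
`ow_large` `p` is bounded by an absolute constant, so `d` is, and `n ≤ C f ≤ C f_i`. -/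
theorem badI_large : ∃ C : ℝ, 0 < C ∧ ∀ {G : Type u} [Group G] {ι : Type v} (H : Half G ι)
    [Fintype G] [Fintype ι] (W : WD ℚ G) (i : Fin W.m), H.Odd W i →
    C * Real.log (Fintype.card ι) ≤ W.f i →
    (((H.badI W i).ncard : ℕ) : ℝ) ≤ C * (Fintype.card ι : ℝ) ^ (-2 : ℝ) * 2 ^ Fintype.card ι ∨
      (Fintype.card ι : ℝ) ≤ C * W.f i := by
  classical
  obtain ⟨C₁, hC₁, hsp⟩ := exists_small_prime
  obtain ⟨n₀, hn₀, hnum⟩ := bigF_num hC₁
  obtain ⟨P₀, hP₀⟩ := ow_large 5184 8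
  set C : ℝ := max (max (n₀ : ℝ) 9) (1296 * (P₀ : ℝ) ^ 8) with hC
  have hC1 : (n₀ : ℝ) ≤ C := (le_max_left _ _).trans (le_max_left _ _)
  have hC9 : (9 : ℝ) ≤ C := (le_max_right _ _).trans (le_max_left _ _)
  have hCP : 1296 * (P₀ : ℝ) ^ 8 ≤ C := le_max_right _ _
  refine ⟨C, by linarith, ?_⟩
  intro G _ ι H _ _ W i hi hfi
  set n : ℕ := Fintype.card ι with hn
  have hfi1 : (1 : ℝ) ≤ W.f i := by exact_mod_cast W.f_pos i
  by_cases hnn : n < n₀
  · right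
    have h1 : (n : ℝ) ≤ n₀ := by exact_mod_cast hnn.le
    nlinarith
  rw [not_lt] at hnn
  have hn26 : 26 ≤ n := hn₀.trans hnn
  have hn26' : (26 : ℝ) ≤ n := by exact_mod_cast hn26
  have hnpos : (0 : ℝ) < n := by linarith
  have hl1 : 1 ≤ Real.log n := by
    rw [Real.le_log_iff_exp_le hnpos]
    have := Real.exp_one_lt_d9
    linarith
  have hcard : Fintype.card G = 2 * n := H.card_eq
  obtain ⟨p, hpP, hp2, hpd, hpC, hpq⟩ := hsp (2 * n) (by omega)
  have : Fact p.Prime := ⟨hpP⟩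
  have hp : ¬ p ∣ Fintype.card G := by rw [hcard]; exact hpd
  have hpC' : (p : ℝ) ≤ C₁ * Real.log (2 * n) := by
    have h1 := hpC
    push_cast at h1
    exact h1
  obtain ⟨P⟩ := exists_wd (ZMod p) G (by
    rw [Ne, ZMod.natCast_eq_zero_iff]
    exact hp)
  have hp3 : 3 ≤ p := by
    have := hpP.two_le
    omega
  have hp3' : (3 : ℝ) ≤ p := by exact_mod_cast hp3
  set M : ℕ := ⌈8 * Real.log n⌉₊ with hM
  have hM8 : 8 * Real.log n ≤ M := Nat.le_ceil _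
  have hM9 : (M : ℝ) ≤ 9 * Real.log n := by
    have h1 := Nat.ceil_lt_add_one (show 0 ≤ 8 * Real.log n by linarith)
    linarith
  have hMpos : 0 < M := by
    have h1 : (0 : ℝ) < M := by linarith
    exact_mod_cast h1
  have hMf : M ≤ W.f i := by
    have h1 : (M : ℝ) ≤ W.f i := by
      refine hM9.trans (le_trans ?_ hfi)
      exact mul_le_mul_of_nonneg_right hC9 (by linarith)
    exact_mod_cast h1
  have hhalf := bigF_half (show 2 ≤ n by omega) hM8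
  have hai : W.a i ≤ n := by
    rw [hn, ← H.sum_odd_a (by norm_num : (2 : ℚ) ≠ 0) W]
    exact single_le_sum (f := fun i => W.a i) (fun _ _ => Nat.zero_le _)
      (mem_filter.2 ⟨mem_univ i, hi⟩)
  have hsa := sum_below_a_le hp W P i
  have hsf := sum_below_f hp W P i
  have hfin : ∀ b : ℕ, (b : ℝ) ≤ 2 * (1 / 2) ^ M * 2 ^ n →
      (b : ℝ) ≤ C * (n : ℝ) ^ (-2 : ℝ) * 2 ^ n := by
    intro b hb
    refine hb.trans (mul_le_mul_of_nonneg_right ?_ (by positivity))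
    exact mul_le_mul (by linarith) hhalf (by positivity) (by linarith)
  by_cases hcase : ∀ j ∈ J W P i, P.f j < M
  · left
    obtain ⟨S, hS, hSM, hS2⟩ := bigF_subset (fun j => P.f j) hMpos (J W P i) hcase
      (by rw [hsf]; exact hMf)
    have hk2 : (∑ j ∈ S, P.r j * P.f j) ^ 2 ≤ n * (2 * M) := by
      have h1 : (∑ j ∈ S, P.r j * P.f j) ^ 2 ≤ (∑ j ∈ S, P.a j) * ∑ j ∈ S, P.f j := by
        refine sum_sq_le_sum_mul_sum_of_sq_le_mul _ (fun j _ => Nat.zero_le _)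
          (fun j _ => Nat.zero_le _) fun j _ => le_of_eq ?_
        rw [a_eq]
        ring
      refine h1.trans (Nat.mul_le_mul ?_ hS2.le)
      exact ((sum_le_sum_of_subset hS).trans hsa).trans hai
    have hk2' : ((∑ j ∈ S, P.r j * P.f j : ℕ) : ℝ) ^ 2 ≤ n * (2 * (M : ℝ)) := by
      exact_mod_cast hk2
    have hn1 := hnum n hnn (∑ j ∈ S, P.r j * P.f j) p M (by linarith) hpC' hM9 hk2'
    have h2 := H.badI_le_S hp2 hp W P hi hS rfl rfl hn1
    refine hfin _ (h2.trans ?_)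
    refine mul_le_mul_of_nonneg_right ?_ (by positivity)
    refine mul_le_mul_of_nonneg_left ?_ (by norm_num)
    have h3 : (3 / (2 * p) : ℝ) ≤ 1 / 2 := by
      rw [div_le_div_iff₀ (by positivity) (by norm_num)]
      linarith
    calc (3 / (2 * p) : ℝ) ^ (∑ j ∈ S, P.f j) ≤ (1 / 2) ^ (∑ j ∈ S, P.f j) :=
          pow_le_pow_left₀ (by positivity) h3 _
      _ ≤ (1 / 2) ^ M := pow_le_pow_of_le_one (by norm_num) (by norm_num) hSM
  · push Not at hcase
    obtain ⟨j, hj, hjM⟩ := hcase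
    by_cases hT : (p : ℝ) ^ 2 * (P.r j * P.f j) * Real.log (6 * P.r j) ≤ Fintype.card ι
    · left
      have h2 := H.badI_le_T hp2 hp W P hi hj hT
      refine hfin _ (h2.trans ?_)
      refine mul_le_mul_of_nonneg_right ?_ (by positivity)
      refine mul_le_mul_of_nonneg_left ?_ (by norm_num)
      exact pow_le_pow_of_le_one (by norm_num) (by norm_num) hjM
    · right
      rw [not_le, ← hn] at hT
      obtain ⟨e, he0, hemod, hele⟩ := exists_exp (m := 2 * n) (x := p) (by omega)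
        ((Nat.Prime.coprime_iff_not_dvd hpP).2 hpd)
      have hfe : P.f j ≤ e := f_le_of_pow P j he0 (by rw [hcard]; exact hemod)
      have haj : P.r j ^ 2 * P.f j ≤ n := by
        rw [← a_eq]
        exact ((single_le_sum (f := fun j => P.a j) (fun _ _ => Nat.zero_le _) hj).trans
          hsa).trans hai
      have hfw : P.f j * 2 ^ ow (2 * n) ≤ 4 * n := by
        calc P.f j * 2 ^ ow (2 * n) ≤ e * 2 ^ ow (2 * n) := Nat.mul_le_mul_right _ hfe
          _ ≤ 2 * (2 * n) := hele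
          _ = 4 * n := by ring
      have hd1 : 1 ≤ P.r j := Nat.pos_of_ne_zero (NeZero.ne (P.r j))
      obtain ⟨h3, h4⟩ := bigF_num2 (by omega) hd1 (P.f_pos j) hT haj hfw
      have hpP0 : p < P₀ := by
        by_contra hcon
        rw [not_lt] at hcon
        have h5 := hP₀ (2 * n) p (by omega) hcon hpq
        omega
      have hffi : P.f j ≤ W.f i := by
        rw [← hsf]
        exact single_le_sum (f := fun j => P.f j) (fun _ _ => Nat.zero_le _) hj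
      have h6 : n ≤ 1296 * P₀ ^ 8 * W.f i := by
        refine h4.trans (Nat.mul_le_mul (Nat.mul_le_mul_left _ ?_) hffi)
        exact Nat.pow_le_pow_left hpP0.le 8
      have h7 : (n : ℝ) ≤ 1296 * (P₀ : ℝ) ^ 8 * W.f i := by exact_mod_cast h6
      refine h7.trans (mul_le_mul_of_nonneg_right hCP (by positivity))

end Half

end Pool.MP43e44c.GA
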