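import Pool.Agent.H.MP_43e44c_ag.OD.Def
import Pool.Agent.H.MP_43e44c_ag.MQ.Step

/-!
Finite groups with a central involution: sign vectors on representatives, odd components.
-/

set_option autoImplicit false

open Finset Module

namespace Pool.MP43e44c.GA

open Pool.MP43e44c.OD

universe u v

/-- A group with a central involution `c`, the projection `π` to the pairs `{g, g c}` (indexed by `ι`)
and representatives `t` of the pairs. -/
structure Half (G : Type u) [Group G] (ι : Type v) where
  /-- the involution -/
  c : G
  ne : c ≠ 1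
  sq : c * c = 1
  cen : ∀ g, g * c = c * g
  /-- representatives -/
  t : ι → G
  /-- projection -/
  π : G → ι
  π_t : ∀ i, π (t i) = i
  π_c : ∀ g, π (g * c) = π g
  t_π : ∀ g, t (π g) = g ∨ t (π g) = g * c

namespace Half

variable {G : Type u} [Group G] {ι : Type v} (H : Half G ι)

theorem t_inj : Function.Injective H.t := fun i j h => by
  rw [← H.π_t i, h, H.π_t]

theorem mul_c_ne (g : G) : g * H.c ≠ g := fun h => H.ne (by simpa using h)

theorem c_inv : H.c⁻¹ = H.c := inv_eq_of_mul_eq_one_left H.sq

theorem mul_c_c (g : G) : g * H.c * H.c = g := by rw [mul_assoc, H.sq, mul_one]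

/-- Every element is `t i` or `t i * c` in exactly one way. -/
theorem bij : Function.Bijective fun x : ι × Bool => H.t x.1 * (if x.2 then H.c else 1) := by
  have hπ : ∀ x : ι × Bool, H.π (H.t x.1 * (if x.2 then H.c else 1)) = x.1 := by
    rintro ⟨i, b⟩
    cases b
    · simp only [Bool.false_eq_true, if_false, mul_one]
      exact H.π_t i
    · simp only [if_true]
      rw [H.π_c, H.π_t]
  constructor
  · intro x y h
    have h1 := congrArg H.π h
    simp only [hπ] at h1
    obtain ⟨i, b⟩ := x
    obtain ⟨j, b'⟩ := y
    simp only at h1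
    subst h1
    simp only at h
    have h2 := mul_left_cancel h
    cases b <;> cases b' <;> simp only [Bool.false_eq_true, if_false, if_true] at h2
    · rfl
    · exact absurd h2.symm H.ne
    · exact absurd h2 H.ne
    · rfl
  · intro g
    rcases H.t_π g with h | h
    · exact ⟨(H.π g, false), by simp [h]⟩
    · exact ⟨(H.π g, true), by simp only [if_true]; rw [h, H.mul_c_c]⟩

include H in
theorem card_eq [Fintype G] [Fintype ι] : Fintype.card G = 2 * Fintype.card ι := by
  rw [← Fintype.card_congr (Equiv.ofBijective _ H.bij), Fintype.card_prod, Fintype.card_bool,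
    mul_comm]

/-- Sums over the group. -/
theorem sum_eq [Fintype G] [Fintype ι] {M : Type*} [AddCommMonoid M] (F : G → M) :
    ∑ g, F g = ∑ i, (F (H.t i) + F (H.t i * H.c)) := by
  rw [← (Equiv.ofBijective _ H.bij).sum_comp]
  simp only [Equiv.ofBijective_apply]
  rw [Fintype.sum_prod_type]
  refine sum_congr rfl fun i _ => ?_
  rw [Fintype.sum_bool, add_comm]
  simp

variable [Fintype ι]

/-- The element of the group ring attached to a vector of signs. -/
noncomputable def el (R : Type*) [CommRing R] (v : ι → Bool) : MonoidAlgebra R G :=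
  ∑ i, MonoidAlgebra.single (H.t i) (if v i then (1 : R) else -1)

theorem map_el [Fintype G] {R S : Type*} [CommRing R] [CommRing S] (f : R →+* S) (v : ι → Bool) :
    MonoidAlgebra.mapRingHom G f (H.el R v) = H.el S v := by
  unfold el
  rw [map_sum]
  refine sum_congr rfl fun i _ => ?_
  apply ma_ext
  intro g
  rw [MonoidAlgebra.coeff_mapRingHom, MonoidAlgebra.coeff_single, MonoidAlgebra.coeff_single]
  by_cases h : v i <;> by_cases hg : H.t i = g <;> simp [h, hg]

theorem toQ_el [Fintype G] (v : ι → Bool) : toQ (H.el ℤ v) = H.el ℚ v := H.map_el _ v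

theorem toP_el [Fintype G] (p : ℕ) (v : ι → Bool) : toP p (H.el ℤ v) = H.el (ZMod p) v := H.map_el _ v

/-- The involution as an element of the group ring. -/
noncomputable def cc (R : Type*) [CommRing R] : MonoidAlgebra R G := MonoidAlgebra.single H.c 1

/-- The sign vectors which are annihilated by an odd element. -/
def bad : Set (ι → Bool) :=
  {v | ∃ x : MonoidAlgebra ℚ G, x * H.cc ℚ = -x ∧ x ≠ 0 ∧ x * H.el ℚ v = 0}

variable [Fintype G]

/-- The components on which the involution acts as `- 1`. -/
def Odd {k : Type} [Field k] (W : WD k G) (i : Fin W.m) : Prop := W.comp i (H.cc k) = -1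

/-- The sign vectors which are bad for a component. -/
def badI (W : WD ℚ G) (i : Fin W.m) : Set (ι → Bool) :=
  {v | ∃ X : Matrix (Fin (W.r i)) (Fin (W.r i)) (W.D i), X ≠ 0 ∧ X * W.comp i (H.el ℚ v) = 0}

end Half

end Pool.MP43e44c.GA
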