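import Pool.Agent.H.MP_43e44c_ag.GA.Act
import Pool.Agent.H.MP_43e44c_ag.OD.WdC

/-!
The real invariant subspace attached to a rational component.
-/

set_option autoImplicit false

open Finset Module

namespace Pool.MP43e44c.GA

open Pool.MP43e44c.OD

universe u v

/-- The inclusion of the rational group algebra. -/
noncomputable def toR {G : Type u} [Group G] : MonoidAlgebra ℚ G →+* MonoidAlgebra ℝ G :=
  MonoidAlgebra.mapRingHom G (algebraMap ℚ ℝ)

theorem RealB_coeff {G : Type u} [Group G] (x : MonoidAlgebra ℚ G) (g : G) :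
    (toR x).coeff g = (x.coeff g : ℝ) := by
  unfold toR
  rw [MonoidAlgebra.coeff_mapRingHom]
  rfl

theorem RealB_inj {G : Type u} [Group G] [Fintype G] {x y : MonoidAlgebra ℚ G} (h : toR x = toR y) :
    x = y := by
  apply ma_ext
  intro g
  have h1 := congrArg (fun z => z.coeff g) h
  simp only [RealB_coeff] at h1
  exact_mod_cast h1

theorem RealB_smul {G : Type u} [Group G] [Fintype G] (c : ℚ) (x : MonoidAlgebra ℚ G) :
    toR (c • x) = (c : ℝ) • toR x := by
  apply ma_ext
  intro g
  have h1 : ((c : ℝ) • toR x).coeff g = (c : ℝ) * (toR x).coeff g := rfl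
  have h2 : (c • x).coeff g = c * x.coeff g := rfl
  rw [h1, RealB_coeff, RealB_coeff, h2]
  push_cast
  rfl

/-- Rational vectors which are linearly independent over `ℚ` are linearly independent over `ℝ`
(e.g. `LinearIndependent.localization`-free: extend to a basis of the rational space, or use a minor). -/
theorem toR_li {G : Type u} [Group G] [Fintype G] {m : ℕ} {y : Fin m → MonoidAlgebra ℚ G}
    (hy : LinearIndependent ℚ y) : LinearIndependent ℝ fun l => toR (y l) := by
  rw [Fintype.linearIndependent_iff]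
  intro r hr l₀
  rw [Fintype.linearIndependent_iff] at hy
  rw [← Module.forall_dual_apply_eq_zero_iff ℚ (r l₀)]
  intro φ
  refine hy (fun l => φ (r l)) ?_ l₀
  apply ma_ext
  intro g
  have h0 : (0 : MonoidAlgebra ℚ G).coeff g = 0 := rfl
  rw [coeff_sum', h0]
  have h1 : (∑ l, r l • toR (y l)).coeff g = (0 : MonoidAlgebra ℝ G).coeff g := by rw [hr]
  rw [coeff_sum'] at h1
  have h2 : (0 : MonoidAlgebra ℝ G).coeff g = 0 := rfl
  rw [h2] at h1
  have h3 := congrArg φ h1
  rw [map_sum, map_zero] at h3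
  rw [← h3]
  refine sum_congr rfl fun l _ => ?_
  have h4 : (r l • toR (y l)).coeff g = r l * (toR (y l)).coeff g := rfl
  have h5 : (φ (r l) • y l).coeff g = φ (r l) * (y l).coeff g := rfl
  rw [h4, h5, RealB_coeff]
  have h6 : r l * (((y l).coeff g : ℚ) : ℝ) = ((y l).coeff g : ℚ) • r l := by
    rw [mul_comm, Rat.smul_def]
  rw [h6, map_smul, smul_eq_mul, mul_comm]

/-- invertible matrices with a given row -/
theorem RealB_row {n : ℕ} [NeZero n] {D : Type u} [DivisionRing D] (k : Fin n → D)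
    (hk : k ≠ 0) : ∃ Y Y' : Matrix (Fin n) (Fin n) D, Y * Y' = 1 ∧ ∀ l, Y 0 l = k l := by
  classical
  obtain ⟨b, hb⟩ : ∃ b, k b ≠ 0 := Function.ne_iff.1 hk
  set s : Equiv.Perm (Fin n) := Equiv.swap 0 b with hs
  set k' : Fin n → D := fun l => k (s l) with hk'
  have hk0 : k' 0 ≠ 0 := by
    rw [hk']
    simp only
    rw [hs, Equiv.swap_apply_left]
    exact hb
  let M : Matrix (Fin n) (Fin n) D := fun a l => if a = 0 then k' l else if a = l then 1 else 0
  let M' : Matrix (Fin n) (Fin n) D := fun a l =>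
    if a = 0 then (if l = 0 then (k' 0)⁻¹ else -((k' 0)⁻¹ * k' l)) else if a = l then 1 else 0
  have hMM : M * M' = 1 := by
    ext a l
    rw [Matrix.mul_apply]
    by_cases ha : a = 0
    · subst ha
      have h1 : ∀ j, M 0 j * M' j l = if j = 0 then k' 0 * M' 0 l else
          if j = l then k' l else 0 := by
        intro j
        by_cases hj : j = 0
        · subst hj
          simp [M]
        · by_cases hjl : j = l
          · subst hjl
            simp [M, M', hj]
          · simp [M, M', hj, hjl]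
      rw [sum_congr rfl fun j _ => h1 j]
      by_cases hl : l = 0
      · subst hl
        rw [Matrix.one_apply_eq]
        have h2 : ∀ j : Fin n, (if j = 0 then k' 0 * M' 0 0 else if j = 0 then k' 0 else 0) =
            if j = 0 then k' 0 * M' 0 0 else 0 := by
          intro j
          by_cases hj : j = 0
          · simp [hj]
          · simp [hj]
        rw [sum_congr rfl fun j _ => h2 j, Finset.sum_ite_eq' univ (0 : Fin n), if_pos (mem_univ _)]
        simp [M', hk0]
      · rw [Matrix.one_apply_ne (Ne.symm hl)]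
        have h2 : ∀ j : Fin n, (if j = 0 then k' 0 * M' 0 l else if j = l then k' l else 0) =
            (if j = 0 then k' 0 * M' 0 l else 0) + if j = l then k' l else 0 := by
          intro j
          by_cases hj : j = 0
          · subst hj
            simp [Ne.symm hl]
          · simp [hj]
        rw [sum_congr rfl fun j _ => h2 j, sum_add_distrib, Finset.sum_ite_eq' univ (0 : Fin n),
          if_pos (mem_univ _), Finset.sum_ite_eq' univ l, if_pos (mem_univ _)]
        have h3 : M' 0 l = -((k' 0)⁻¹ * k' l) := by simp [M', hl]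
        rw [h3, mul_neg, ← mul_assoc, mul_inv_cancel₀ hk0, one_mul, neg_add_cancel]
    · have h1 : ∀ j, M a j * M' j l = if j = a then M' a l else 0 := by
        intro j
        by_cases hj : j = a
        · subst hj
          simp [M, ha]
        · simp [M, ha, hj, Ne.symm hj]
      rw [sum_congr rfl fun j _ => h1 j, Finset.sum_ite_eq' univ a, if_pos (mem_univ _)]
      by_cases hal : a = l
      · subst hal
        rw [Matrix.one_apply_eq]
        simp [M', ha]
      · rw [Matrix.one_apply_ne hal]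
        simp [M', ha, hal]
  refine ⟨M.submatrix id s, M'.submatrix s id, ?_, ?_⟩
  · rw [Matrix.submatrix_mul_equiv, hMM]
    exact Matrix.submatrix_one_equiv (Equiv.refl _)
  · intro l
    rw [Matrix.submatrix_apply]
    show (if (0 : Fin n) = 0 then k' (s l) else _) = k l
    rw [if_pos rfl, hk']
    simp only
    rw [hs, Equiv.swap_apply_self]

namespace Half

variable {G : Type u} [Group G] {ι : Type v} (H : Half G ι) [Fintype G] [Fintype ι]

/-- The subspace attached to a left ideal `ℝ[G] x₀`. -/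
def V0 (x₀ : MonoidAlgebra ℚ G) : Submodule ℝ (EuclideanSpace ℝ ι) where
  carrier := {x | ∃ y : MonoidAlgebra ℝ G, H.ph x = y * toR x₀}
  zero_mem' := ⟨0, by rw [map_zero, zero_mul]⟩
  add_mem' := by
    rintro a b ⟨y, hy⟩ ⟨z, hz⟩
    exact ⟨y + z, by rw [map_add, hy, hz, add_mul]⟩
  smul_mem' := by
    rintro r a ⟨y, hy⟩
    exact ⟨r • y, by rw [map_smul, hy, smul_mul_assoc]⟩

theorem V0_inv (x₀ : MonoidAlgebra ℚ G) : (letI := H.act; H.coc.Inv (H.V0 x₀)) := by
  letI := H.act
  rintro g x ⟨y, hy⟩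
  refine ⟨MonoidAlgebra.single g 1 * y, ?_⟩
  rw [H.ph_act, hy, mul_assoc]

/-- right multiplications -/
theorem RealB_mul (z : MonoidAlgebra ℝ G) :
    ∃ T : EuclideanSpace ℝ ι →ₗ[ℝ] EuclideanSpace ℝ ι, ∀ x, H.ph (T x) = H.ph x * z := by
  have h1 : ∀ x : EuclideanSpace ℝ ι, ∃ x', H.ph x' = H.ph x * z := by
    intro x
    rw [H.ph_range, mul_assoc, ← H.cc_central ℝ z, ← mul_assoc, (H.ph_range _).1 ⟨x, rfl⟩, neg_mul]
  choose T hT using h1
  exact ⟨{ toFun := T
           map_add' := fun x y => H.ph_inj (by rw [map_add, hT, hT, hT, map_add, add_mul])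
           map_smul' := fun r x => H.ph_inj (by
             rw [RingHom.id_apply, map_smul, hT, hT, map_smul, smul_mul_assoc]) }, hT⟩

/-- The center of the real group algebra acts on the space of the vectors
(`ph (rho z x) = ph x * z`; `ph_range`, `ph_inj`). -/
theorem exists_rho : ∃ ρ : Subalgebra.center ℝ (MonoidAlgebra ℝ G) →ₐ[ℝ]
      (EuclideanSpace ℝ ι →ₗ[ℝ] EuclideanSpace ℝ ι),
    ∀ z x, H.ph (ρ z x) = H.ph x * (z : MonoidAlgebra ℝ G) := by
  choose T hT using fun z => H.RealB_mul z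
  have hext : ∀ {A B : EuclideanSpace ℝ ι →ₗ[ℝ] EuclideanSpace ℝ ι},
      (∀ x, H.ph (A x) = H.ph (B x)) → A = B := by
    intro A B h
    exact LinearMap.ext fun x => H.ph_inj (h x)
  refine ⟨AlgHom.ofLinearMap
    { toFun := fun z => T (z : MonoidAlgebra ℝ G)
      map_add' := fun z w => hext fun x => by
        rw [LinearMap.add_apply, map_add, hT, hT, hT, ← mul_add]
        rfl
      map_smul' := fun r z => hext fun x => by
        rw [RingHom.id_apply, LinearMap.smul_apply, map_smul, hT, hT, ← mul_smul_comm]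
        rfl } ?_ ?_, fun z x => hT _ _⟩
  · apply hext
    intro x
    show H.ph (T _ x) = H.ph x
    rw [hT]
    exact mul_one _
  · intro z w
    apply hext
    intro x
    show H.ph (T _ x) = H.ph (T _ (T _ x))
    rw [hT, hT, hT, mul_assoc]
    have h1 : ((z * w : Subalgebra.center ℝ (MonoidAlgebra ℝ G)) : MonoidAlgebra ℝ G)
        = (w : MonoidAlgebra ℝ G) * (z : MonoidAlgebra ℝ G) := by
      show (z : MonoidAlgebra ℝ G) * (w : MonoidAlgebra ℝ G) = _
      exact (Subalgebra.mem_center_iff.1 w.2 _)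
    rw [h1]

omit [Fintype ι] in
theorem RealB_odd (W : WD ℚ G) {i : Fin W.m} (hi : H.Odd W i) {x₀ : MonoidAlgebra ℚ G}
    (hx₀ : x₀ * W.e i = x₀) : toR x₀ * H.cc ℝ = -toR x₀ := by
  have h1 : x₀ * H.cc ℚ = -x₀ := by
    apply W.comp_inj
    intro j
    rw [map_mul, map_neg]
    by_cases hj : j = i
    · subst hj
      have h2 : W.comp j (H.cc ℚ) = -1 := hi
      rw [h2, mul_neg, mul_one]
    · rw [(W.mul_e_iff i x₀).1 hx₀ j hj, zero_mul, neg_zero]
  have h2 : toR (H.cc ℚ) = H.cc ℝ := by
    apply ma_ext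
    intro g
    rw [RealB_coeff]
    unfold cc
    rw [MonoidAlgebra.coeff_single, MonoidAlgebra.coeff_single]
    by_cases hg : H.c = g
    · subst hg
      simp
    · simp [hg]
  rw [← h2, ← map_mul, h1, map_neg]

theorem RealB_toR_el (v : ι → Bool) : toR (H.el ℚ v) = H.el ℝ v := H.map_el _ v

omit [Fintype ι] in
/-- the real span of a component -/
theorem RealB_span (W : WD ℚ G) (i : Fin W.m) :
    ∃ S : Submodule ℝ (MonoidAlgebra ℝ G), finrank ℝ S ≤ W.a i ∧
      ∀ z : MonoidAlgebra ℝ G, z * toR (W.e i) = z → z ∈ S := by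
  have hfin : Module.Finite ℚ (MonoidAlgebra ℚ G) :=
    Module.Finite.equiv (MonoidAlgebra.coeffLinearEquiv ℚ (S := ℚ) (M := G)).symm
  let b := Module.finBasisOfFinrankEq ℚ (W.algE i) (W.finrank_algE i)
  let S : Submodule ℝ (MonoidAlgebra ℝ G) :=
    Submodule.span ℝ (Set.range fun l : Fin (W.a i) => toR ((b l : W.algE i) : MonoidAlgebra ℚ G))
  have h1 : ∀ x ∈ W.algE i, toR x ∈ S := by
    intro x hx
    have h2 := b.sum_repr ⟨x, hx⟩
    have h3 := congrArg (fun z : W.algE i => (z : MonoidAlgebra ℚ G)) h2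
    simp only at h3
    rw [← h3]
    push_cast
    rw [map_sum]
    refine Submodule.sum_mem _ fun l _ => ?_
    rw [RealB_smul]
    exact Submodule.smul_mem _ _ (Submodule.subset_span ⟨l, rfl⟩)
  refine ⟨S, ?_, ?_⟩
  · have h2 := finrank_range_le_card (R := ℝ)
      (b := fun l : Fin (W.a i) => toR ((b l : W.algE i) : MonoidAlgebra ℚ G))
    rw [Fintype.card_fin] at h2
    exact h2
  · intro z hz
    rw [← hz]
    have h2 : z = ∑ g, z.coeff g • toR (MonoidAlgebra.single g 1) := by
      apply ma_ext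
      intro g
      rw [coeff_sum', sum_eq_single g]
      · have h3 : (z.coeff g • toR (MonoidAlgebra.single g 1)).coeff g =
          z.coeff g * (toR (MonoidAlgebra.single g 1)).coeff g := rfl
        rw [h3, RealB_coeff, MonoidAlgebra.coeff_single]
        simp
      · intro h _ hh
        have h3 : (z.coeff h • toR (MonoidAlgebra.single h 1)).coeff g =
          z.coeff h * (toR (MonoidAlgebra.single h 1)).coeff g := rfl
        rw [h3, RealB_coeff, MonoidAlgebra.coeff_single, Finsupp.single_eq_of_ne' hh]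
        simp
      · intro h
        exact absurd (mem_univ _) h
    rw [h2, sum_mul]
    refine Submodule.sum_mem _ fun g _ => ?_
    rw [smul_mul_assoc, ← map_mul]
    refine Submodule.smul_mem _ _ (h1 _ ?_)
    rw [WD.wdC_mem_algE, mul_assoc, W.e_mul_self]

/-- PROOF. Let `x₀` have component `i` equal to the matrix unit `E_{00}` and `x₀ * e i = x₀`
(`exists_comp`).  (a) `V0 x₀` is not zero.  (b) Its dimension is at most `W.a i`: for `x` in it
`ph x * e i = ph x`, and `ph` maps it injectively into the real span of `algE i` (`finrank_algE`,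
`toR_li`).  (c) If `v` is bad, let `k` be a nonzero row of `X` (`X` as in `badI`); there is an invertible
matrix `Y` with row `0` equal to `k`; let `y`, `y'` have components `Y`, `Y⁻¹` at `i` and
`y * e i = y`, `y' * e i = y'`.  Then `x₀ * y * el v = 0` and `y * y' = e i`.  The linear map `T` with
`ph (T x) = ph x * toR y` (right multiplication preserves odd elements) has the three properties
(`ph_act`, `ph_inner`). -/
theorem exists_x₀ (W : WD ℚ G) {i : Fin W.m} (hi : H.Odd W i) :
    ∃ x₀ : MonoidAlgebra ℚ G, x₀ * W.e i = x₀ ∧ W.comp i x₀ ≠ 0 ∧ H.V0 x₀ ≠ ⊥ ∧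
      finrank ℝ (H.V0 x₀) ≤ W.a i ∧
      ∀ v ∈ H.badI W i, ∃ T : EuclideanSpace ℝ ι →ₗ[ℝ] EuclideanSpace ℝ ι,
        (∀ g x, T ((letI := H.act; H.coc.act g x)) = (letI := H.act; H.coc.act g (T x))) ∧
        (∀ x ∈ H.V0 x₀, T x = 0 → x = 0) ∧ ∀ x ∈ H.V0 x₀, inner ℝ (sv v) (T x) = (0 : ℝ) := by
  classical
  have hfinR : Module.Finite ℝ (MonoidAlgebra ℝ G) :=
    Module.Finite.equiv (MonoidAlgebra.coeffLinearEquiv ℝ (S := ℝ) (M := G)).symm
  obtain ⟨x₀, hx1, hx2⟩ := W.exists_comp i (Matrix.single 0 0 1)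
  have hc0 : W.comp i x₀ ≠ 0 := by
    rw [hx1]
    intro h
    have h1 := congrFun (congrFun h 0) 0
    rw [Matrix.single_apply_same] at h1
    exact one_ne_zero h1
  refine ⟨x₀, hx2, hc0, ?_, ?_, ?_⟩
  · -- not zero
    intro h
    obtain ⟨x, hx⟩ := (H.ph_range (toR x₀)).2 (H.RealB_odd W hi hx2)
    have h1 : x ∈ H.V0 x₀ := ⟨1, by rw [hx, one_mul]⟩
    rw [h, Submodule.mem_bot] at h1
    rw [h1, map_zero] at hx
    apply hc0
    have h2 : x₀ = 0 := by
      apply RealB_inj
      rw [← hx, map_zero]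
    rw [h2, map_zero]
  · -- dimension
    obtain ⟨S, hS1, hS2⟩ := RealB_span W i
    have h1 : (H.V0 x₀).map H.ph ≤ S := by
      rintro _ ⟨x, ⟨y, hy⟩, rfl⟩
      apply hS2
      rw [hy, mul_assoc, ← map_mul, hx2]
    have h2 := LinearEquiv.finrank_eq (Submodule.equivMapOfInjective H.ph H.ph_inj (H.V0 x₀))
    rw [h2]
    exact (Submodule.finrank_mono h1).trans hS1
  · rintro v ⟨X, hX0, hX⟩
    obtain ⟨a, ha⟩ : ∃ a, X a ≠ 0 := Function.ne_iff.1 hX0
    obtain ⟨Y, Y', hYY, hY0⟩ := RealB_row (X a) ha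
    obtain ⟨y, hy1, hy2⟩ := W.exists_comp i Y
    obtain ⟨y', hy'1, hy'2⟩ := W.exists_comp i Y'
    have hyy : y * y' = W.e i := by
      apply W.wdC_inj (i := i)
      · rw [mul_assoc, hy'2]
      · exact W.e_mul_self i
      · rw [map_mul, hy1, hy'1, hYY, W.comp_e_self]
    have hzero : x₀ * y * H.el ℚ v = 0 := by
      apply W.comp_inj
      intro j
      rw [map_mul, map_mul, map_zero]
      by_cases hj : j = i
      · subst hj
        rw [hx1, hy1]
        ext p q
        rw [Matrix.zero_apply, Matrix.mul_apply]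
        by_cases hp : p = 0
        · subst hp
          have h1 := congrFun (congrFun hX a) q
          rw [Matrix.mul_apply, Matrix.zero_apply] at h1
          rw [← h1]
          refine sum_congr rfl fun l _ => ?_
          rw [Matrix.single_mul_apply_same, one_mul, hY0]
        · refine sum_eq_zero fun l _ => ?_
          rw [Matrix.single_mul_apply_of_ne _ _ _ _ _ hp, zero_mul]
      · rw [(W.mul_e_iff i x₀).1 hx2 j hj, zero_mul, zero_mul]
    obtain ⟨T, hT⟩ := H.RealB_mul (toR y)
    refine ⟨T, ?_, ?_, ?_⟩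
    · intro g x
      letI := H.act
      apply H.ph_inj
      rw [hT, H.ph_act, H.ph_act, hT, mul_assoc]
    · rintro x ⟨w, hw⟩ hTx
      apply H.ph_inj
      have h1 := hT x
      rw [hTx, map_zero] at h1
      have h2 : H.ph x * toR y * toR y' = H.ph x := by
        rw [mul_assoc, ← map_mul, hyy, hw, mul_assoc, ← map_mul, hx2]
      rw [map_zero, ← h2, ← h1, zero_mul]
    · rintro x ⟨w, hw⟩
      rw [H.ph_inner, hT, hw, ← H.RealB_toR_el v, mul_assoc, mul_assoc, ← map_mul, ← map_mul,
        ← mul_assoc, hzero, map_zero, mul_zero]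
      rfl

/-- PROOF. Let `z_1, …, z_f` be a basis of `ctrE i` over `ℚ` (`finrank_ctrE`), `Z` the real span of the
`toR z_l`; it has dimension `f` (`toR_li`).  If `a = ∑ r_l toR z_l` satisfies `x * a = 0` for all `x` in
the image of `V0 x₀` then `0 = toR x₀ * a = ∑ r_l toR (x₀ * z_l)` (`toR x₀` is in the image of `ph`:
`x₀` is odd as `e i` is, `ph_range`), and the `x₀ * z_l` are linearly independent over `ℚ`: component
`i` of a combination is `comp i x₀` times a scalar `ζ` (`comp_central`), zero only if `ζ = 0`. -/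
theorem exists_Z (W : WD ℚ G) {i : Fin W.m} (hi : H.Odd W i) {x₀ : MonoidAlgebra ℚ G}
    (hx₀ : x₀ * W.e i = x₀) (hx₀' : W.comp i x₀ ≠ 0) :
    ∃ Z : Submodule ℝ (Subalgebra.center ℝ (MonoidAlgebra ℝ G)), finrank ℝ Z = W.f i ∧
      ∀ a ∈ Z, (∀ x ∈ H.V0 x₀, H.ph x * (a : MonoidAlgebra ℝ G) = 0) → a = 0 := by
  classical
  have hfin : Module.Finite ℚ (MonoidAlgebra ℚ G) :=
    Module.Finite.equiv (MonoidAlgebra.coeffLinearEquiv ℚ (S := ℚ) (M := G)).symm
  let b := Module.finBasisOfFinrankEq ℚ (W.ctrE i) (W.finrank_ctrE i)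
  have hbc : ∀ l (x : MonoidAlgebra ℚ G),
      ((b l : W.ctrE i) : MonoidAlgebra ℚ G) * x = x * ((b l : W.ctrE i) : MonoidAlgebra ℚ G) :=
    fun l => (b l).2.1
  have hcen : ∀ l (x : MonoidAlgebra ℝ G),
      toR ((b l : W.ctrE i) : MonoidAlgebra ℚ G) * x
        = x * toR ((b l : W.ctrE i) : MonoidAlgebra ℚ G) := by
    intro l
    rw [central_iff]
    intro g h
    rw [RealB_coeff, RealB_coeff, central_iff.1 (hbc l) g h]
  let zc : Fin (W.f i) → Subalgebra.center ℝ (MonoidAlgebra ℝ G) := fun l =>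
    ⟨toR ((b l : W.ctrE i) : MonoidAlgebra ℚ G),
      Subalgebra.mem_center_iff.2 fun x => (hcen l x).symm⟩
  have hbli : LinearIndependent ℚ fun l => ((b l : W.ctrE i) : MonoidAlgebra ℚ G) :=
    b.linearIndependent.map' (W.ctrE i).subtype (Submodule.ker_subtype _)
  have hzli : LinearIndependent ℝ zc := by
    apply LinearIndependent.of_comp (Subalgebra.center ℝ (MonoidAlgebra ℝ G)).val.toLinearMap
    exact toR_li hbli
  -- the products with `x₀`
  have hxli : LinearIndependent ℚ fun l => x₀ * ((b l : W.ctrE i) : MonoidAlgebra ℚ G) := by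
    rw [Fintype.linearIndependent_iff]
    intro c hc
    have h1 : x₀ * (∑ l, c l • ((b l : W.ctrE i) : MonoidAlgebra ℚ G)) = 0 := by
      rw [← hc, mul_sum]
      exact sum_congr rfl fun l _ => by rw [mul_smul_comm]
    set z := ∑ l, c l • ((b l : W.ctrE i) : MonoidAlgebra ℚ G) with hz
    have hzmem : z ∈ W.ctrE i := Submodule.sum_mem _ fun l _ => Submodule.smul_mem _ _ (b l).2
    obtain ⟨ζ, hζ1, hζ2⟩ := W.comp_central i hzmem.1
    have h2 : W.comp i x₀ * Matrix.diagonal (fun _ => ζ) = 0 := by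
      rw [← hζ2, ← map_mul, h1, map_zero]
    obtain ⟨p, hp⟩ : ∃ p, W.comp i x₀ p ≠ 0 := Function.ne_iff.1 hx₀'
    obtain ⟨q, hq⟩ : ∃ q, W.comp i x₀ p q ≠ 0 := Function.ne_iff.1 hp
    have h3 := congrFun (congrFun h2 p) q
    rw [Matrix.mul_diagonal, Matrix.zero_apply] at h3
    have hζ0 : ζ = 0 := (mul_eq_zero.1 h3).resolve_left hq
    have hz0 : z = 0 := by
      apply W.wdC_inj (i := i) hzmem.2 (zero_mul _)
      rw [hζ2, hζ0, map_zero]
      exact Matrix.diagonal_zero
    exact Fintype.linearIndependent_iff.1 hbli c (by rw [← hz, hz0])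
  have hxliR := toR_li hxli
  refine ⟨Submodule.span ℝ (Set.range zc), ?_, ?_⟩
  · rw [finrank_span_eq_card hzli, Fintype.card_fin]
  · intro a ha hax
    rw [Submodule.mem_span_range_iff_exists_fun] at ha
    obtain ⟨r, hr⟩ := ha
    obtain ⟨x, hx⟩ := (H.ph_range (toR x₀)).2 (H.RealB_odd W hi hx₀)
    have h1 := hax x ⟨1, by rw [hx, one_mul]⟩
    rw [hx] at h1
    have h2 : (a : MonoidAlgebra ℝ G) =
        ∑ l, r l • toR ((b l : W.ctrE i) : MonoidAlgebra ℚ G) := by
      rw [← hr]
      have h3 := map_sum (Subalgebra.center ℝ (MonoidAlgebra ℝ G)).val (fun l => r l • zc l) univ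
      exact h3
    rw [h2, mul_sum] at h1
    have h3 : ∑ l, r l • toR (x₀ * ((b l : W.ctrE i) : MonoidAlgebra ℚ G)) = 0 := by
      rw [← h1]
      refine sum_congr rfl fun l _ => ?_
      rw [map_mul, mul_smul_comm]
    have h4 := Fintype.linearIndependent_iff.1 hxliR r h3
    rw [← hr]
    exact sum_eq_zero fun l _ => by rw [h4 l, zero_smul]

end Half

end Pool.MP43e44c.GA
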