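import Pool.Agent.H.MP_43e44c_ag.SB.Rep

/-!
An invariant subspace on which a large commutative algebra acts has a small minimal subspace.
-/

set_option autoImplicit false

open Finset Module

namespace Pool.MP43e44c.GA

/-- The elements which act as zero on a subspace. -/
def annih {ι : Type*} [Fintype ι] {A : Type*} [CommRing A] [Algebra ℝ A]
    (ρ : A →ₐ[ℝ] (EuclideanSpace ℝ ι →ₗ[ℝ] EuclideanSpace ℝ ι))
    (U : Submodule ℝ (EuclideanSpace ℝ ι)) : Submodule ℝ A where
  carrier := {a | ∀ x ∈ U, ρ a x = 0}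
  zero_mem' := fun x _ => by rw [map_zero]; rfl
  add_mem' := fun {a b} ha hb x hx => by
    rw [map_add, LinearMap.add_apply, ha x hx, hb x hx, add_zero]
  smul_mem' := fun r a ha x hx => by
    rw [map_smul, LinearMap.smul_apply, ha x hx, smul_zero]

/-- A commutative domain of finite dimension over the reals has dimension at most two. -/
theorem RealC_dom (Q : Type*) [CommRing Q] [IsDomain Q] [Algebra ℝ Q] [FiniteDimensional ℝ Q] :
    finrank ℝ Q ≤ 2 := by
  let F : Field Q := fieldOfFiniteDimensional ℝ Q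
  have : Algebra.IsAlgebraic ℝ Q := Algebra.IsAlgebraic.of_finite ℝ Q
  rcases Real.nonempty_algEquiv_or Q with ⟨⟨e⟩⟩ | ⟨⟨e⟩⟩
  · rw [e.toLinearEquiv.finrank_eq, finrank_self]
    norm_num
  · rw [e.toLinearEquiv.finrank_eq, Complex.finrank_real_complex]

section

variable {Γ ι : Type*} [Group Γ] [Fintype Γ] [MulAction Γ ι] [Fintype ι] (C : Coc Γ ι)
  {A : Type*} [CommRing A] [Algebra ℝ A]
  (ρ : A →ₐ[ℝ] (EuclideanSpace ℝ ι →ₗ[ℝ] EuclideanSpace ℝ ι))
  (hcomm : ∀ a g x, ρ a (C.act g x) = C.act g (ρ a x))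
include hcomm

/-- PROOF. On a minimal subspace `U` every `ρ a` is zero or injective (its kernel in `U` is invariant).
So the image of `A` in the endomorphisms of `U` is a commutative finite-dimensional domain, hence a
field, of dimension at most `2` over `ℝ` (`Real.nonempty_algEquiv_or`).  `Z ⊓ annih ρ U` is the kernel
of the restriction to `Z` of a linear map whose range has dimension `≤ 2`. -/
theorem ker_mnl {U : Submodule ℝ (EuclideanSpace ℝ ι)} (hU : C.Mnl U)
    (hinv : ∀ a, ∀ x ∈ U, ρ a x ∈ U) (Z : Submodule ℝ A) [Module.Finite ℝ Z] :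
    finrank ℝ Z ≤ finrank ℝ (Z ⊓ annih ρ U : Submodule ℝ A) + 2 := by
  have key : ∀ a, (∀ x ∈ U, ρ a x = 0) ∨ (∀ x ∈ U, ρ a x = 0 → x = 0) := by
    intro a
    let W : Submodule ℝ (EuclideanSpace ℝ ι) := U ⊓ LinearMap.ker (ρ a)
    have hWinv : C.Inv W := by
      rintro g x ⟨hx, hx'⟩
      refine ⟨hU.1 g x hx, ?_⟩
      rw [SetLike.mem_coe, LinearMap.mem_ker] at hx' ⊢
      rw [hcomm, hx', map_zero]
    by_cases hW : W = ⊥
    · right
      intro x hx hx'
      have h1 : x ∈ W := ⟨hx, hx'⟩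
      rw [hW, Submodule.mem_bot] at h1
      exact h1
    · left
      intro x hx
      have h1 := hU.2.2 W inf_le_left hWinv hW
      have h2 : x ∈ W := by rw [h1]; exact hx
      exact h2.2
  let R : A →ₐ[ℝ] Module.End ℝ U := AlgHom.ofLinearMap
    { toFun := fun a => (ρ a).restrict (hinv a)
      map_add' := fun a b => by
        ext x
        simp [LinearMap.restrict_apply]
      map_smul' := fun r a => by
        ext x
        simp [LinearMap.restrict_apply] }
    (by
      ext x
      simp [LinearMap.restrict_apply])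
    (fun a b => by
      ext x
      simp [LinearMap.restrict_apply])
  have hRx : ∀ a (x : U), ((R a x : U) : EuclideanSpace ℝ ι) = ρ a x := fun _ _ => rfl
  have hR0 : ∀ a, R a = 0 ↔ ∀ x ∈ U, ρ a x = 0 := by
    intro a
    constructor
    · intro h x hx
      rw [← hRx a ⟨x, hx⟩, h]
      rfl
    · intro h
      refine LinearMap.ext fun x => Subtype.ext ?_
      rw [hRx, h x x.2]
      rfl
  have hprime : (RingHom.ker R).IsPrime := by
    refine ⟨?_, ?_⟩
    · intro h
      have h1 : (1 : A) ∈ RingHom.ker R := by rw [h]; trivial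
      rw [RingHom.mem_ker] at h1
      obtain ⟨x, hx, hx0⟩ := Submodule.exists_mem_ne_zero_of_ne_bot hU.2.1
      have h2 := (hR0 1).1 h1 x hx
      rw [map_one, Module.End.one_apply] at h2
      exact hx0 h2
    · intro a b hab
      rw [RingHom.mem_ker, hR0] at hab
      rw [RingHom.mem_ker, RingHom.mem_ker, hR0, hR0]
      rcases key a with h | h
      · exact Or.inl h
      · right
        intro x hx
        apply h _ (hinv b x hx)
        have h3 := hab x hx
        rw [map_mul, Module.End.mul_apply] at h3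
        exact h3
  have hdom : IsDomain (A ⧸ RingHom.ker R) := Ideal.Quotient.isDomain _
  have hfin : FiniteDimensional ℝ (A ⧸ RingHom.ker R) :=
    Module.Finite.of_injective (Ideal.kerLiftAlg R).toLinearMap (Ideal.kerLiftAlg_injective R)
  have hQ := RealC_dom (A ⧸ RingHom.ker R)
  let L : Z →ₗ[ℝ] (A ⧸ RingHom.ker R) :=
    (Ideal.Quotient.mkₐ ℝ (RingHom.ker R)).toLinearMap ∘ₗ Z.subtype
  have h1 := LinearMap.finrank_range_add_finrank_ker L
  have h2 : finrank ℝ (LinearMap.range L) ≤ 2 := (Submodule.finrank_le _).trans hQ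
  have h3 : (LinearMap.ker L).map Z.subtype = Z ⊓ annih ρ U := by
    have hL : ∀ z : Z, L z = 0 ↔ ∀ x ∈ U, ρ (z : A) x = 0 := by
      intro z
      have h5 : L z = 0 ↔ (z : A) ∈ RingHom.ker R := Ideal.Quotient.eq_zero_iff_mem
      rw [h5, RingHom.mem_ker, hR0]
    ext a
    rw [Submodule.mem_map]
    constructor
    · rintro ⟨z, hz, rfl⟩
      exact ⟨z.2, (hL z).1 hz⟩
    · rintro ⟨ha, ha'⟩
      exact ⟨⟨a, ha⟩, (hL ⟨a, ha⟩).2 ha', rfl⟩
  have h4 := Submodule.finrank_map_subtype_eq Z (LinearMap.ker L)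
  rw [h3] at h4
  omega

/-- PROOF. Show for all invariant `V ≤ V₀` by induction on the dimension: if all `a ∈ Z'` (any finite
dimensional `Z'`) with `ρ a = 0` on `V` vanish, then `K * finrank Z' ≤ 2 * finrank V`.  If `V ≠ ⊥` let
`U ≤ V` be minimal (`exists_mnl`), `V' = V ⊓ Uᗮ` (invariant, `inv_orthogonal`), `Z'' = Z' ⊓ annih ρ U`
(`finrank Z' ≤ finrank Z'' + 2`, `ker_mnl`); elements of `Z''` which vanish on `V'` vanish on
`V = U ⊔ V'`; `finrank V' = finrank V - finrank U ≤ finrank V - K`. -/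
theorem dim_bound {V₀ : Submodule ℝ (EuclideanSpace ℝ ι)} (hV₀ : C.Inv V₀)
    (hinv : ∀ a, ∀ U ≤ V₀, C.Inv U → ∀ x ∈ U, ρ a x ∈ U) (Z : Submodule ℝ A)
    [Module.Finite ℝ Z] (hfaith : ∀ a ∈ Z, (∀ x ∈ V₀, ρ a x = 0) → a = 0) {K : ℕ}
    (hK : ∀ U ≤ V₀, C.Mnl U → K ≤ finrank ℝ U) :
    K * finrank ℝ Z ≤ 2 * finrank ℝ V₀ := by
  have main : ∀ n : ℕ, ∀ V : Submodule ℝ (EuclideanSpace ℝ ι), V ≤ V₀ → C.Inv V →
      finrank ℝ V = n → ∀ Z' : Submodule ℝ A, Module.Finite ℝ Z' →
      (∀ a ∈ Z', (∀ x ∈ V, ρ a x = 0) → a = 0) → K * finrank ℝ Z' ≤ 2 * finrank ℝ V := by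
    intro n
    induction n using Nat.strong_induction_on with
    | _ n ih =>
      intro V hV hVinv hn Z' hZ' hf
      by_cases h0 : V = ⊥
      · have h1 : Z' = ⊥ := by
          rw [eq_bot_iff]
          intro a ha
          rw [Submodule.mem_bot]
          refine hf a ha fun x hx => ?_
          rw [h0, Submodule.mem_bot] at hx
          rw [hx, map_zero]
        rw [h1, finrank_bot]
        omega
      obtain ⟨U, hUV, hU⟩ := C.exists_mnl hVinv h0
      have hUV₀ : U ≤ V₀ := hUV.trans hV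
      have hUinv : ∀ a, ∀ x ∈ U, ρ a x ∈ U := fun a => hinv a U hUV₀ hU.1
      have h1 := ker_mnl C ρ hcomm hU hUinv Z'
      let V' : Submodule ℝ (EuclideanSpace ℝ ι) := V ⊓ Uᗮ
      have hV'inv : C.Inv V' := fun g x hx => ⟨hVinv g x hx.1, C.inv_orthogonal hU.1 g x hx.2⟩
      have hKU := hK U hUV₀ hU
      have hdisj : U ⊓ V' = ⊥ := by
        rw [eq_bot_iff]
        rintro x ⟨hx1, hx2⟩
        have h2 : x ∈ U ⊓ Uᗮ := ⟨hx1, hx2.2⟩
        rwa [Submodule.inf_orthogonal_eq_bot] at h2
      have hsum : finrank ℝ U + finrank ℝ V' ≤ finrank ℝ V := by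
        have h2 := Submodule.finrank_sup_add_finrank_inf_eq U V'
        rw [hdisj, finrank_bot, add_zero] at h2
        rw [← h2]
        exact Submodule.finrank_mono (sup_le hUV inf_le_left)
      have hUpos : 0 < finrank ℝ U := by
        have : Nontrivial U := Submodule.nontrivial_iff_ne_bot.2 hU.2.1
        exact finrank_pos
      have hfin : Module.Finite ℝ (Z' ⊓ annih ρ U : Submodule ℝ A) :=
        Submodule.finiteDimensional_of_le (inf_le_left : Z' ⊓ annih ρ U ≤ Z')
      have h3 := ih (finrank ℝ V') (by omega) V' (inf_le_left.trans hV) hV'inv rfl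
        (Z' ⊓ annih ρ U) hfin (by
          rintro a ⟨ha, haU⟩ hx
          refine hf a ha fun x hxV => ?_
          have h4 : x = U.starProjection x + (x - U.starProjection x) := by abel
          have h5 : U.starProjection x ∈ U := Submodule.starProjection_apply_mem U x
          have h6 : x - U.starProjection x ∈ V' :=
            ⟨V.sub_mem hxV (hUV h5), Submodule.sub_starProjection_mem_orthogonal (K := U) x⟩
          rw [h4, map_add, haU _ h5, hx _ h6, add_zero])
      calc K * finrank ℝ Z' ≤ K * (finrank ℝ (Z' ⊓ annih ρ U : Submodule ℝ A) + 2) :=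
            Nat.mul_le_mul_left _ h1
        _ = K * finrank ℝ (Z' ⊓ annih ρ U : Submodule ℝ A) + 2 * K := by ring
        _ ≤ 2 * finrank ℝ V' + 2 * finrank ℝ U := by omega
        _ ≤ 2 * finrank ℝ V := by omega
  exact main _ V₀ le_rfl hV₀ rfl Z inferInstance hfaith

end

end Pool.MP43e44c.GA
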