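import Pool.Agent.H.MP_43e44c_ag.GA.RealA
import Pool.Agent.H.MP_43e44c_ag.GA.RealB
import Pool.Agent.H.MP_43e44c_ag.GA.RealC

/-!
Components with a center of very large degree.
-/

set_option autoImplicit false

open Finset Module

namespace Pool.MP43e44c.GA

open Pool.MP43e44c.OD

namespace Half

private theorem RealD_sum_single {G : Type*} [Group G] [Fintype G] (a : MonoidAlgebra ℝ G) :
    a = ∑ g, a.coeff g • MonoidAlgebra.single g (1 : ℝ) := by
  classical
  apply ma_ext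
  intro h
  rw [coeff_sum']
  have h1 : ∀ g, (a.coeff g • MonoidAlgebra.single g (1 : ℝ) : MonoidAlgebra ℝ G).coeff h =
      if g = h then a.coeff g else 0 := by
    intro g
    rw [MonoidAlgebra.smul_single, MonoidAlgebra.coeff_single, Finsupp.single_apply, smul_eq_mul,
      mul_one]
  rw [sum_congr rfl fun g _ => h1 g, sum_ite_eq' univ h]
  simp

private theorem RealD_comm {G : Type*} [Group G] {ι : Type*} (H : Half G ι) [Fintype G] [Fintype ι]
    (ρ : Subalgebra.center ℝ (MonoidAlgebra ℝ G) →ₐ[ℝ]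
      (EuclideanSpace ℝ ι →ₗ[ℝ] EuclideanSpace ℝ ι))
    (hρ : ∀ z x, H.ph (ρ z x) = H.ph x * (z : MonoidAlgebra ℝ G)) (a) (g : G)
    (x : EuclideanSpace ℝ ι) :
    ρ a ((letI := H.act; H.coc.act g x)) = (letI := H.act; H.coc.act g (ρ a x)) := by
  apply H.ph_inj
  rw [hρ, H.ph_act, H.ph_act, hρ, mul_assoc]

private theorem RealD_inv {G : Type*} [Group G] {ι : Type*} (H : Half G ι) [Fintype G] [Fintype ι]
    (ρ : Subalgebra.center ℝ (MonoidAlgebra ℝ G) →ₐ[ℝ]
      (EuclideanSpace ℝ ι →ₗ[ℝ] EuclideanSpace ℝ ι))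
    (hρ : ∀ z x, H.ph (ρ z x) = H.ph x * (z : MonoidAlgebra ℝ G))
    (a : Subalgebra.center ℝ (MonoidAlgebra ℝ G)) (U : Submodule ℝ (EuclideanSpace ℝ ι))
    (hU : (letI := H.act; H.coc.Inv U)) (x : EuclideanSpace ℝ ι) (hx : x ∈ U) : ρ a x ∈ U := by
  let _ := H.act
  have h1 : ρ a x = ∑ g, (a : MonoidAlgebra ℝ G).coeff g • H.coc.act g x := by
    apply H.ph_inj
    rw [hρ, map_sum]
    have h2 : H.ph x * (a : MonoidAlgebra ℝ G) = (a : MonoidAlgebra ℝ G) * H.ph x :=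
      Subalgebra.mem_center_iff.1 a.2 (H.ph x)
    rw [h2]
    conv_lhs => rw [RealD_sum_single (a : MonoidAlgebra ℝ G)]
    rw [sum_mul]
    refine sum_congr rfl fun g _ => ?_
    have h3 := H.ph_act g x
    rw [map_smul, h3, smul_mul_assoc]
  rw [h1]
  exact Submodule.sum_mem _ fun g _ => Submodule.smul_mem _ _ (hU g x hx)

/-- PROOF. Let `x₀` be as in `exists_x₀`, `V₀ = H.V0 x₀`.  Let `K₀` be the minimal dimension of a minimal
invariant subspace of `V₀` and `U ≤ V₀` minimal with `finrank U = K₀` (`exists_mnl`).  By `dim_bound`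
(`ρ` from `exists_rho`, `Z` from `exists_Z`; `ρ a` preserves every invariant subspace: a central `a` is a
combination of group elements and `ph x * a = a * ph x`, `ph_act`; `hcomm` by `ph_act`, `ph_inj`)
`K₀ * W.f i ≤ 2 * W.a i ≤ 2 * card ι` (`sum_odd_a`), so `K₀ ≤ 2 K` as `card ι ≤ K * W.f i`, and
`W.f i > 0`.  If `v` is bad, the restriction to `U` of the map `T` of `exists_x₀` is in `C.Hom U`, not
zero, and its range is orthogonal to `sv v`.  So `card_single_bdd` applies. -/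
theorem badI_real (K : ℝ) : ∃ C : ℝ, 0 < C ∧ ∀ {G : Type} [Group G] {ι : Type} (H : Half G ι)
    [Fintype G] [Fintype ι] (W : WD ℚ G) (i : Fin W.m), H.Odd W i →
    (Fintype.card ι : ℝ) ≤ K * W.f i →
    (((H.badI W i).ncard : ℕ) : ℝ) ≤ C * (Fintype.card ι : ℝ) ^ (-(1 / 4) : ℝ) *
      2 ^ Fintype.card ι := by
  obtain ⟨C, hC, hbdd⟩ := card_single_bdd ⌈2 * K⌉₊
  refine ⟨C, hC, ?_⟩
  intro G _ ι H _ _ W i hi hK
  classical
  let _ := H.act
  have := H.act_pretransitive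
  have : Nonempty ι := ⟨H.π 1⟩
  obtain ⟨x₀, hx1, hx2, hV0, hVdim, hbad⟩ := H.exists_x₀ W hi
  obtain ⟨ρ, hρ⟩ := H.exists_rho
  obtain ⟨Z, hZ, hfaith⟩ := H.exists_Z W hi hx1 hx2
  have hVinv : H.coc.Inv (H.V0 x₀) := H.V0_inv x₀
  have hf : 0 < W.f i := W.f_pos i
  -- the minimal dimension
  have hex : ∃ k : ℕ, ∃ U ≤ H.V0 x₀, H.coc.Mnl U ∧ finrank ℝ U = k := by
    obtain ⟨U, hU, hm⟩ := H.coc.exists_mnl hVinv hV0
    exact ⟨_, U, hU, hm, rfl⟩
  obtain ⟨U, hUV, hU, hUk⟩ := Nat.find_spec hex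
  have hmin : ∀ U' ≤ H.V0 x₀, H.coc.Mnl U' → Nat.find hex ≤ finrank ℝ U' := fun U' hU' hm =>
    Nat.find_min' hex ⟨U', hU', hm, rfl⟩
  have hfin0 : Module.Finite ℝ (MonoidAlgebra ℝ G) :=
    Module.Finite.equiv (MonoidAlgebra.coeffLinearEquiv ℝ (S := ℝ) (M := G)).symm
  have hfin : Module.Finite ℝ Z := Module.Finite.of_injective
    ((Subalgebra.center ℝ (MonoidAlgebra ℝ G)).val.toLinearMap ∘ₗ Z.subtype) (by
      intro x y hxy
      exact Subtype.ext (Subtype.ext hxy))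
  have hdb := dim_bound H.coc ρ (fun a g x => RealD_comm H ρ hρ a g x) hVinv
    (fun a U' _ hInv x hx => RealD_inv H ρ hρ a U' hInv x hx) Z
    (fun a ha h => hfaith a ha fun x hx => by rw [← hρ, h x hx, map_zero]) hmin
  rw [hZ] at hdb
  have ha : W.a i ≤ Fintype.card ι := by
    rw [← H.sum_odd_a (by norm_num) W]
    exact single_le_sum (f := fun i => W.a i) (fun _ _ => Nat.zero_le _)
      (mem_filter.2 ⟨mem_univ i, hi⟩)
  have hUD : finrank ℝ U ≤ ⌈2 * K⌉₊ := by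
    have h1 : Nat.find hex * W.f i ≤ 2 * Fintype.card ι := hdb.trans (by omega)
    have h2 : (Nat.find hex : ℝ) * W.f i ≤ 2 * K * W.f i := by
      have h3 : (Nat.find hex : ℝ) * W.f i ≤ 2 * Fintype.card ι := by exact_mod_cast h1
      linarith
    have hf' : (0 : ℝ) < W.f i := by exact_mod_cast hf
    have h4 : (Nat.find hex : ℝ) ≤ 2 * K := le_of_mul_le_mul_right h2 hf'
    rw [hUk]
    exact_mod_cast h4.trans (Nat.le_ceil _)
  have hmain := hbdd H.coc hU hUD
  refine le_trans ?_ hmain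
  have hsub : H.badI W i ⊆ {v : ι → Bool | ∃ T ∈ H.coc.Hom U, T ≠ 0 ∧
      SOrth v (LinearMap.range (T : U →ₗ[ℝ] EuclideanSpace ℝ ι))} := by
    intro v hv
    obtain ⟨T, hT1, hT2, hT3⟩ := hbad v hv
    refine ⟨LinearMap.toContinuousLinearMap (T ∘ₗ U.subtype), ?_, ?_, ?_⟩
    · intro g x y hxy
      show T (y : EuclideanSpace ℝ ι) = H.coc.act g (T x)
      rw [← hxy]
      exact hT1 g x
    · intro h0
      apply hU.2.1
      rw [Submodule.eq_bot_iff]
      intro x hx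
      refine hT2 x (hUV hx) ?_
      have h1 := congrArg (fun S : U →L[ℝ] EuclideanSpace ℝ ι => S ⟨x, hx⟩) h0
      exact h1
    · rintro _ ⟨x, rfl⟩
      exact hT3 x (hUV x.2)
  exact_mod_cast Set.ncard_le_ncard hsub (Set.toFinite _)

end Half

end Pool.MP43e44c.GA
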