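import Pool.Agent.H.MP_43e44c_ag.GA.SmallA
import Pool.Agent.H.MP_43e44c_ag.OD.DSml

/-!
Components of bounded dimension.
-/

set_option autoImplicit false

open Finset Module

namespace Pool.MP43e44c.GA

open Pool.MP43e44c.OD

universe u v

namespace Half

section

variable {G : Type u} [Group G] {ι : Type v} (H : Half G ι) [Fintype G] [Fintype ι] (W : WD ℚ G)
  (i : Fin W.m)
  (w : Fin (W.r i) → (Fin (W.r i) → W.D i))

/-- The translates of the rows. -/
noncomputable def Small_m (l : Fin (W.r i)) (g : ι) : Fin (W.r i) → W.D i :=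
  Matrix.vecMul (w l) (W.comp i (MonoidAlgebra.single (H.t g) 1))

/-- The rows of the matrix of a sign vector in the basis `w`. -/
noncomputable def Small_y (v : ι → Bool) (l : Fin (W.r i)) : Fin (W.r i) → W.D i :=
  Matrix.vecMul (w l) (W.comp i (H.el ℚ v))

theorem Small_y_eq (v : ι → Bool) (l : Fin (W.r i)) :
    Small_y H W i w v l = ∑ g, if v g then Small_m H W i w l g else - Small_m H W i w l g := by
  let A : MonoidAlgebra ℚ G →+ (Fin (W.r i) → W.D i) :=
    { toFun := fun x => Matrix.vecMul (w l) (W.comp i x)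
      map_zero' := by rw [map_zero, Matrix.vecMul_zero]
      map_add' := fun x y => by rw [map_add, Matrix.vecMul_add] }
  show A (H.el ℚ v) = _
  unfold el
  rw [map_sum]
  refine sum_congr rfl fun g _ => ?_
  by_cases h : v g
  · rw [if_pos h, if_pos h]
    rfl
  · rw [if_neg h, if_neg h]
    have h1 : (MonoidAlgebra.single (H.t g) (-1 : ℚ)) = -MonoidAlgebra.single (H.t g) (1 : ℚ) := by
      apply ma_ext
      intro k
      show (MonoidAlgebra.single (H.t g) (-1 : ℚ)).coeff k = -((MonoidAlgebra.single (H.t g) (1 : ℚ)).coeff k)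
      rw [MonoidAlgebra.coeff_single, MonoidAlgebra.coeff_single, Finsupp.single_neg]
      rfl
    rw [h1, map_neg]
    rfl

theorem Small_mem (v : ι → Bool) (l : Fin (W.r i)) : Small_y H W i w v l ∈ latL W i w := by
  rw [Small_y_eq]
  refine sum_mem fun g _ => ?_
  have h1 : Small_m H W i w l g ∈ latL W i w := AddSubgroup.subset_closure ⟨(l, H.t g), rfl⟩
  split_ifs
  · exact h1
  · exact neg_mem h1

theorem Small_j {κ : Type u} [Fintype κ] (j : (Fin (W.r i) → W.D i) →ₗ[ℚ] EuclideanSpace ℝ κ)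
    (v : ι → Bool) (l : Fin (W.r i)) :
    j (Small_y H W i w v l) = ∑ g, (if v g then (1 : ℝ) else -1) • j (Small_m H W i w l g) := by
  rw [Small_y_eq, map_sum]
  refine sum_congr rfl fun g _ => ?_
  by_cases h : v g
  · rw [if_pos h, if_pos h, one_smul]
  · rw [if_neg h, if_neg h, map_neg, neg_smul, one_smul]

variable {w}

theorem Small_top (hw : LinearIndependent (W.D i) w) :
    Submodule.span (W.D i) (Set.range w) = ⊤ := by
  apply hw.span_eq_top_of_card_eq_finrank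
  rw [Module.finrank_fin_fun, Fintype.card_fin]

theorem Small_exp (hw : LinearIndependent (W.D i) w) (u : Fin (W.r i) → W.D i) :
    ∃ c : Fin (W.r i) → W.D i, ∑ l, c l • w l = u := by
  have h1 : u ∈ Submodule.span (W.D i) (Set.range w) := by
    rw [Small_top W i hw]
    trivial
  rwa [Submodule.mem_span_range_iff_exists_fun] at h1

theorem Small_vec (c : Fin (W.r i) → W.D i) (Z : Matrix (Fin (W.r i)) (Fin (W.r i)) (W.D i)) :
    Matrix.vecMul (∑ l, c l • w l) Z = ∑ l, c l • Matrix.vecMul (w l) Z := by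
  rw [Matrix.sum_vecMul]
  exact sum_congr rfl fun l _ => Matrix.smul_vecMul _ _ _

/-- A bad vector gives a dependent tuple. -/
theorem Small_bad (hw : LinearIndependent (W.D i) w) {v : ι → Bool} (hv : v ∈ H.badI W i) :
    ¬ LinearIndependent (W.D i) (Small_y H W i w v) := by
  obtain ⟨X, hX, hXZ⟩ := hv
  have h1 : ∃ k, X k ≠ 0 := by
    by_contra h
    push Not at h
    exact hX (by ext a b; rw [h a]; rfl)
  obtain ⟨k, hk⟩ := h1
  obtain ⟨c, hc⟩ := Small_exp W i hw (X k)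
  intro hli
  have h2 : ∑ l, c l • Small_y H W i w v l = 0 := by
    unfold Small_y
    rw [← Small_vec, hc]
    have h3 : Matrix.vecMul (X k) (W.comp i (H.el ℚ v)) = (X * W.comp i (H.el ℚ v)) k := by
      funext b
      rfl
    rw [h3, hXZ]
    rfl
  have h4 := Fintype.linearIndependent_iff.1 hli c h2
  apply hk
  rw [← hc]
  exact sum_eq_zero fun l _ => by rw [h4 l, zero_smul]

/-- The rows determine the matrix. -/
theorem Small_inj (hw : LinearIndependent (W.D i) w) {v v' : ι → Bool}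
    (h : Small_y H W i w v = Small_y H W i w v') :
    W.comp i (H.el ℚ v) = W.comp i (H.el ℚ v') := by
  have h1 : ∀ u : Fin (W.r i) → W.D i, Matrix.vecMul u (W.comp i (H.el ℚ v)) =
      Matrix.vecMul u (W.comp i (H.el ℚ v')) := by
    intro u
    obtain ⟨c, rfl⟩ := Small_exp W i hw u
    rw [Small_vec, Small_vec]
    exact sum_congr rfl fun l _ => by
      have := congrFun h l
      unfold Small_y at this
      rw [this]
  ext a b
  have h2 := congrFun (h1 (Pi.single a 1)) b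
  rwa [Matrix.single_one_vecMul, Matrix.single_one_vecMul] at h2

end


/-- PROOF as `badI_dep` in OD/DMain.lean: `exists_norm` (OD/Lat.lean) holds for every group; the
vectors `y_l(v) = w l ᵥ* comp i (el v)` lie in `latL W i w`; `hoef` with the index set `ι`,
`count_dep`, `sup_comp`. -/
theorem badI_dep (r δ : ℕ) (hr : 2 ≤ r) (hδ : 2 ≤ δ) : ∃ C : ℝ, 0 < C ∧
    ∀ {G : Type u} [Group G] {ι : Type v} (H : Half G ι) [Fintype G] [Fintype ι] (W : WD ℚ G)
      (i : Fin W.m), H.Odd W i → W.r i = r → finrank ℚ (W.D i) = δ → 2 ≤ Fintype.card ι →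
    (((H.badI W i).ncard : ℕ) : ℝ) ≤ (C * (Fintype.card ι : ℝ) ^ (-2 : ℝ) +
      C * ((Fintype.card ι : ℝ) * Real.log (Fintype.card ι)) ^
        (((r : ℝ) ^ 2 * δ - δ - 1 / r) / 2) *
        (Fintype.card ι : ℝ) ^ (-((r : ℝ) ^ 2 * δ) / 2)) * 2 ^ Fintype.card ι := by
  classical
  obtain ⟨C1, hC1, hcd⟩ := count_dep.{u, u} r δ hr hδ
  obtain ⟨C2, hC2, hsup⟩ := sup_comp.{u, v}
  set e : ℝ := (r : ℝ) ^ 2 * δ - δ - 1 / r with he
  set N : ℕ := r * δ with hN
  set a : ℕ := r ^ 2 * δ with ha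
  set C3 : ℝ := C1 * (4 * N : ℝ) ^ (e / 2) * (C2 * Real.sqrt a) ^ a with hC3
  have hNpos : (4 : ℝ) ≤ N := by
    have : 4 ≤ r * δ := by nlinarith
    exact_mod_cast this
  have hapos : (0 : ℝ) < a := by
    have : 0 < r ^ 2 * δ := by positivity
    exact_mod_cast this
  have hC3p : 0 < C3 := by
    have h1 : (0 : ℝ) < 4 * N := by linarith
    have h2 : 0 < Real.sqrt (a : ℝ) := Real.sqrt_pos.2 hapos
    positivity
  have hrN : (0 : ℝ) ≤ r * (2 * N) := by positivity
  refine ⟨r * (2 * N) + C3, by linarith, ?_⟩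
  intro G _ ι H _ _ W i hi hri hδi hn
  have hai : W.a i = a := by
    unfold WD.a
    rw [hri, hδi]
  set n : ℝ := (Fintype.card ι : ℝ) with hnd
  have hn2 : (2 : ℝ) ≤ n := by
    rw [hnd]
    exact_mod_cast hn
  have hn0 : 0 < n := by linarith
  have hlog : 0 < Real.log n := Real.log_pos (by linarith)
  have hlog2 : (1 / 2 : ℝ) ≤ Real.log n := by
    have h1 := Real.log_two_gt_d9
    have h2 := Real.log_le_log (by norm_num) hn2
    linarith
  obtain ⟨κ, hκ, j, w, hw, hj1, hj2⟩ := exists_norm W i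
  have hfr : finrank ℚ (Fin (W.r i) → W.D i) = N := by
    rw [Module.finrank_pi_fintype]
    simp only [sum_const, card_univ, Fintype.card_fin, smul_eq_mul]
    rw [hri, hδi]
  set t : ℝ := Real.sqrt (4 * n * Real.log n) with ht
  have ht2 : t ^ 2 = 4 * n * Real.log n := Real.sq_sqrt (by positivity)
  set R : ℝ := Real.sqrt (N * t ^ 2) with hR
  have hR1 : 1 ≤ R := by
    rw [hR, ht2]
    rw [Real.one_le_sqrt]
    nlinarith [mul_le_mul hn2 hlog2 (by norm_num) hn0.le]
  -- the vectors with a long row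
  have hS : ∀ l, ((univ.filter fun v : ι → Bool =>
      N * t ^ 2 < ‖j (Small_y H W i w v l)‖ ^ 2).card : ℝ) ≤ 2 * N * n ^ (-2 : ℝ) *
        2 ^ Fintype.card ι := by
    intro l
    have h1 := hoef (fun g : ι => j (Small_m H W i w l g)) (fun g => (hj1 l (H.t g)).le) (N := N)
      ((dm_span j (Small_m H W i w l)).trans hfr.le) (t := t) (Real.sqrt_nonneg _)
    rw [← hnd, ht, dm_exp_log hn2, ← ht] at h1
    have h2 : ({v : ι → Bool | N * t ^ 2 < ‖∑ g, (if v g then (1 : ℝ) else -1) •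
        (fun g : ι => j (Small_m H W i w l g)) g‖ ^ 2}.ncard : ℕ) =
        (univ.filter fun v : ι → Bool => N * t ^ 2 < ‖j (Small_y H W i w v l)‖ ^ 2).card := by
      rw [← Set.ncard_coe_finset]
      congr 1
      ext v
      simp only [Set.mem_ofPred_eq, coe_filter, mem_univ, true_and]
      rw [Small_j]
    rw [h2] at h1
    exact h1
  set Yd : Set (Fin (W.r i) → (Fin (W.r i) → W.D i)) :=
    {y | (∀ l, y l ∈ latL W i w ∧ ‖j (y l)‖ ≤ R) ∧ ¬ LinearIndependent (W.D i) y} with hYd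
  have hYc : Yd.Finite ∧ ((Yd.ncard : ℕ) : ℝ) ≤ C1 * R ^ e := by
    clear_value e
    subst hri
    exact hcd j (latL W i w) hδi hj2 hR1
  set TF : Finset (ι → Bool) := univ.filter fun v => Small_y H W i w v ∈ Yd with hTF
  have hT : (TF.card : ℝ) ≤ (C1 * R ^ e) * ((C2 * Real.sqrt (a / n)) ^ a *
      2 ^ Fintype.card ι) := by
    have h1 := card_eq_sum_card_image (Small_y H W i w) TF
    have h2 : (TF.card : ℝ) ≤ ∑ y ∈ TF.image (Small_y H W i w), ((C2 * Real.sqrt (a / n)) ^ a *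
        2 ^ Fintype.card ι) := by
      rw [h1]
      push_cast
      refine sum_le_sum fun y hy => ?_
      obtain ⟨v0, hv0, rfl⟩ := mem_image.1 hy
      have h3 := hsup H W i hi (W.comp i (H.el ℚ v0))
      rw [hai] at h3
      refine le_trans ?_ h3
      rw [← Set.ncard_coe_finset]
      have h4 : ((TF.filter fun v => Small_y H W i w v = Small_y H W i w v0 : Finset (ι → Bool)) :
          Set (ι → Bool)) ⊆ {v | W.comp i (H.el ℚ v) = W.comp i (H.el ℚ v0)} := by
        intro v hv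
        rw [mem_coe, mem_filter] at hv
        exact Small_inj H W i hw hv.2
      exact_mod_cast Set.ncard_le_ncard h4 (Set.toFinite _)
    rw [sum_const, nsmul_eq_mul] at h2
    refine h2.trans (mul_le_mul_of_nonneg_right ?_ (by positivity))
    refine le_trans ?_ hYc.2
    rw [← Set.ncard_coe_finset]
    have h5 : ((TF.image (Small_y H W i w) : Finset _) : Set _) ⊆ Yd := by
      intro y hy
      rw [mem_coe, mem_image] at hy
      obtain ⟨v, hv, rfl⟩ := hy
      exact (mem_filter.1 hv).2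
    exact_mod_cast Set.ncard_le_ncard h5 hYc.1
  -- the bad vectors
  have hsub : H.badI W i ⊆ ((univ.biUnion (fun l => univ.filter fun v : ι → Bool =>
      N * t ^ 2 < ‖j (Small_y H W i w v l)‖ ^ 2) ∪ TF : Finset (ι → Bool)) : Set (ι → Bool)) := by
    intro v hv
    rw [mem_coe, mem_union]
    by_cases h1 : ∃ l, N * t ^ 2 < ‖j (Small_y H W i w v l)‖ ^ 2
    · obtain ⟨l, hl⟩ := h1
      left
      exact mem_biUnion.2 ⟨l, mem_univ l, mem_filter.2 ⟨mem_univ v, hl⟩⟩
    · right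
      push Not at h1
      refine mem_filter.2 ⟨mem_univ v, fun l => ⟨Small_mem H W i w v l, ?_⟩, Small_bad H W i hw hv⟩
      exact Real.le_sqrt_of_sq_le (h1 l)
  have hcard : (((H.badI W i).ncard : ℕ) : ℝ) ≤ (r * (2 * N * n ^ (-2 : ℝ) *
      2 ^ Fintype.card ι)) + (C1 * R ^ e) * ((C2 * Real.sqrt (a / n)) ^ a *
      2 ^ Fintype.card ι) := by
    have h1 := Set.ncard_le_ncard hsub (Set.toFinite _)
    rw [Set.ncard_coe_finset] at h1
    have h2 := (h1.trans (card_union_le _ _))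
    have h3 : (((univ.biUnion (fun l => univ.filter fun v : ι → Bool =>
        N * t ^ 2 < ‖j (Small_y H W i w v l)‖ ^ 2)).card : ℕ) : ℝ) ≤
        r * (2 * N * n ^ (-2 : ℝ) * 2 ^ Fintype.card ι) := by
      have h4 : (((univ.biUnion (fun l => univ.filter fun v : ι → Bool =>
          N * t ^ 2 < ‖j (Small_y H W i w v l)‖ ^ 2)).card : ℕ) : ℝ) ≤
          ∑ l, ((univ.filter fun v : ι → Bool =>
            N * t ^ 2 < ‖j (Small_y H W i w v l)‖ ^ 2).card : ℝ) := by
        exact_mod_cast card_biUnion_le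
      refine h4.trans ((sum_le_sum fun l _ => hS l).trans ?_)
      rw [sum_const, card_univ, Fintype.card_fin, hri, nsmul_eq_mul]
    have h5 : (((H.badI W i).ncard : ℕ) : ℝ) ≤ (((univ.biUnion (fun l => univ.filter
        fun v : ι → Bool => N * t ^ 2 < ‖j (Small_y H W i w v l)‖ ^ 2)).card : ℕ) : ℝ) +
        (TF.card : ℝ) := by
      exact_mod_cast h2
    linarith
  refine hcard.trans ?_
  have hRe : R ^ e = (4 * N : ℝ) ^ (e / 2) * (n * Real.log n) ^ (e / 2) := by
    rw [hR, ht2, Real.sqrt_eq_rpow, ← Real.rpow_mul (by positivity),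
      ← Real.mul_rpow (by positivity) (by positivity)]
    congr 1
    · ring
    · ring
  have hpa := dm_pow (c := C2) hn0 a
  rw [hRe, hpa]
  have hae : (-(a : ℝ) / 2) = -((r : ℝ) ^ 2 * δ) / 2 := by
    rw [ha]
    push_cast
    ring
  rw [hae]
  set A := (n * Real.log n) ^ (e / 2) with hA
  set B := n ^ (-((r : ℝ) ^ 2 * δ) / 2) with hB
  set G := n ^ (-2 : ℝ) with hG
  have hAp : 0 ≤ A := by positivity
  have hBp : 0 ≤ B := by positivity
  have hGp : 0 ≤ G := by positivity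
  have h2p : (0 : ℝ) ≤ 2 ^ Fintype.card ι := by positivity
  have e1 : r * (2 * N * G * 2 ^ Fintype.card ι) + C1 * ((4 * N : ℝ) ^ (e / 2) * A) *
      ((C2 * Real.sqrt a) ^ a * B * 2 ^ Fintype.card ι) =
      (r * (2 * N) * G + C3 * A * B) * 2 ^ Fintype.card ι := by
    rw [hC3]
    ring
  rw [e1]
  refine mul_le_mul_of_nonneg_right ?_ h2p
  have h6 : r * (2 * N) * G ≤ (r * (2 * N) + C3) * G :=
    mul_le_mul_of_nonneg_right (by linarith) hGp
  have h7 : C3 * A * B ≤ (r * (2 * N) + C3) * A * B :=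
    mul_le_mul_of_nonneg_right (mul_le_mul_of_nonneg_right (by linarith) hAp) hBp
  linarith


/-- one pair `(r, δ)` -/
theorem Small_dep (Δ r δ : ℕ) : ∃ C : ℝ, 0 < C ∧ (2 ≤ r → 2 ≤ δ → r ≤ Δ →
    ∀ {G : Type u} [Group G] {ι : Type v} (H : Half G ι) [Fintype G] [Fintype ι] (W : WD ℚ G)
      (i : Fin W.m), H.Odd W i → W.r i = r →
      finrank ℚ (W.D i) = δ → 2 ≤ Fintype.card ι →
    (((H.badI W i).ncard : ℕ) : ℝ) ≤ C * (Fintype.card ι : ℝ) ^ (-(1 + 1 / (4 * ((Δ : ℝ) + 1)))) *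
      2 ^ Fintype.card ι) := by
  by_cases h : 2 ≤ r ∧ 2 ≤ δ ∧ r ≤ Δ
  swap
  · exact ⟨1, one_pos, fun h1 h2 h3 => absurd ⟨h1, h2, h3⟩ h⟩
  obtain ⟨hr, hδ, hΔ⟩ := h
  obtain ⟨C, hC, HH⟩ := badI_dep.{u, v} r δ hr hδ
  have hrR : (2 : ℝ) ≤ r := by exact_mod_cast hr
  have hδR : (2 : ℝ) ≤ δ := by exact_mod_cast hδ
  have hΔR : (r : ℝ) ≤ Δ := by exact_mod_cast hΔ
  have hr0 : (0 : ℝ) < r := by linarith
  have hir : 1 / (r : ℝ) ≤ 1 / 2 := one_div_le_one_div_of_le (by norm_num) hrR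
  have hir0 : 0 < 1 / (r : ℝ) := by positivity
  set c : ℝ := 1 / (4 * ((Δ : ℝ) + 1)) with hc
  have hc0 : 0 < c := by positivity
  have hcr : 4 * c ≤ 1 / (r : ℝ) := by
    have h1 : 4 * c = 1 / ((Δ : ℝ) + 1) := by rw [hc]; field_simp
    rw [h1]
    exact one_div_le_one_div_of_le hr0 (by linarith)
  have hA : 0 ≤ ((r : ℝ) ^ 2 * δ - δ - 1 / r) / 2 := by
    have h1 : 4 ≤ (r : ℝ) ^ 2 := by nlinarith
    have h2 : 4 * (δ : ℝ) ≤ (r : ℝ) ^ 2 * δ := mul_le_mul_of_nonneg_right h1 (by linarith)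
    linarith
  obtain ⟨K, hK, hKn⟩ := DSml_log (A := ((r : ℝ) ^ 2 * δ - δ - 1 / r) / 2)
    (B := (r : ℝ) ^ 2 * δ / 2) (c := c) (t := 1 + c) hA hc0 (by linarith)
  refine ⟨C + C * K, by positivity, fun _ _ _ => ?_⟩
  intro G _ ι H _ _ W i hi hri hfi hO
  have h1 := HH H W i hi hri hfi hO
  have hn1 : (1 : ℝ) ≤ Fintype.card ι := by exact_mod_cast (by omega : 1 ≤ Fintype.card ι)
  refine h1.trans (mul_le_mul_of_nonneg_right ?_ (by positivity))
  have h2 := hKn (Fintype.card ι) (by omega)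
  have h3 : (Fintype.card ι : ℝ) ^ (-2 : ℝ) ≤ (Fintype.card ι : ℝ) ^ (-(1 + c)) :=
    Real.rpow_le_rpow_of_exponent_le hn1 (by linarith)
  have h4 : -((r : ℝ) ^ 2 * δ) / 2 = -((r : ℝ) ^ 2 * δ / 2) := by ring
  rw [h4, mul_assoc C, add_mul, mul_assoc C K]
  exact add_le_add (mul_le_mul_of_nonneg_left h3 hC.le) (mul_le_mul_of_nonneg_left h2 hC.le)


/-- As `badI_small` in OD/DSml.lean. -/
theorem badI_small (Δ : ℕ) : ∃ C : ℝ, 0 < C ∧ ∃ c : ℝ, 0 < c ∧
    ∀ {G : Type u} [Group G] {ι : Type v} (H : Half G ι) [Fintype G] [Fintype ι] (W : WD ℚ G)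
      (i : Fin W.m), H.Odd W i → 2 ≤ finrank ℚ (W.D i) → 3 ≤ W.a i → W.a i ≤ Δ →
    (((H.badI W i).ncard : ℕ) : ℝ) ≤ C * (Fintype.card ι : ℝ) ^ (-(1 + c)) *
      2 ^ Fintype.card ι := by
  classical
  choose Cf hCf0 hCf using Small_dep.{u, v} Δ
  obtain ⟨C1, hC1, H1⟩ := badI_r_one.{u, v} Δ
  set S : ℝ := ∑ r ∈ range (Δ + 1), ∑ δ ∈ range (Δ + 1), Cf r δ with hS
  have hS0 : 0 ≤ S := sum_nonneg fun r _ => sum_nonneg fun δ _ => (hCf0 r δ).le
  have hSle : ∀ r δ, r ≤ Δ → δ ≤ Δ → Cf r δ ≤ S := by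
    intro r δ h1 h2
    have e1 : Cf r δ ≤ ∑ δ ∈ range (Δ + 1), Cf r δ :=
      single_le_sum (f := fun δ => Cf r δ) (fun x _ => (hCf0 r x).le)
        (mem_range.2 (by omega))
    have e2 : ∑ δ ∈ range (Δ + 1), Cf r δ ≤ S :=
      single_le_sum (f := fun r => ∑ δ ∈ range (Δ + 1), Cf r δ)
        (fun x _ => sum_nonneg fun y _ => (hCf0 x y).le) (mem_range.2 (by omega))
    exact e1.trans e2
  have hc0 : (0 : ℝ) < 1 / (4 * ((Δ : ℝ) + 1)) := by positivity
  have hc1 : (1 : ℝ) / (4 * ((Δ : ℝ) + 1)) ≤ 1 / 2 := by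
    refine one_div_le_one_div_of_le (by norm_num) ?_
    have : (0 : ℝ) ≤ Δ := Nat.cast_nonneg _
    linarith
  refine ⟨C1 + 1 + S, by positivity, 1 / (4 * ((Δ : ℝ) + 1)), hc0, ?_⟩
  intro G _ ι H _ _ W i hi h2 h3 hΔ
  haveI : Nonempty ι := ⟨H.π 1⟩
  have hcard : 1 ≤ Fintype.card ι := Fintype.card_pos
  have hn1 : (1 : ℝ) ≤ Fintype.card ι := by exact_mod_cast hcard
  have hpw : 0 ≤ (Fintype.card ι : ℝ) ^ (-(1 + 1 / (4 * ((Δ : ℝ) + 1)))) :=
    Real.rpow_nonneg (by linarith) _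
  have hr0 : W.r i ≠ 0 := (W.nz i).out
  rcases Nat.lt_or_ge (Fintype.card ι) 2 with hO | hO
  · have hO1 : Fintype.card ι = 1 := by omega
    have e1 : (H.badI W i).ncard ≤ 2 ^ Fintype.card ι := by
      have h := Set.ncard_le_card (H.badI W i)
      simpa using h
    have e2 : (((H.badI W i).ncard : ℕ) : ℝ) ≤ 2 ^ Fintype.card ι := by exact_mod_cast e1
    rw [hO1] at e2 ⊢
    rw [Nat.cast_one, Real.one_rpow, mul_one]
    have : (0 : ℝ) ≤ (C1 + S) * 2 ^ 1 := by positivity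
    linarith
  rcases Nat.lt_or_ge (W.r i) 2 with hr | hr
  · have hr1 : W.r i = 1 := by omega
    refine (H1 H W i hi hr1 h3 hΔ).trans ?_
    refine mul_le_mul_of_nonneg_right ?_ (by positivity)
    refine mul_le_mul (by linarith) ?_ (Real.rpow_nonneg (by linarith) _) (by positivity)
    exact Real.rpow_le_rpow_of_exponent_le hn1 (by linarith)
  · have ha : W.r i ^ 2 * finrank ℚ (W.D i) ≤ Δ := hΔ
    have hrΔ : W.r i ≤ Δ := by
      calc W.r i = W.r i * 1 * 1 := by ring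
        _ ≤ W.r i * W.r i * finrank ℚ (W.D i) := by
            exact Nat.mul_le_mul (Nat.mul_le_mul_left _ (by omega)) (by omega)
        _ = W.r i ^ 2 * finrank ℚ (W.D i) := by ring
        _ ≤ Δ := ha
    have hδΔ : finrank ℚ (W.D i) ≤ Δ := by
      refine le_trans ?_ ha
      exact Nat.le_mul_of_pos_left _ (by positivity)
    refine (hCf (W.r i) (finrank ℚ (W.D i)) hr h2 hrΔ H W i hi rfl rfl hO).trans ?_
    refine mul_le_mul_of_nonneg_right ?_ (by positivity)
    refine mul_le_mul_of_nonneg_right ?_ hpw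
    have := hSle _ _ hrΔ hδΔ
    linarith


end Half

end Pool.MP43e44c.GA
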