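import Pool.Agent.H.MP_43e44c_ag.GA.BigF
import Pool.Agent.H.MP_43e44c_ag.GA.Small
import Pool.Agent.H.MP_43e44c_ag.GA.RealD
import Pool.Agent.H.MP_43e44c_ag.GA.AsmG

/-!
Assembly of the upper bound for groups with a central involution.
-/

set_option autoImplicit false

open Finset Module

namespace Pool.MP43e44c.GA

open Pool.MP43e44c.OD

/-- Components of middle dimension, power saving. -/
def HypA : Prop := ∃ (Δ₀ : ℕ) (c₁ c₀ C : ℝ), 0 < c₁ ∧ 0 < c₀ ∧ 0 < C ∧
  ∀ {G : Type} [Group G] {ι : Type} (H : Half G ι) [Fintype G] [Fintype ι] (W : WD ℚ G)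
    (i : Fin W.m), H.Odd W i → W.f i ≤ 2 → Δ₀ ≤ W.a i →
    (W.a i : ℝ) ≤ (Fintype.card ι : ℝ) ^ c₁ →
    (((H.badI W i).ncard : ℕ) : ℝ) ≤ C * (Fintype.card ι : ℝ) ^ (-(1 + c₀)) * 2 ^ Fintype.card ι

/-- Components of middle dimension. -/
def HypB : Prop := ∀ c₁ : ℝ, 0 < c₁ → ∃ C : ℝ, 0 < C ∧
  ∀ {G : Type} [Group G] {ι : Type} (H : Half G ι) [Fintype G] [Fintype ι] (W : WD ℚ G)
    (i : Fin W.m), H.Odd W i → W.f i ≤ 2 → (Fintype.card ι : ℝ) ^ c₁ ≤ W.a i →
    (W.a i : ℝ) ≤ (Fintype.card ι : ℝ) ^ (4 / 5 : ℝ) →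
    (((H.badI W i).ncard : ℕ) : ℝ) ≤ C * (W.a i : ℝ) ^ (3 / 4 : ℝ) *
      (Real.log (Fintype.card ι)) ^ 4 / Fintype.card ι * 2 ^ Fintype.card ι

/-- Components which are matrix algebras of size two over the rationals. -/
def HypS2 : Prop := ∃ C : ℝ, 0 < C ∧
  ∀ {G : Type} [Group G] {ι : Type} (H : Half G ι) [Fintype G] [Fintype ι] (W : WD ℚ G)
    (i : Fin W.m), H.Odd W i → W.r i = 2 → finrank ℚ (W.D i) = 1 → 2 ≤ Fintype.card ι →
    (((H.badI W i).ncard : ℕ) : ℝ) ≤ C * Real.log (Fintype.card ι) / Fintype.card ι *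
      2 ^ Fintype.card ι

/-- Components which are matrix algebras of size at least three over the rationals. -/
def HypS3 : Prop := ∀ r : ℕ, 3 ≤ r → ∃ c C : ℝ, 0 < c ∧ 0 < C ∧
  ∀ {G : Type} [Group G] {ι : Type} (H : Half G ι) [Fintype G] [Fintype ι] (W : WD ℚ G)
    (i : Fin W.m), H.Odd W i → W.r i = r → finrank ℚ (W.D i) = 1 →
    (((H.badI W i).ncard : ℕ) : ℝ) ≤ C * (Fintype.card ι : ℝ) ^ (-(1 + c)) * 2 ^ Fintype.card ι

theorem FinG_mono {n : ℕ} (hn : 1 ≤ n) {C C' c c' : ℝ} (hC0 : 0 ≤ C) (hC : C ≤ C') (hc : c' ≤ c) :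
    C * (n : ℝ) ^ (-(1 + c)) ≤ C' * (n : ℝ) ^ (-(1 + c')) := by
  have h1 : (1 : ℝ) ≤ n := by exact_mod_cast hn
  have h2 : (n : ℝ) ^ (-(1 + c)) ≤ (n : ℝ) ^ (-(1 + c')) :=
    Real.rpow_le_rpow_of_exponent_le h1 (by linarith)
  have h3 : 0 ≤ (n : ℝ) ^ (-(1 + c)) := Real.rpow_nonneg (by linarith) _
  have h4 : 0 ≤ (n : ℝ) ^ (-(1 + c')) := Real.rpow_nonneg (by linarith) _
  exact mul_le_mul hC h2 h3 (hC0.trans hC)

/-- `HypS3` with uniform constants for bounded `r`. -/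
theorem FinG_S3 (hS3 : HypS3) (Δ : ℕ) : ∃ c C : ℝ, 0 < c ∧ 0 < C ∧
    ∀ {G : Type} [Group G] {ι : Type} (H : Half G ι) [Fintype G] [Fintype ι] (W : WD ℚ G)
      (i : Fin W.m), 1 ≤ Fintype.card ι → H.Odd W i → 3 ≤ W.r i → W.r i ≤ Δ →
    finrank ℚ (W.D i) = 1 →
    (((H.badI W i).ncard : ℕ) : ℝ) ≤ C * (Fintype.card ι : ℝ) ^ (-(1 + c)) *
      2 ^ Fintype.card ι := by
  induction Δ with
  | zero =>
    refine ⟨1, 1, one_pos, one_pos, ?_⟩
    intro G _ ι H _ _ W i _ _ h1 h2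
    omega
  | succ Δ ih =>
    obtain ⟨c, C, hc, hC, ih⟩ := ih
    by_cases h3 : 3 ≤ Δ + 1
    · obtain ⟨c', C', hc', hC', h⟩ := hS3 (Δ + 1) h3
      refine ⟨min c c', max C C', lt_min hc hc', lt_max_of_lt_left hC, ?_⟩
      intro G _ ι H _ _ W i hn hi hr1 hr2 hD
      have hpow : (0 : ℝ) ≤ 2 ^ Fintype.card ι := by positivity
      rcases Nat.lt_or_ge (W.r i) (Δ + 1) with h4 | h4
      · refine (ih H W i hn hi hr1 (by omega) hD).trans ?_
        exact mul_le_mul_of_nonneg_right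
          (FinG_mono hn hC.le (le_max_left _ _) (min_le_left _ _)) hpow
      · have h5 : W.r i = Δ + 1 := le_antisymm hr2 h4
        refine (h H W i hi h5 hD).trans ?_
        exact mul_le_mul_of_nonneg_right
          (FinG_mono hn hC'.le (le_max_right _ _) (min_le_right _ _)) hpow
    · refine ⟨c, C, hc, hC, ?_⟩
      intro G _ ι H _ _ W i hn hi hr1 hr2 hD
      omega

/-- The bounds for the components. -/
theorem FinG_bnd (hA : HypA) (hB : HypB) (hS3 : HypS3) :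
    ∃ (C₀ c₀ c₁ : ℝ) (Δ₀ : ℕ), 0 < C₀ ∧ 0 < c₀ ∧ 0 < c₁ ∧
    ∀ {G : Type} [Group G] {ι : Type} (H : Half G ι) [Fintype G] [Fintype ι] (W : WD ℚ G)
      (i : Fin W.m), 2 ≤ Fintype.card ι → H.Odd W i → 3 ≤ W.a i →
      ¬ (W.r i = 2 ∧ finrank ℚ (W.D i) = 1) →
    BndG C₀ c₀ c₁ Δ₀ (Fintype.card ι) (W.a i) (W.f i)
      ((((H.badI W i).ncard : ℕ) : ℝ) / 2 ^ Fintype.card ι) := by
  obtain ⟨Δ₀, c₁, cA, CA, hc₁, hcA, hCA, hA⟩ := hA
  obtain ⟨CB, hCB, hB⟩ := hB c₁ hc₁
  obtain ⟨CL, hCL, hL⟩ := Half.badI_large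
  obtain ⟨CR, hCR, hR⟩ := Half.badI_real CL
  obtain ⟨CS, hCS, cS, hcS, hS⟩ := Half.badI_small Δ₀
  obtain ⟨c3, C3, hc3, hC3, h3⟩ := FinG_S3 hS3 Δ₀
  refine ⟨CA + CB + CL + CR + CS + C3, min cA (min cS c3), c₁, Δ₀, by positivity,
    lt_min hcA (lt_min hcS hc3), hc₁, ?_⟩
  intro G _ ι H _ _ W i hn hi ha h2
  have hn1 : 1 ≤ Fintype.card ι := by omega
  have hnr : (1 : ℝ) ≤ Fintype.card ι := by exact_mod_cast hn1
  have hpow : (0 : ℝ) < 2 ^ Fintype.card ι := by positivity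
  have hdiv : ∀ {x : ℝ}, (((H.badI W i).ncard : ℕ) : ℝ) ≤ x * 2 ^ Fintype.card ι →
      (((H.badI W i).ncard : ℕ) : ℝ) / 2 ^ Fintype.card ι ≤ x := by
    intro x h
    rwa [div_le_iff₀ hpow]
  have hlog : 0 ≤ Real.log (Fintype.card ι) := Real.log_nonneg hnr
  refine ⟨by positivity, ?_, W.f_pos i, W.f_le_a i, ?_, ?_, ?_, ?_, ?_⟩
  · apply hdiv
    rw [one_mul]
    have h1 : (H.badI W i).ncard ≤ 2 ^ Fintype.card ι := by
      classical
      refine (Set.ncard_le_card _).trans (le_of_eq ?_)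
      rw [Nat.card_eq_fintype_card, Fintype.card_fun, Fintype.card_bool]
    exact_mod_cast h1
  · intro p hp hp2 hpn h
    have : Fact p.Prime := ⟨hp⟩
    apply hdiv
    refine H.badI_le_B hp2 ?_ W hi h
    rw [H.card_eq, hp.dvd_mul]
    rintro (h4 | h4)
    · exact hp2 ((Nat.prime_dvd_prime_iff_eq hp Nat.prime_two).mp h4)
    · exact hpn h4
  · intro h
    have h4 : CL * Real.log (Fintype.card ι) ≤ W.f i := by
      refine le_trans ?_ h
      apply mul_le_mul_of_nonneg_right _ hlog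
      linarith
    rcases hL H W i hi h4 with h5 | h5
    · left
      refine (hdiv h5).trans ?_
      apply mul_le_mul_of_nonneg_right _ (Real.rpow_nonneg (by linarith) _)
      linarith
    · right
      constructor
      · refine h5.trans ?_
        apply mul_le_mul_of_nonneg_right _ (Nat.cast_nonneg _)
        linarith
      · refine (hdiv (hR H W i hi h5)).trans ?_
        apply mul_le_mul_of_nonneg_right _ (Real.rpow_nonneg (by linarith) _)
        linarith
  · intro hf h4 h5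
    refine (hdiv (hA H W i hi hf h4 h5)).trans ?_
    exact FinG_mono hn1 hCA.le (by linarith) (min_le_left _ _)
  · intro hf h4 h5
    refine (hdiv (hB H W i hi hf h4 h5)).trans ?_
    rw [mul_div_assoc, mul_div_assoc]
    apply mul_le_mul_of_nonneg_right
    · apply mul_le_mul_of_nonneg_right
      · linarith
      · exact Real.rpow_nonneg (Nat.cast_nonneg _) _
    · positivity
  · intro _ h4
    have h5 : finrank ℚ (W.D i) ≠ 0 := by
      have h6 := W.f_le_finrank i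
      have h7 := W.f_pos i
      omega
    rcases Nat.lt_or_ge (finrank ℚ (W.D i)) 2 with h6 | h6
    · have h7 : finrank ℚ (W.D i) = 1 := by omega
      have h8 : W.a i = W.r i ^ 2 := by
        unfold WD.a
        rw [h7, mul_one]
      have h9 : 3 ≤ W.r i := by
        by_contra h10
        have h11 : W.r i = 0 ∨ W.r i = 1 ∨ W.r i = 2 := by omega
        rcases h11 with h11 | h11 | h11
        · rw [h8, h11] at ha
          norm_num at ha
        · rw [h8, h11] at ha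
          norm_num at ha
        · exact h2 ⟨h11, h7⟩
      have h10 : W.r i ≤ Δ₀ := by
        refine le_trans ?_ h4
        rw [h8]
        nlinarith
      refine (hdiv (h3 H W i hn1 hi h9 h10 h7)).trans ?_
      exact FinG_mono hn1 hC3.le (by linarith)
        ((min_le_right _ _).trans (min_le_right _ _))
    · refine (hdiv (hS H W i hi h6 ha h4)).trans ?_
      exact FinG_mono hn1 hCS.le (by linarith)
        ((min_le_right _ _).trans (min_le_left _ _))

/-- The group theoretic form.  PROOF. `Δ₀, c₁, c₀` from `HypA`; `bad_subset`; the components with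
`a = 1`: `badI_a_one`, `a = 2`: `badI_a_two`, `r = 2, finrank D = 1`: `HypS2`; those of the other
components with `a ≤ Δ₀` are bounded by `badI_small` (`finrank D ≥ 2`) and `HypS3` (finitely many `r`),
so all conditions of `BndG` hold (`badI_le_B`: `p ∤ card ι`, `p ≠ 2` implies `p ∤ card G`; `badI_large`,
`badI_real`; `f_pos`, `f_le_a`); `assembleG` with the set of the other odd components, `sum_odd_a`. -/
theorem group_upper (hA : HypA) (hB : HypB) (hS2 : HypS2) (hS3 : HypS3) :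
    ∃ C c : ℝ, 0 < C ∧ 0 < c ∧ ∀ {G : Type} [Group G] {ι : Type} (H : Half G ι) [Fintype G]
      [Fintype ι] (W : WD ℚ G), 2 ≤ Fintype.card ι →
    ((H.bad.ncard : ℕ) : ℝ) ≤ (C * (
        {i : Fin W.m | H.Odd W i ∧ W.a i = 1 ∧ (H.badI W i).Nonempty}.ncard
          / Real.sqrt (Fintype.card ι)
        + {i : Fin W.m | H.Odd W i ∧ W.a i = 2 ∧ (H.badI W i).Nonempty}.ncard / Fintype.card ι
        + {i : Fin W.m | H.Odd W i ∧ W.r i = 2 ∧ finrank ℚ (W.D i) = 1}.ncard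
          * Real.log (Fintype.card ι) / Fintype.card ι)
        + C * (Fintype.card ι : ℝ) ^ (-c)) * 2 ^ Fintype.card ι := by
  classical
  obtain ⟨C₀, c₀, c₁, Δ₀, hC₀, hc₀, hc₁, hbnd⟩ := FinG_bnd hA hB hS3
  obtain ⟨C, c, hC, hc, hasm⟩ := assembleG hC₀ hc₀ hc₁ Δ₀
  obtain ⟨C1, hC1, h1⟩ := Half.badI_a_one.{0, 0}
  obtain ⟨C2, hC2, h2⟩ := Half.badI_a_two.{0, 0}
  obtain ⟨C3, hC3, h3⟩ := hS2
  refine ⟨C + C1 + C2 + C3, c, by positivity, hc, ?_⟩
  intro G _ ι H _ _ W hn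
  have hn1 : 1 ≤ Fintype.card ι := by omega
  have hnr : (1 : ℝ) ≤ Fintype.card ι := by exact_mod_cast hn1
  have hpow : (0 : ℝ) < 2 ^ Fintype.card ι := by positivity
  have hlog : 0 ≤ Real.log (Fintype.card ι) := Real.log_nonneg hnr
  set b : Fin W.m → ℝ := fun i => (((H.badI W i).ncard : ℕ) : ℝ) with hb
  have hb0 : ∀ i, 0 ≤ b i := fun i => Nat.cast_nonneg _
  set S : Finset (Fin W.m) := univ.filter fun i => H.Odd W i with hS
  set S1 := S.filter fun i => W.a i = 1 ∧ (H.badI W i).Nonempty with hS1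
  set S2 := S.filter fun i => W.a i = 2 ∧ (H.badI W i).Nonempty with hS2
  set S3 := S.filter fun i => W.r i = 2 ∧ finrank ℚ (W.D i) = 1 with hS3
  set S4 := S.filter fun i => 3 ≤ W.a i ∧ ¬ (W.r i = 2 ∧ finrank ℚ (W.D i) = 1) with hS4
  have hsum : ((H.bad.ncard : ℕ) : ℝ) ≤ ∑ i ∈ S, b i := by
    have h4 : H.bad.ncard ≤ ∑ i ∈ S, (H.badI W i).ncard := by
      refine (Set.ncard_le_ncard (H.bad_subset W) (Set.toFinite _)).trans ?_
      have h5 : (⋃ i ∈ {i : Fin W.m | H.Odd W i}, H.badI W i) = ⋃ i ∈ S, H.badI W i := by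
        ext v
        simp [hS]
      rw [h5]
      exact Finset.set_ncard_biUnion_le S fun i => H.badI W i
    have h5 : ((H.bad.ncard : ℕ) : ℝ) ≤ ((∑ i ∈ S, (H.badI W i).ncard : ℕ) : ℝ) := by
      exact_mod_cast h4
    rwa [Nat.cast_sum] at h5
  have hsplit : ∑ i ∈ S, b i ≤ ∑ i ∈ S1, b i + ∑ i ∈ S2, b i + ∑ i ∈ S3, b i + ∑ i ∈ S4, b i := by
    have g1 : ∑ i ∈ S1, b i =
        ∑ i ∈ S, (if W.a i = 1 ∧ (H.badI W i).Nonempty then b i else 0) := sum_filter _ _
    have g2 : ∑ i ∈ S2, b i =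
        ∑ i ∈ S, (if W.a i = 2 ∧ (H.badI W i).Nonempty then b i else 0) := sum_filter _ _
    have g3 : ∑ i ∈ S3, b i =
        ∑ i ∈ S, (if W.r i = 2 ∧ finrank ℚ (W.D i) = 1 then b i else 0) := sum_filter _ _
    have g4 : ∑ i ∈ S4, b i =
        ∑ i ∈ S, (if 3 ≤ W.a i ∧ ¬ (W.r i = 2 ∧ finrank ℚ (W.D i) = 1) then b i else 0) :=
      sum_filter _ _
    rw [g1, g2, g3, g4, ← sum_add_distrib, ← sum_add_distrib, ← sum_add_distrib]
    refine sum_le_sum fun i hi => ?_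
    have hnn1 : 0 ≤ (if W.a i = 1 ∧ (H.badI W i).Nonempty then b i else 0) := by
      split_ifs
      · exact hb0 i
      · exact le_refl _
    have hnn2 : 0 ≤ (if W.a i = 2 ∧ (H.badI W i).Nonempty then b i else 0) := by
      split_ifs
      · exact hb0 i
      · exact le_refl _
    have hnn3 : 0 ≤ (if W.r i = 2 ∧ finrank ℚ (W.D i) = 1 then b i else 0) := by
      split_ifs
      · exact hb0 i
      · exact le_refl _
    have hnn4 : 0 ≤ (if 3 ≤ W.a i ∧ ¬ (W.r i = 2 ∧ finrank ℚ (W.D i) = 1) then b i else 0) := by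
      split_ifs
      · exact hb0 i
      · exact le_refl _
    by_cases hne : (H.badI W i).Nonempty
    · have ha : 1 ≤ W.a i := (W.f_pos i).trans_le (W.f_le_a i)
      rcases Nat.lt_or_ge (W.a i) 2 with h4 | h4
      · have h5 : W.a i = 1 := by omega
        rw [if_pos (⟨h5, hne⟩ : W.a i = 1 ∧ _)]
        linarith
      · rcases Nat.lt_or_ge (W.a i) 3 with h5 | h5
        · have h6 : W.a i = 2 := by omega
          rw [if_pos (⟨h6, hne⟩ : W.a i = 2 ∧ _)]
          linarith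
        · by_cases h6 : W.r i = 2 ∧ finrank ℚ (W.D i) = 1
          · rw [if_pos h6]
            linarith
          · rw [if_pos (⟨h5, h6⟩ : 3 ≤ W.a i ∧ _)]
            linarith
    · have h4 : b i = 0 := by
        rw [hb]
        simp only [Nat.cast_eq_zero]
        rw [Set.not_nonempty_iff_eq_empty.mp hne, Set.ncard_empty]
      linarith
  have hc1 : (S1.card : ℝ) =
      {i : Fin W.m | H.Odd W i ∧ W.a i = 1 ∧ (H.badI W i).Nonempty}.ncard := by
    rw [← Set.ncard_coe_finset]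
    congr 2
    ext i
    simp [hS1, hS]
  have hc2 : (S2.card : ℝ) =
      {i : Fin W.m | H.Odd W i ∧ W.a i = 2 ∧ (H.badI W i).Nonempty}.ncard := by
    rw [← Set.ncard_coe_finset]
    congr 2
    ext i
    simp [hS2, hS]
  have hc3 : (S3.card : ℝ) =
      {i : Fin W.m | H.Odd W i ∧ W.r i = 2 ∧ finrank ℚ (W.D i) = 1}.ncard := by
    rw [← Set.ncard_coe_finset]
    congr 2
    ext i
    simp [hS3, hS]
  rw [← hc1, ← hc2, ← hc3]
  have e1 : ∑ i ∈ S1, b i ≤ S1.card * (C1 / Real.sqrt (Fintype.card ι) * 2 ^ Fintype.card ι) := by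
    rw [← nsmul_eq_mul]
    refine sum_le_card_nsmul S1 _ _ fun i hi => ?_
    rw [hS1, mem_filter, hS, mem_filter] at hi
    exact h1 H W i hi.1.2 hi.2.1
  have e2 : ∑ i ∈ S2, b i ≤ S2.card * (C2 / Fintype.card ι * 2 ^ Fintype.card ι) := by
    rw [← nsmul_eq_mul]
    refine sum_le_card_nsmul S2 _ _ fun i hi => ?_
    rw [hS2, mem_filter, hS, mem_filter] at hi
    exact h2 H W i hi.1.2 hi.2.1
  have e3 : ∑ i ∈ S3, b i ≤ S3.card * (C3 * Real.log (Fintype.card ι) / Fintype.card ι *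
      2 ^ Fintype.card ι) := by
    rw [← nsmul_eq_mul]
    refine sum_le_card_nsmul S3 _ _ fun i hi => ?_
    rw [hS3, mem_filter, hS, mem_filter] at hi
    exact h3 H W i hi.1.2 hi.2.1 hi.2.2 hn
  have e4 : ∑ i ∈ S4, b i ≤ C * (Fintype.card ι : ℝ) ^ (-c) * 2 ^ Fintype.card ι := by
    have h4 := hasm (Fintype.card ι) hn1 S4 W.a W.f (fun i => b i / 2 ^ Fintype.card ι) (by
      have h5 := H.sum_odd_a (k := ℚ) two_ne_zero W
      rw [← h5]
      refine sum_le_sum_of_subset ?_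
      rw [hS4, hS]
      exact filter_subset _ _) (by
      intro i hi
      rw [hS4, mem_filter, hS, mem_filter] at hi
      exact hbnd H W i hn hi.1.2 hi.2.1 hi.2.2)
    rw [← sum_div, div_le_iff₀ hpow] at h4
    exact h4
  have hsq : 0 < Real.sqrt (Fintype.card ι) := Real.sqrt_pos.mpr (by linarith)
  have hr : 0 ≤ (Fintype.card ι : ℝ) ^ (-c) := Real.rpow_nonneg (by linarith) _
  refine hsum.trans (hsplit.trans ?_)
  have f1 : S1.card * (C1 / Real.sqrt (Fintype.card ι) * 2 ^ Fintype.card ι) ≤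
      (C + C1 + C2 + C3) * (S1.card / Real.sqrt (Fintype.card ι)) * 2 ^ Fintype.card ι := by
    have h4 : S1.card * (C1 / Real.sqrt (Fintype.card ι) * 2 ^ Fintype.card ι) =
      C1 * (S1.card / Real.sqrt (Fintype.card ι)) * 2 ^ Fintype.card ι := by ring
    rw [h4]
    apply mul_le_mul_of_nonneg_right _ hpow.le
    apply mul_le_mul_of_nonneg_right _ (by positivity)
    linarith
  have f2 : S2.card * (C2 / Fintype.card ι * 2 ^ Fintype.card ι) ≤
      (C + C1 + C2 + C3) * (S2.card / Fintype.card ι) * 2 ^ Fintype.card ι := by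
    have h4 : S2.card * (C2 / Fintype.card ι * 2 ^ Fintype.card ι) =
      C2 * (S2.card / Fintype.card ι) * 2 ^ Fintype.card ι := by ring
    rw [h4]
    apply mul_le_mul_of_nonneg_right _ hpow.le
    apply mul_le_mul_of_nonneg_right _ (by positivity)
    linarith
  have f3 : S3.card * (C3 * Real.log (Fintype.card ι) / Fintype.card ι * 2 ^ Fintype.card ι) ≤
      (C + C1 + C2 + C3) * (S3.card * Real.log (Fintype.card ι) / Fintype.card ι) *
        2 ^ Fintype.card ι := by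
    have h4 : S3.card * (C3 * Real.log (Fintype.card ι) / Fintype.card ι * 2 ^ Fintype.card ι) =
      C3 * (S3.card * Real.log (Fintype.card ι) / Fintype.card ι) * 2 ^ Fintype.card ι := by ring
    rw [h4]
    apply mul_le_mul_of_nonneg_right _ hpow.le
    apply mul_le_mul_of_nonneg_right _ (by positivity)
    linarith
  have f4 : C * (Fintype.card ι : ℝ) ^ (-c) * 2 ^ Fintype.card ι ≤
      (C + C1 + C2 + C3) * (Fintype.card ι : ℝ) ^ (-c) * 2 ^ Fintype.card ι := by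
    apply mul_le_mul_of_nonneg_right _ hpow.le
    apply mul_le_mul_of_nonneg_right _ hr
    linarith
  have hfin : (C + C1 + C2 + C3) * (S1.card / Real.sqrt (Fintype.card ι)) * 2 ^ Fintype.card ι +
      (C + C1 + C2 + C3) * (S2.card / Fintype.card ι) * 2 ^ Fintype.card ι +
      (C + C1 + C2 + C3) * (S3.card * Real.log (Fintype.card ι) / Fintype.card ι) *
        2 ^ Fintype.card ι +
      (C + C1 + C2 + C3) * (Fintype.card ι : ℝ) ^ (-c) * 2 ^ Fintype.card ι =
      ((C + C1 + C2 + C3) * (S1.card / Real.sqrt (Fintype.card ι) + S2.card / Fintype.card ι +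
        S3.card * Real.log (Fintype.card ι) / Fintype.card ι) +
        (C + C1 + C2 + C3) * (Fintype.card ι : ℝ) ^ (-c)) * 2 ^ Fintype.card ι := by
    ring
  rw [← hfin]
  linarith

end Pool.MP43e44c.GA
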