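import Pool.Agent.H.MP_43e44c_ag.GA.Def
import Pool.Agent.H.MP_43e44c_ag.OD.Bel2
import Pool.Agent.H.MP_43e44c_ag.OD.Fp

/-!
The odd components of the group algebra of a group with a central involution.
-/

set_option autoImplicit false

open Finset Module

namespace Pool.MP43e44c.GA

open Pool.MP43e44c.OD

universe u v

namespace Half

variable {G : Type u} [Group G] {ι : Type v} (H : Half G ι)

theorem cc_mul_cc (R : Type*) [CommRing R] : H.cc R * H.cc R = 1 := by
  unfold cc
  rw [MonoidAlgebra.single_mul_single, H.sq, mul_one, MonoidAlgebra.one_def]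

variable [Fintype G]

/-- `MonoidAlgebra.induction_linear` or `ma_ext`. -/
theorem cc_central (R : Type*) [CommRing R] (x : MonoidAlgebra R G) :
    H.cc R * x = x * H.cc R := by
  unfold cc
  induction x using MonoidAlgebra.induction_linear with
  | zero => rw [mul_zero, zero_mul]
  | add a b ha hb => rw [mul_add, add_mul, ha, hb]
  | single a r =>
    rw [MonoidAlgebra.single_mul_single, MonoidAlgebra.single_mul_single, H.cen, mul_comm r]

theorem odd_coeff {R : Type*} [CommRing R] (y : MonoidAlgebra R G) (g : G) :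
    (y * H.cc R).coeff g = y.coeff (g * H.c) := by
  unfold cc
  have h1 : g = g * H.c * H.c := (H.mul_c_c g).symm
  conv_lhs => rw [h1]
  rw [MonoidAlgebra.coeff_mul_single_apply]
  simp [H.c_inv, H.mul_c_c]

/-- `cc` is central with square `1`: its components are scalars `ζ` (`WD.comp_central`) with
`ζ ^ 2 = 1`. -/
theorem comp_cc {k : Type} [Field k] (W : WD k G) (i : Fin W.m) :
    W.comp i (H.cc k) = 1 ∨ W.comp i (H.cc k) = -1 := by
  obtain ⟨ζ, hζ, h⟩ := W.comp_central i (H.cc_central k)
  have h1 : W.comp i (H.cc k) * W.comp i (H.cc k) = 1 := by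
    rw [← map_mul, cc_mul_cc, map_one]
  have i0 : Fin (W.r i) := ⟨0, Nat.pos_of_ne_zero (NeZero.ne (W.r i))⟩
  rw [h, Matrix.diagonal_mul_diagonal] at h1
  have h2 : ζ * ζ = 1 := by
    have h3 := congrFun (congrFun h1 i0) i0
    rw [Matrix.diagonal_apply_eq, Matrix.one_apply_eq] at h3
    exact h3
  rcases mul_self_eq_one_iff.mp h2 with h4 | h4
  · left
    rw [h, h4, ← Matrix.diagonal_one]
  · right
    rw [h, h4, ← Matrix.diagonal_one, ← Matrix.diagonal_neg]

theorem odd_single {k : Type} [Field k] {W : WD k G} {i : Fin W.m} (hi : H.Odd W i) (g : G)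
    (a : k) : W.comp i (MonoidAlgebra.single (g * H.c) a)
      = -W.comp i (MonoidAlgebra.single g a) := by
  have h1 : (MonoidAlgebra.single (g * H.c) a : MonoidAlgebra k G)
      = MonoidAlgebra.single g a * H.cc k := by
    unfold cc
    rw [MonoidAlgebra.single_mul_single, mul_one]
  unfold Odd at hi
  rw [h1, map_mul, hi, mul_neg, mul_one]

variable [Fintype ι]

omit [Fintype ι] in
theorem odd_smul {k : Type} [Field k] (W : WD k G) {S : Finset (Fin W.m)} {ε : k}
    (hS : ∀ j ∈ S, W.comp j (H.cc k) = ε • 1) {x : MonoidAlgebra k G}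
    (hx : ∀ j, j ∉ S → W.comp j x = 0) : x * H.cc k = ε • x := by
  apply W.comp_inj
  intro j
  rw [map_mul, map_smul]
  by_cases hj : j ∈ S
  · rw [hS j hj, mul_smul_comm, mul_one]
  · rw [hx j hj, zero_mul, smul_zero]

/-- The components on which the involution acts as a fixed scalar. -/
theorem odd_sum_le {k : Type} [Field k] (W : WD k G) (S : Finset (Fin W.m)) (ε : k)
    (hS : ∀ j ∈ S, W.comp j (H.cc k) = ε • 1) : ∑ j ∈ S, W.a j ≤ Fintype.card ι := by
  classical
  let Φ : (Π j : S, W.algE j) →ₗ[k] MonoidAlgebra k G :=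
    ∑ j : S, (W.algE j).subtype.comp (LinearMap.proj j)
  have hΦ : ∀ w, Φ w = ∑ j : S, (w j : MonoidAlgebra k G) := by
    intro w
    simp [Φ]
  have hinj : Function.Injective Φ := by
    rw [injective_iff_map_eq_zero]
    intro w hw
    funext j
    apply Subtype.ext
    have h1 := congrArg (fun z => z * W.e j) hw
    simp only [zero_mul] at h1
    rw [hΦ, sum_mul, sum_eq_single j] at h1
    · have h2 : (w j : MonoidAlgebra k G) * W.e j = w j := (w j).2
      rw [h2] at h1
      exact h1
    · intro l _ hl
      have h2 : (w l : MonoidAlgebra k G) * W.e l = w l := (w l).2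
      rw [← h2, mul_assoc, W.e_mul_ne, mul_zero]
      intro h3
      exact hl (Subtype.ext h3)
    · intro h
      exact absurd (mem_univ j) h
  let Ψ : MonoidAlgebra k G →ₗ[k] (ι → k) :=
    { toFun := fun x i => x.coeff (H.t i)
      map_add' := fun x y => rfl
      map_smul' := fun r x => rfl }
  have hΨ : Function.Injective (Ψ.comp Φ) := by
    rw [injective_iff_map_eq_zero]
    intro w hw
    apply hinj
    rw [map_zero]
    have h1 : Φ w * H.cc k = ε • Φ w := by
      apply H.odd_smul W hS
      intro j hj
      rw [hΦ, map_sum]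
      refine sum_eq_zero fun l _ => ?_
      have h2 : (w l : MonoidAlgebra k G) * W.e l = w l := (w l).2
      apply (W.mul_e_iff l _).mp h2
      rintro rfl
      exact hj l.2
    have h2 : ∀ g, (Φ w).coeff (g * H.c) = ε * (Φ w).coeff g := by
      intro g
      rw [← odd_coeff, h1]
      rfl
    have h3 : ∀ i, (Φ w).coeff (H.t i) = 0 := fun i => congrFun hw i
    apply ma_ext
    intro g
    rcases H.t_π g with h4 | h4
    · rw [← h4, h3]
      rfl
    · have h5 : g = H.t (H.π g) * H.c := by rw [h4, H.mul_c_c]
      rw [h5, h2, h3, mul_zero]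
      rfl
  have h1 := LinearMap.finrank_le_finrank_of_injective hΨ
  rw [finrank_pi_fintype, finrank_fintype_fun_eq_card] at h1
  have h2 : ∑ j : S, finrank k (W.algE j) = ∑ j ∈ S, W.a j := by
    rw [← sum_coe_sort S]
    exact sum_congr rfl fun j _ => W.finrank_algE j
  rwa [h2] at h1

open Classical in
/-- PROOF. The space `V` of the `x` with `x * cc = - x` has dimension `card ι` (`x` is determined by its
coefficients at the representatives `t i`, which are arbitrary).  Under `W.φ` it corresponds to the
product of the components with `comp i cc = -1` (in the other components `comp i cc = 1` and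
`comp i x = - comp i x`, and `2 ≠ 0`).  Alternatively: both this sum and the sum of `W.a i` over the
components with `comp i cc = 1` are at most `card ι` (same argument with the sign `+`), and the total
is `2 * card ι` (`sum_a`, `card_eq`). -/
theorem sum_odd_a {k : Type} [Field k] (h2 : (2 : k) ≠ 0) (W : WD k G) :
    ∑ i ∈ univ.filter (fun i : Fin W.m => H.Odd W i), W.a i = Fintype.card ι := by
  have h1 := H.odd_sum_le W (univ.filter fun i : Fin W.m => H.Odd W i) (-1) (by
    intro j hj
    have h3 : H.Odd W j := (mem_filter.mp hj).2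
    unfold Odd at h3
    rw [h3, neg_smul, one_smul])
  have h3 := H.odd_sum_le W (univ.filter fun i : Fin W.m => ¬ H.Odd W i) 1 (by
    intro j hj
    have h3 : ¬ H.Odd W j := (mem_filter.mp hj).2
    unfold Odd at h3
    rw [one_smul]
    exact (H.comp_cc W j).resolve_right h3)
  have h4 : ∑ i, W.a i = 2 * Fintype.card ι := by
    rw [W.sum_a, H.card_eq]
  rw [← sum_filter_add_sum_filter_not univ (fun i : Fin W.m => H.Odd W i)] at h4
  omega

/-- If `x * cc = - x ≠ 0` then some component of `x` is not zero, and its index is odd. -/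
theorem bad_subset (W : WD ℚ G) : H.bad ⊆ ⋃ i ∈ {i : Fin W.m | H.Odd W i}, H.badI W i := by
  rintro v ⟨x, hx, hx0, hxv⟩
  have h1 : ∃ i, W.comp i x ≠ 0 := by
    by_contra h
    push Not at h
    apply hx0
    apply W.comp_inj
    intro i
    rw [h i, map_zero]
  obtain ⟨i, hi⟩ := h1
  have hodd : H.Odd W i := by
    rcases H.comp_cc W i with h2 | h2
    · exfalso
      apply hi
      have h3 := congrArg (W.comp i) hx
      rw [map_mul, h2, mul_one, map_neg] at h3
      have h4 : (2 : ℚ) • W.comp i x = 0 := by
        rw [two_smul]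
        nth_rewrite 2 [h3]
        exact add_neg_cancel _
      exact (smul_eq_zero.mp h4).resolve_left (by norm_num)
    · exact h2
  simp only [Set.mem_iUnion, Set.mem_setOf_eq]
  refine ⟨i, hodd, W.comp i x, hi, ?_⟩
  rw [← map_mul, hxv, map_zero]

omit [Fintype ι] in
/-- Let `x` be as in `Below`: `toQ x * e i = toQ x` and `comp i cc = -1`, so
`toQ x * cc = - toQ x`, so `x * cc = - x` (`toQ_inj`) and `comp j (toP x) * comp j cc = - comp j (toP x)`
with `comp j (toP x) ≠ 0`; by `comp_cc` and `2 ≠ 0` the component is odd. -/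
theorem odd_of_mem_J {p : ℕ} [Fact p.Prime] (hp2 : p ≠ 2) (W : WD ℚ G) (P : WD (ZMod p) G)
    {i : Fin W.m} (hi : H.Odd W i) {j : Fin P.m} (hj : j ∈ J W P i) : H.Odd P j := by
  rw [mem_J] at hj
  obtain ⟨x, hx, hxj⟩ := hj
  have h1 : toQ x * H.cc ℚ = -toQ x := by
    apply W.comp_inj
    intro l
    rw [map_mul, map_neg]
    by_cases hl : l = i
    · subst hl
      unfold Odd at hi
      rw [hi, mul_neg, mul_one]
    · rw [(W.mul_e_iff i _).mp hx l hl, zero_mul, neg_zero]
  have hQ : toQ (H.cc ℤ) = H.cc ℚ := by
    apply ma_ext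
    intro g
    classical
    unfold cc
    rw [toQ_coeff, MonoidAlgebra.coeff_single, MonoidAlgebra.coeff_single, Finsupp.single_apply,
      Finsupp.single_apply]
    split_ifs <;> simp
  have hP : toP p (H.cc ℤ) = H.cc (ZMod p) := by
    apply ma_ext
    intro g
    classical
    unfold cc
    rw [toP_coeff, MonoidAlgebra.coeff_single, MonoidAlgebra.coeff_single, Finsupp.single_apply,
      Finsupp.single_apply]
    split_ifs <;> simp
  have h2 : x * H.cc ℤ = -x := by
    apply toQ_inj
    rw [map_mul, hQ, h1, map_neg]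
  have h3 := congrArg (fun y => P.comp j (toP p y)) h2
  simp only [map_mul, map_neg, hP] at h3
  rcases H.comp_cc P j with h4 | h4
  · exfalso
    apply hxj
    rw [h4, mul_one] at h3
    have h5 : (2 : ZMod p) • P.comp j (toP p x) = 0 := by
      rw [two_smul]
      nth_rewrite 2 [h3]
      exact add_neg_cancel _
    refine (smul_eq_zero.mp h5).resolve_left ?_
    intro h6
    have h7 : ((2 : ℕ) : ZMod p) = 0 := by exact_mod_cast h6
    rw [ZMod.natCast_eq_zero_iff] at h7
    exact hp2 ((Nat.prime_dvd_prime_iff_eq Fact.out Nat.prime_two).mp h7)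
  · exact h4

end Half

/-- Equality in `sum_below_a_le`: sum over `i` (`J_disjoint`, `exists_mem_J`, `sum_a`). -/
theorem sum_below_a {G : Type u} [Group G] [Fintype G] {p : ℕ} [Fact p.Prime]
    (hp : ¬ p ∣ Fintype.card G) (W : WD ℚ G) (P : WD (ZMod p) G) (i : Fin W.m) :
    ∑ j ∈ J W P i, P.a j = W.a i := by
  classical
  have h1 : ∑ i, ∑ j ∈ J W P i, P.a j = ∑ i, W.a i := by
    rw [← sum_biUnion]
    · have h2 : (univ : Finset (Fin W.m)).biUnion (J W P) = univ := by
        ext j
        simp only [mem_biUnion, mem_univ, true_and, iff_true]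
        exact exists_mem_J hp W P j
      rw [h2, P.sum_a, W.sum_a]
    · intro a _ b _ hab
      exact J_disjoint hp W P hab
  exact (sum_eq_sum_iff_of_le fun i _ => sum_below_a_le hp W P i).mp h1 i (mem_univ i)

end Pool.MP43e44c.GA
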