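import Pool.Agent.H.MP_43e44c_ag.OD.FldA
import Pool.Agent.H.MP_43e44c_ag.GA.Odd

/-!
Galois CM fields: reduction to the group algebra.
-/

set_option autoImplicit false

open Finset Module NumberField

namespace Pool.MP43e44c.GA

open Pool.MP43e44c.OD

/-- The group with representatives of the cosets of the involution. -/
noncomputable def Fld_half {G : Type*} [Group G] (c : G) (hc : c ≠ 1) (hcc : c * c = 1)
    (hcen : ∀ g, g * c = c * g) : Half G (G ⧸ Subgroup.zpowers c) where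
  c := c
  ne := hc
  sq := hcc
  cen := hcen
  t := Quotient.out
  π := QuotientGroup.mk
  π_t := fun i => Quotient.out_eq' i
  π_c := fun g => by
    rw [QuotientGroup.eq, mul_inv_rev, inv_mul_cancel_right]
    exact (Subgroup.zpowers c).inv_mem (Subgroup.mem_zpowers c)
  t_π := fun g => by
    obtain ⟨h, hh⟩ := QuotientGroup.mk_out_eq_mul (Subgroup.zpowers c) g
    rw [hh]
    obtain ⟨k, hk⟩ := Subgroup.mem_zpowers_iff.mp h.2
    rw [← hk]
    rcases Int.even_or_odd' k with ⟨m, rfl | rfl⟩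
    · left
      rw [zpow_mul, zpow_ofNat, sq, hcc, one_zpow, mul_one]
    · right
      rw [zpow_add, zpow_mul, zpow_ofNat, sq, hcc, one_zpow, zpow_one, one_mul]

/-- PROOF as `field_red` in OD/FldA.lean.  `c : GG K` is complex conjugation (`fldA_exists_c`), central,
`ι = GG K ⧸ Subgroup.zpowers c` with `t` a section of the projection `π` (`Quotient.out`).  The action of
`GG K` on the embeddings is simply transitive.  Fix `x₀`; for a CM type `Φ` let
`v i = decide ((t i)⁻¹ • x₀ ∈ Φ)`, which is injective on CM types.  If `Φ` is bad there is `f ≠ 0` in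
`lat (GG K) conj Φ` (`bad_subset_lat`), `f` is odd, and `x = ∑ g, f (g • x₀) • g` is odd, not zero and
`(x * el v).coeff h = (1/2) ∑_g f (g • x₀) sg Φ (h⁻¹ g • x₀) = 0`. -/
theorem field_red.{u} {K : Type u} [Field K] [NumberField K] [IsCMField K] [IsGalois ℚ K] {n : ℕ}
    (hK : finrank ℚ K = 2 * n) :
    ∃ (ι : Type) (_ : Fintype ι) (H : Half (GG K) ι), Fintype.card ι = n ∧
      (∀ φ : K →+* ℂ, H.c • φ = ComplexEmbedding.conjugate φ) ∧
      {Φ : Finset (K →+* ℂ) | IsCMType Φ ∧ ¬ HodgeRingGeneratedByDivisors Φ}.ncard ≤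
        H.bad.ncard := by
  classical
  obtain ⟨x₀⟩ : Nonempty (K →+* ℂ) := inferInstance
  obtain ⟨c, hc⟩ := fldA_exists_c K
  have hbij := fldA_bij x₀
  have hcomm : ∀ g : GG K, g * c = c * g := by
    intro g
    apply hbij.1
    show (g * c) • x₀ = (c * g) • x₀
    rw [mul_smul, mul_smul, hc, hc, hcgK]
  have hcc : c * c = 1 := by
    apply hbij.1
    show (c * c) • x₀ = (1 : GG K) • x₀
    rw [mul_smul, hc, hc, conj_conj, one_smul]
  have hc1 : c ≠ 1 := by
    intro h
    have h1 := hc x₀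
    rw [h, one_smul] at h1
    exact conj_ne x₀ h1.symm
  have hcardX : Fintype.card (K →+* ℂ) = 2 * n := by rw [NumberField.Embeddings.card K ℂ, hK]
  have hcardG : Fintype.card (GG K) = 2 * n := by rw [fldA_card, hcardX]
  let H := Fld_half c hc1 hcc hcomm
  have fι : Fintype (GG K ⧸ Subgroup.zpowers c) := Fintype.ofFinite _
  have hcardι : Fintype.card (GG K ⧸ Subgroup.zpowers c) = n := by
    have h1 := H.card_eq
    rw [hcardG] at h1
    omega
  have hHc : ∀ φ : K →+* ℂ, H.c • φ = ComplexEmbedding.conjugate φ := hc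
  -- every embedding or its conjugate is a translate
  have hcase : ∀ x : K →+* ℂ, (∃ i, (H.t i)⁻¹ • x₀ = x) ∨
      ∃ i, (H.t i)⁻¹ • x₀ = ComplexEmbedding.conjugate x := by
    intro x
    obtain ⟨g, hg⟩ := exists_smul_eq x₀ x
    rcases H.t_π g⁻¹ with h | h
    · left
      refine ⟨H.π g⁻¹, ?_⟩
      rw [h, inv_inv, hg]
    · right
      refine ⟨H.π g⁻¹, ?_⟩
      rw [h, mul_inv_rev, inv_inv, H.c_inv, mul_smul, hHc, hg]
  refine ⟨_, fι, H, hcardι, hHc, ?_⟩
  refine Set.ncard_le_ncard_of_injOn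
    (fun Φ i => decide ((H.t i)⁻¹ • x₀ ∈ Φ)) ?_ ?_ (Set.toFinite _)
  · intro Φ hΦ
    obtain ⟨hCM, f, ⟨hf1, hf2⟩, hf0⟩ := bad_subset_lat hΦ
    refine ⟨ofFun fun g : GG K => (f (g • x₀) : ℚ), ?_, ?_, ?_⟩
    · apply ma_ext
      intro g
      have h1 : (-(ofFun fun g : GG K => (f (g • x₀) : ℚ))).coeff g =
        -(ofFun fun g : GG K => (f (g • x₀) : ℚ)).coeff g := rfl
      rw [H.odd_coeff, h1, ofFun_coeff, ofFun_coeff, mul_smul, hHc, hcgK, hf1]
      push_cast
      ring
    · intro h0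
      apply hf0
      funext x
      obtain ⟨g, hg⟩ := exists_smul_eq x₀ x
      have h2 := congrArg (fun z => z.coeff g) h0
      simp only [ofFun_coeff] at h2
      have h3 : (0 : MonoidAlgebra ℚ (GG K)).coeff g = 0 := rfl
      rw [h3, hg] at h2
      have h4 : f x = 0 := by exact_mod_cast h2
      rw [h4]
      rfl
    · apply ma_ext
      intro g
      have h3 : (0 : MonoidAlgebra ℚ (GG K)).coeff g = 0 := rfl
      rw [h3]
      unfold Half.el
      rw [mul_sum, coeff_sum']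
      have h4 : ∀ i, ((ofFun fun g : GG K => (f (g • x₀) : ℚ)) * MonoidAlgebra.single (H.t i)
          (if decide ((H.t i)⁻¹ • x₀ ∈ Φ) = true then (1 : ℚ) else -1)).coeff g =
          ((f (g • (H.t i)⁻¹ • x₀) * sg Φ ((H.t i)⁻¹ • x₀) : ℤ) : ℚ) := by
        intro i
        have h5 : g = g * (H.t i)⁻¹ * H.t i := by rw [inv_mul_cancel_right]
        conv_lhs => rw [h5]
        rw [MonoidAlgebra.coeff_mul_single_apply, ofFun_coeff, mul_inv_cancel_right, mul_smul]
        by_cases h6 : (H.t i)⁻¹ • x₀ ∈ Φ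
        · rw [sg_mem h6, if_pos (decide_eq_true h6)]
          push_cast
          ring
        · rw [sg_notMem h6, if_neg (fun h7 => h6 (of_decide_eq_true h7))]
          push_cast
          ring
      rw [sum_congr rfl fun i _ => h4 i, ← Int.cast_sum]
      have h5 := hf2 g⁻¹
      have hΘ : Function.Bijective fun h : GG K => (g * h⁻¹) • x₀ :=
        hbij.comp ((Equiv.mulLeft g).bijective.comp (Equiv.inv (GG K)).bijective)
      rw [← Fintype.sum_bijective _ hΘ
        (fun h => f ((g * h⁻¹) • x₀) * sg Φ (g⁻¹ • (g * h⁻¹) • x₀)) _ (fun _ => rfl),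
        H.sum_eq] at h5
      have h6 : ∀ i, f ((g * (H.t i)⁻¹) • x₀) * sg Φ (g⁻¹ • (g * (H.t i)⁻¹) • x₀) +
          f ((g * (H.t i * H.c)⁻¹) • x₀) * sg Φ (g⁻¹ • (g * (H.t i * H.c)⁻¹) • x₀) =
          2 * (f (g • (H.t i)⁻¹ • x₀) * sg Φ ((H.t i)⁻¹ • x₀)) := by
        intro i
        have h7 : (g * (H.t i * H.c)⁻¹) • x₀ = ComplexEmbedding.conjugate (g • (H.t i)⁻¹ • x₀) := by
          rw [mul_inv_rev, H.c_inv, ← mul_assoc, H.cen, mul_assoc, mul_smul, hHc, mul_smul]
        rw [h7, hcgK, mul_smul, inv_smul_smul, hf1, sg_conj hCM]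
        ring
      rw [sum_congr rfl fun i _ => h6 i, ← mul_sum] at h5
      have h7 := (mul_eq_zero.1 h5).resolve_left two_ne_zero
      rw [h7, Int.cast_zero]
  · intro Φ hΦ Φ' hΦ' heq
    have hCM := hΦ.1
    have hCM' := hΦ'.1
    have h1 : ∀ i, ((H.t i)⁻¹ • x₀ ∈ Φ ↔ (H.t i)⁻¹ • x₀ ∈ Φ') := by
      intro i
      have h2 := congrFun heq i
      simp only [decide_eq_decide] at h2
      exact h2
    ext x
    rcases hcase x with ⟨i, hh⟩ | ⟨i, hh⟩
    · rw [← hh]
      exact h1 i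
    · rw [hCM x, hCM' x, ← hh, h1 i]

end Pool.MP43e44c.GA
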