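import Pool.Agent.H.MP_43e44c_ag.SB.Core2

/-!
Sign vectors orthogonal to an image of a minimal invariant subspace of bounded dimension.
-/

set_option autoImplicit false

open Finset Module

namespace Pool.MP43e44c.GA

set_option backward.isDefEq.respectTransparency false in
/-- PROOF: `card_pair_le` in SB/Sup.lean with one vector instead of two (the exponent `2 * N` of the
last factor becomes `N`, and the factor `2` in front of the last term becomes `1`). -/
theorem card_single_le {Γ ι : Type*} [Group Γ] [Fintype Γ] [MulAction Γ ι] [Fintype ι]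
    [DecidableEq ι] [MulAction.IsPretransitive Γ ι] (C : Coc Γ ι)
    {U : Submodule ℝ (EuclideanSpace ℝ ι)} (hU : C.Mnl U)
    {N : ℕ} (hN : finrank ℝ U = N) {k : ℝ} (hc : (Fintype.card ι : ℝ) = k * N) (hk : 2 ≤ k)
    {h : ℕ} (hh : finrank ℝ (C.Hom U) = h) {t : ℝ} (ht : 1 ≤ t) :
    (({v : ι → Bool | ∃ T ∈ C.Hom U, T ≠ 0 ∧
        SOrth v (LinearMap.range (T : U →ₗ[ℝ] EuclideanSpace ℝ ι))}.ncard : ℕ) : ℝ)
      ≤ 2 ^ Fintype.card ι * (2 * h * (1 + 8 * t * Real.sqrt k) ^ (h - 1) *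
          (Real.exp ((1 / 4) ^ 2 / 2) * (Real.exp (1 / 2) * gk k)) ^ N
        + 2 * h * 5 ^ (h - 1) * Real.sqrt 2 ^ N * Real.exp (-(t ^ 2 * N) / 16)) := by
  classical
  have hset : {v : ι → Bool | ∃ T ∈ C.Hom U, T ≠ 0 ∧
      SOrth v (LinearMap.range (T : U →ₗ[ℝ] EuclideanSpace ℝ ι))} =
      ((univ.filter fun v : ι → Bool => ∃ T ∈ C.Hom U, T ≠ 0 ∧
        SOrth v (LinearMap.range (T : U →ₗ[ℝ] EuclideanSpace ℝ ι)) : Finset (ι → Bool)) :
        Set (ι → Bool)) := by
    rw [coe_filter]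
    simp only [mem_univ, true_and]
  rw [hset, Set.ncard_coe_finset]
  have hnt : Nontrivial U := Submodule.nontrivial_iff_ne_bot.2 hU.2.1
  have hN0 : 0 < N := by rw [← hN]; exact finrank_pos
  have hk0 : 0 < k := by linarith
  have ht0 : 0 ≤ t := by linarith
  have hsk : 1 ≤ Real.sqrt k := Real.one_le_sqrt.2 (by linarith)
  have hntH : Nontrivial (C.Hom U) := by
    refine ⟨⟨⟨U.subtypeL, C.subtypeL_mem_hom U⟩, 0, fun h1 => ?_⟩⟩
    exact Coc.subtypeL_ne_zero hU.2.1 (congrArg Subtype.val h1)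
  have hh1 : 1 ≤ h := by rw [← hh]; exact finrank_pos (R := ℝ) (M := C.Hom U)
  obtain ⟨s, hs1, hs2, hs3⟩ := exists_net (H := C.Hom U) hh hh1
    (ε := 1 / (4 * (t * Real.sqrt k))) (by positivity) (by
      rw [div_le_one (by positivity)]
      nlinarith)
  let Bd : C.Hom U → Finset (ι → Bool) := fun S => univ.filter fun v : ι → Bool =>
    ‖(LinearMap.range ((S : U →L[ℝ] EuclideanSpace ℝ ι) : U →ₗ[ℝ] EuclideanSpace ℝ ι)).starProjection
      (sv v)‖ ^ 2 ≤ (1 / 4) ^ 2 * (N / k)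
  let Z : Finset (ι → Bool) := univ.filter fun v : ι → Bool => ∃ T ∈ C.Hom U, ‖T‖ = 1 ∧
        t ^ 2 * N < ‖(LinearMap.range (T : U →ₗ[ℝ] EuclideanSpace ℝ ι)).starProjection
          (sv v)‖ ^ 2
  have hZ : (Z.card : ℝ) ≤ 2 ^ Fintype.card ι * (2 * h * 5 ^ (h - 1) * Real.sqrt 2 ^ N *
        Real.exp (-(t ^ 2 * N) / 16)) := card_sup_le C hU hN hh ht0
  set κ := Real.exp ((1 / 4) ^ 2 / 2) * (Real.exp (1 / 2) * gk k) with hκ
  have hκ0 : 0 ≤ κ := mul_nonneg (Real.exp_pos _).le (mul_nonneg (Real.exp_pos _).le (gk_nonneg k))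
  have hB : ∀ S ∈ s, ((Bd S).card : ℝ) ≤ 2 ^ Fintype.card ι * κ ^ N := by
    intro S hS
    have hSn : ‖(S : U →L[ℝ] EuclideanSpace ℝ ι)‖ = 1 := hs1 S hS
    refine small_ball C (C.inv_range hU.1 S.2) ?_ hN0 hc (by norm_num)
    rw [← hN]
    apply LinearMap.finrank_range_of_inj
    intro x y hxy
    have h1 : ‖(S : U →L[ℝ] EuclideanSpace ℝ ι) (x - y)‖ = 0 := by
      rw [map_sub]
      have : (S : U →L[ℝ] EuclideanSpace ℝ ι) x = (S : U →L[ℝ] EuclideanSpace ℝ ι) y := hxy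
      rw [this, sub_self, norm_zero]
    rw [C.norm_hom hU S.2, hSn, one_mul, norm_eq_zero, sub_eq_zero] at h1
    exact h1
  have hsub : (univ.filter fun v : ι → Bool => ∃ T ∈ C.Hom U, T ≠ 0 ∧
        SOrth v (LinearMap.range (T : U →ₗ[ℝ] EuclideanSpace ℝ ι)))
      ⊆ s.biUnion Bd ∪ Z := by
    intro v hv
    obtain ⟨T, hT, hT0, hv⟩ := (mem_filter.1 hv).2
    rw [mem_union]
    by_cases hvZ : v ∈ Z
    · exact Or.inr hvZ
    · left
      have hTn : ‖T‖ ≠ 0 := fun h1 => hT0 (eq_zero_of_norm_hom C hU hT h1)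
      have hTn0 : 0 ≤ ‖T‖ := T.opNorm_nonneg
      have hT₁mem : ‖T‖⁻¹ • T ∈ C.Hom U := (C.Hom U).smul_mem _ hT
      have hT₁ : ‖‖T‖⁻¹ • T‖ = 1 := by
        rw [norm_smul_hom C hU hT, abs_of_nonneg (inv_nonneg.2 hTn0), inv_mul_cancel₀ hTn]
      obtain ⟨S, hS, hST⟩ := hs2 ⟨_, hT₁mem⟩ hT₁
      have hSn : ‖(S : U →L[ℝ] EuclideanSpace ℝ ι)‖ = 1 := hs1 S hS
      have hST' : ‖‖T‖⁻¹ • T - (S : U →L[ℝ] EuclideanSpace ℝ ι)‖ ≤ 1 / (4 * (t * Real.sqrt k)) := hST
      have hRmem : ‖T‖⁻¹ • T - (S : U →L[ℝ] EuclideanSpace ℝ ι) ∈ C.Hom U :=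
        (C.Hom U).sub_mem hT₁mem S.2
      rw [mem_biUnion]
      refine ⟨S, hS, mem_filter.2 ⟨mem_univ _, ?_⟩⟩
      -- the good event
      have hgood : ∀ R ∈ C.Hom U, ‖ContinuousLinearMap.adjoint R (sv v)‖
          ≤ ‖R‖ * (t * Real.sqrt N) := by
        intro R hR
        rcases (ContinuousLinearMap.opNorm_nonneg R).eq_or_lt with h1 | h1
        · rw [norm_adj C hU hR, ← h1]
          simp
        · have hR₁ : ‖‖R‖⁻¹ • R‖ = 1 := by
            rw [norm_smul_hom C hU hR, abs_of_nonneg (inv_nonneg.2 h1.le), inv_mul_cancel₀ h1.ne']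
          have h2 := hvZ
          rw [mem_filter, not_and] at h2
          have h3 := h2 (mem_univ _)
          push Not at h3
          have h4 := h3 _ ((C.Hom U).smul_mem ‖R‖⁻¹ hR) hR₁
          have h5 : ContinuousLinearMap.adjoint R (sv v)
              = ‖R‖ • ContinuousLinearMap.adjoint (‖R‖⁻¹ • R) (sv v) := by
            refine ext_inner_right ℝ fun y => ?_
            rw [real_inner_smul_left, ContinuousLinearMap.adjoint_inner_left,
              ContinuousLinearMap.adjoint_inner_left]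
            show _ = ‖R‖ * inner ℝ (sv v) (‖R‖⁻¹ • R y)
            rw [real_inner_smul_right, ← mul_assoc, mul_inv_cancel₀ h1.ne', one_mul]
          have h6 : ‖ContinuousLinearMap.adjoint (‖R‖⁻¹ • R) (sv v)‖ ≤ t * Real.sqrt N := by
            rw [norm_adj C hU ((C.Hom U).smul_mem ‖R‖⁻¹ hR), hR₁, one_mul,
              ← sq_le_sq₀ (norm_nonneg _) (by positivity), mul_pow,
              Real.sq_sqrt (Nat.cast_nonneg N)]
            exact h4
          rw [h5, norm_smul, Real.norm_eq_abs, abs_of_nonneg h1.le]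
          exact mul_le_mul_of_nonneg_left h6 h1.le
      have h1 := hgood _ hRmem
      have h2 : ContinuousLinearMap.adjoint (S : U →L[ℝ] EuclideanSpace ℝ ι) (sv v)
          = - ContinuousLinearMap.adjoint
            (‖T‖⁻¹ • T - (S : U →L[ℝ] EuclideanSpace ℝ ι)) (sv v) := by
        refine ext_inner_right ℝ fun y => ?_
        rw [inner_neg_left, ContinuousLinearMap.adjoint_inner_left,
          ContinuousLinearMap.adjoint_inner_left]
        show _ = - inner ℝ (sv v) (‖T‖⁻¹ • T y - (S : U →L[ℝ] EuclideanSpace ℝ ι) y)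
        rw [inner_sub_right, real_inner_smul_right, hv (T y) ⟨y, rfl⟩]
        ring
      have h3 : ‖(LinearMap.range ((S : U →L[ℝ] EuclideanSpace ℝ ι) :
          U →ₗ[ℝ] EuclideanSpace ℝ ι)).starProjection (sv v)‖
          ≤ 1 / (4 * (t * Real.sqrt k)) * (t * Real.sqrt N) := by
        have h4 := norm_adj C hU S.2 (sv v)
        rw [hSn, one_mul] at h4
        rw [← h4, h2, norm_neg]
        refine h1.trans (mul_le_mul_of_nonneg_right hST' (by positivity))
      have h5 := pow_le_pow_left₀ (norm_nonneg _) h3 2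
      refine h5.trans (le_of_eq ?_)
      have ht1 : t ≠ 0 := by linarith
      have hsk0 : Real.sqrt k ≠ 0 := by linarith
      have h6 : 1 / (4 * (t * Real.sqrt k)) * (t * Real.sqrt N) = 1 / 4 * (Real.sqrt N / Real.sqrt k) := by
        field_simp
      rw [h6, mul_pow, div_pow (Real.sqrt N), Real.sq_sqrt (Nat.cast_nonneg N),
        Real.sq_sqrt hk0.le]
  have hcardle : ((univ.filter fun v : ι → Bool => ∃ T ∈ C.Hom U, T ≠ 0 ∧
        SOrth v (LinearMap.range (T : U →ₗ[ℝ] EuclideanSpace ℝ ι))).card : ℝ)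
      ≤ ∑ S ∈ s, ((Bd S).card : ℝ) + Z.card := by
    have h1 := (card_le_card hsub).trans ((card_union_le _ _).trans
      (Nat.add_le_add_right card_biUnion_le _))
    exact_mod_cast h1
  refine hcardle.trans ?_
  have hfirst : ∑ S ∈ s, ((Bd S).card : ℝ) ≤ 2 ^ Fintype.card ι *
      (2 * h * (1 + 8 * t * Real.sqrt k) ^ (h - 1) * κ ^ N) := by
    calc ∑ S ∈ s, ((Bd S).card : ℝ) ≤ ∑ _S ∈ s, 2 ^ Fintype.card ι * κ ^ N :=
          sum_le_sum fun S hS => hB S hS
      _ = s.card * (2 ^ Fintype.card ι * κ ^ N) := by rw [sum_const, nsmul_eq_mul]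
      _ ≤ (2 * h * (1 + 2 / (1 / (4 * (t * Real.sqrt k)))) ^ (h - 1)) *
          (2 ^ Fintype.card ι * κ ^ N) := by
          gcongr
      _ = _ := by
          have h1 : 2 / (1 / (4 * (t * Real.sqrt k))) = 8 * t * Real.sqrt k := by
            rw [div_div_eq_mul_div, div_one]; ring
          rw [h1]
          ring
  calc ∑ S ∈ s, ((Bd S).card : ℝ) + Z.card
      ≤ 2 ^ Fintype.card ι *
          (2 * h * (1 + 8 * t * Real.sqrt k) ^ (h - 1) * κ ^ N)
        + 2 ^ Fintype.card ι * (2 * h * 5 ^ (h - 1) * Real.sqrt 2 ^ N *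
        Real.exp (-(t ^ 2 * N) / 16)) := add_le_add hfirst hZ
    _ = _ := by ring

/-- Powers of the logarithm. -/
theorem RealA_log_pow (D : ℕ) (n : ℝ) (hn : 1 ≤ n) :
    (1 + Real.log n) ^ D ≤
      4 ^ D * D.factorial * 3 * (n ^ (-(1 / 4) : ℝ) * Real.sqrt n) := by
  have hx : 0 ≤ Real.log n := Real.log_nonneg hn
  have hn0 : 0 < n := by linarith
  have h1 := Real.pow_div_factorial_le_exp ((1 + Real.log n) / 4) (by positivity) D
  have h3 : n ^ (-(1 / 4) : ℝ) * Real.sqrt n = Real.exp (Real.log n / 4) := by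
    rw [Real.sqrt_eq_rpow, ← Real.rpow_add hn0, Real.rpow_def_of_pos hn0]
    congr 1
    ring
  have h2 : Real.exp ((1 + Real.log n) / 4) ≤ 3 * (n ^ (-(1 / 4) : ℝ) * Real.sqrt n) := by
    rw [h3, show (1 + Real.log n) / 4 = 1 / 4 + Real.log n / 4 by ring, Real.exp_add]
    have h4 : Real.exp (1 / 4) ≤ 3 := by
      have h5 : Real.exp (1 / 4) ≤ Real.exp 1 := Real.exp_le_exp.2 (by norm_num)
      have h6 := Real.exp_one_lt_d9
      linarith
    exact mul_le_mul_of_nonneg_right h4 (Real.exp_pos _).le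
  have h4 := h1.trans h2
  rw [div_le_iff₀ (by positivity), div_pow, div_le_iff₀ (by positivity)] at h4
  calc (1 + Real.log n) ^ D ≤ _ := h4
    _ = _ := by ring

/-- PROOF. Let `n = card ι`, `N = finrank U ≤ D`, `h = finrank (C.Hom U) ≤ N` (`finrank_hom_le`),
`k = n / N`.  If `n < 2 D` or `n` is small the claim is trivial (choose `K` large).  Otherwise take
`t ^ 2 = 16 log n + 1`: the last term is at most `C / n`, and by `kappa_le_sqrt` (SB/Core.lean) the first
one is at most `C (t √k) ^ (N - 1) / √k ^ N ≤ C (log n) ^ N / √n ≤ C n ^ (- 1 / 4)`. -/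
theorem card_single_bdd (D : ℕ) : ∃ K : ℝ, 0 < K ∧
    ∀ {Γ ι : Type} [Group Γ] [Fintype Γ] [MulAction Γ ι] [Fintype ι]
      [DecidableEq ι] [MulAction.IsPretransitive Γ ι] [Nonempty ι] (C : Coc Γ ι)
      {U : Submodule ℝ (EuclideanSpace ℝ ι)}, C.Mnl U → finrank ℝ U ≤ D →
    (({v : ι → Bool | ∃ T ∈ C.Hom U, T ≠ 0 ∧
        SOrth v (LinearMap.range (T : U →ₗ[ℝ] EuclideanSpace ℝ ι))}.ncard : ℕ) : ℝ)
      ≤ K * (Fintype.card ι : ℝ) ^ (-(1 / 4) : ℝ) * 2 ^ Fintype.card ι := by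
  refine ⟨(2 * D + 1) + 2 * D * 5 ^ D * 2 ^ D +
    2 * D * 27 ^ D * D * 4 ^ D * (4 ^ D * D.factorial * 3), by positivity, ?_⟩
  intro Γ ι _ _ _ _ _ _ hne C U hU hUD
  obtain ⟨n, hn⟩ : ∃ n, n = Fintype.card ι := ⟨_, rfl⟩
  rw [← hn]
  have hn0 : 0 < n := by rw [hn]; exact Fintype.card_pos
  have hnR : (1 : ℝ) ≤ n := by exact_mod_cast hn0
  have hnR0 : (0 : ℝ) < n := by linarith
  set L : ℝ := (n : ℝ) ^ (-(1 / 4) : ℝ) with hL
  have hL0 : 0 < L := Real.rpow_pos_of_pos hnR0 _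
  have hLn : 1 / (n : ℝ) ≤ L := by
    rw [hL, one_div, ← Real.rpow_neg_one]
    exact Real.rpow_le_rpow_of_exponent_le hnR (by norm_num)
  by_cases hnD : n < 2 * D
  · -- trivial case
    have h1 : (({v : ι → Bool | ∃ T ∈ C.Hom U, T ≠ 0 ∧
        SOrth v (LinearMap.range (T : U →ₗ[ℝ] EuclideanSpace ℝ ι))}.ncard : ℕ) : ℝ) ≤ 2 ^ n := by
      have h2 := Set.ncard_le_ncard (Set.subset_univ {v : ι → Bool | ∃ T ∈ C.Hom U, T ≠ 0 ∧
        SOrth v (LinearMap.range (T : U →ₗ[ℝ] EuclideanSpace ℝ ι))}) (Set.toFinite _)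
      rw [Set.ncard_univ, Nat.card_eq_fintype_card, Fintype.card_fun, Fintype.card_bool,
        ← hn] at h2
      exact_mod_cast h2
    refine h1.trans ?_
    have h2 : 1 ≤ (2 * (D : ℝ) + 1) * L := by
      have h3 : (n : ℝ) ≤ 2 * D := by exact_mod_cast hnD.le
      calc (1 : ℝ) = n * (1 / n) := by field_simp
        _ ≤ (2 * (D : ℝ) + 1) * L := by
          apply mul_le_mul _ hLn (by positivity) (by positivity)
          linarith
    have h3 : (2 * (D : ℝ) + 1) * L ≤ ((2 * D + 1) + 2 * D * 5 ^ D * 2 ^ D +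
        2 * D * 27 ^ D * D * 4 ^ D * (4 ^ D * D.factorial * 3)) * L := by
      apply mul_le_mul_of_nonneg_right _ hL0.le
      have h4 : (0 : ℝ) ≤ 2 * D * 5 ^ D * 2 ^ D := by positivity
      have h5 : (0 : ℝ) ≤ 2 * D * 27 ^ D * D * 4 ^ D * (4 ^ D * D.factorial * 3) := by positivity
      linarith
    exact le_mul_of_one_le_left (by positivity) (h2.trans h3)
  · push Not at hnD
    have hnt : Nontrivial U := Submodule.nontrivial_iff_ne_bot.2 hU.2.1
    obtain ⟨N, hN⟩ : ∃ N, N = finrank ℝ U := ⟨_, rfl⟩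
    have hN0 : 0 < N := by rw [hN]; exact finrank_pos
    have hND : N ≤ D := by rw [hN]; exact hUD
    have hNR : (1 : ℝ) ≤ N := by exact_mod_cast hN0
    have hNR0 : (0 : ℝ) < N := by linarith
    have hNDR : (N : ℝ) ≤ D := by exact_mod_cast hND
    have hDR : (1 : ℝ) ≤ D := hNR.trans hNDR
    obtain ⟨h, hh⟩ : ∃ h, h = finrank ℝ (C.Hom U) := ⟨_, rfl⟩
    have hhN : h ≤ N := by rw [hh, hN]; exact C.finrank_hom_le hU
    have hhD : (h : ℝ) ≤ D := by exact_mod_cast hhN.trans hND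
    set k : ℝ := n / N with hk
    have hc : (Fintype.card ι : ℝ) = k * N := by rw [← hn, hk]; field_simp
    have hk2 : 2 ≤ k := by
      rw [hk, le_div_iff₀ hNR0]
      have : (2 : ℝ) * D ≤ n := by exact_mod_cast hnD
      linarith
    have hk0 : 0 < k := by linarith
    have hlog : 0 ≤ Real.log n := Real.log_nonneg hnR
    set t : ℝ := Real.sqrt (16 * (1 + Real.log n)) with ht
    have ht1 : 1 ≤ t := by
      rw [ht]
      apply Real.one_le_sqrt.2
      linarith
    have ht2 : t ^ 2 = 16 * (1 + Real.log n) := Real.sq_sqrt (by linarith)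
    have h3 := card_single_le C hU hN.symm hc hk2 hh.symm ht1
    rw [← hn] at h3
    refine h3.trans ?_
    have hsk : 1 ≤ Real.sqrt k := Real.one_le_sqrt.2 (by linarith)
    have hsk0 : 0 < Real.sqrt k := by linarith
    set κ := Real.exp ((1 / 4) ^ 2 / 2) * (Real.exp (1 / 2) * gk k) with hκ
    have hκ0 : 0 ≤ κ := mul_nonneg (Real.exp_pos _).le (mul_nonneg (Real.exp_pos _).le (gk_nonneg k))
    have hκ1 : κ ≤ 13 / 5 / Real.sqrt k := kappa_le_sqrt hk2
    -- the last term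
    have hlast : 2 * (h : ℝ) * 5 ^ (h - 1) * Real.sqrt 2 ^ N * Real.exp (-(t ^ 2 * N) / 16)
        ≤ 2 * D * 5 ^ D * 2 ^ D * L := by
      have h4 : Real.exp (-(t ^ 2 * N) / 16) ≤ L := by
        refine le_trans ?_ hLn
        have h5 : 1 / (n : ℝ) = Real.exp (-Real.log n) := by
          rw [Real.exp_neg, Real.exp_log hnR0, one_div]
        rw [h5]
        apply Real.exp_le_exp.2
        rw [ht2]
        have h6 : Real.log n ≤ (1 + Real.log n) * N := by
          calc Real.log n ≤ (1 + Real.log n) * 1 := by linarith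
            _ ≤ (1 + Real.log n) * N := by gcongr
        linarith
      have h5 : Real.sqrt 2 ^ N ≤ 2 ^ D := by
        have h6 : Real.sqrt 2 ≤ 2 := by
          rw [Real.sqrt_le_left (by norm_num)]
          norm_num
        calc Real.sqrt 2 ^ N ≤ 2 ^ N := pow_le_pow_left₀ (Real.sqrt_nonneg _) h6 N
          _ ≤ 2 ^ D := pow_le_pow_right₀ (by norm_num) hND
      have h6 : (5 : ℝ) ^ (h - 1) ≤ 5 ^ D := pow_le_pow_right₀ (by norm_num) (by omega)
      gcongr
    -- the first term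
    have hfirst : 2 * (h : ℝ) * (1 + 8 * t * Real.sqrt k) ^ (h - 1) * κ ^ N
        ≤ 2 * D * 27 ^ D * D * 4 ^ D * (4 ^ D * D.factorial * 3) * L := by
      have h4 : (1 + 8 * t * Real.sqrt k) ^ (h - 1) ≤ (9 * t * Real.sqrt k) ^ (N - 1) := by
        have h5 : 1 ≤ t * Real.sqrt k := by nlinarith
        calc (1 + 8 * t * Real.sqrt k) ^ (h - 1) ≤ (9 * t * Real.sqrt k) ^ (h - 1) := by
              apply pow_le_pow_left₀ (by positivity)
              nlinarith
          _ ≤ (9 * t * Real.sqrt k) ^ (N - 1) := by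
              apply pow_le_pow_right₀ _ (by omega)
              nlinarith
      have h5 : κ ^ N ≤ (13 / 5 / Real.sqrt k) ^ N := pow_le_pow_left₀ hκ0 hκ1 N
      have h6 : (9 * t * Real.sqrt k) ^ (N - 1) * (13 / 5 / Real.sqrt k) ^ N ≤
          27 ^ D * t ^ D / Real.sqrt k := by
        obtain ⟨M, rfl⟩ : ∃ M, N = M + 1 := ⟨N - 1, by omega⟩
        rw [Nat.add_sub_cancel]
        have h7 : (9 * t * Real.sqrt k) ^ M * (13 / 5 / Real.sqrt k) ^ (M + 1) =
            (9 * (13 / 5)) ^ M * (13 / 5) * t ^ M / Real.sqrt k := by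
          have h10 : Real.sqrt k ^ M ≠ 0 := (pow_pos hsk0 M).ne'
          have h11 : (9 * t * Real.sqrt k) ^ M = 9 ^ M * t ^ M * Real.sqrt k ^ M := by
            rw [mul_pow, mul_pow]
          have h12 : (13 / 5 / Real.sqrt k) ^ (M + 1) =
              (13 / 5) ^ M / Real.sqrt k ^ M * (13 / 5 / Real.sqrt k) := by
            rw [pow_succ, div_pow (13 / 5)]
          rw [h11, h12, mul_pow 9 (13 / 5 : ℝ) M]
          calc 9 ^ M * t ^ M * Real.sqrt k ^ M *
                ((13 / 5) ^ M / Real.sqrt k ^ M * (13 / 5 / Real.sqrt k))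
              = 9 ^ M * (13 / 5) ^ M * (13 / 5) * t ^ M / Real.sqrt k *
                (Real.sqrt k ^ M / Real.sqrt k ^ M) := by ring
            _ = _ := by rw [div_self h10, mul_one]
        rw [h7]
        have h8 : ((9 : ℝ) * (13 / 5)) ^ M * (13 / 5) ≤ 27 ^ D := by
          calc ((9 : ℝ) * (13 / 5)) ^ M * (13 / 5) ≤ 27 ^ M * 27 := by
                gcongr <;> norm_num
            _ = 27 ^ (M + 1) := (pow_succ _ _).symm
            _ ≤ 27 ^ D := pow_le_pow_right₀ (by norm_num) hND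
        have h9 : t ^ M ≤ t ^ D := pow_le_pow_right₀ ht1 (by omega)
        gcongr
      have h7 : t ^ D ≤ 4 ^ D * (1 + Real.log n) ^ D := by
        rw [← mul_pow]
        apply pow_le_pow_left₀ (by linarith)
        rw [ht, Real.sqrt_le_left (by positivity)]
        nlinarith
      have h8 := RealA_log_pow D n hnR
      have h9 : Real.sqrt n / D ≤ Real.sqrt k := by
        have h10 : Real.sqrt n = Real.sqrt k * Real.sqrt N := by
          rw [← Real.sqrt_mul hk0.le, hk]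
          congr 1
          field_simp
        rw [h10, div_le_iff₀ (by linarith)]
        apply mul_le_mul_of_nonneg_left _ hsk0.le
        rw [Real.sqrt_le_left (by linarith)]
        nlinarith
      have hsn : 0 < Real.sqrt n := Real.sqrt_pos.2 hnR0
      calc 2 * (h : ℝ) * (1 + 8 * t * Real.sqrt k) ^ (h - 1) * κ ^ N
          ≤ 2 * D * (9 * t * Real.sqrt k) ^ (N - 1) * (13 / 5 / Real.sqrt k) ^ N := by
            gcongr
        _ = 2 * D * ((9 * t * Real.sqrt k) ^ (N - 1) * (13 / 5 / Real.sqrt k) ^ N) := by ring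
        _ ≤ 2 * D * (27 ^ D * t ^ D / Real.sqrt k) := by gcongr
        _ ≤ 2 * D * (27 ^ D * (4 ^ D * (4 ^ D * D.factorial * 3 * (L * Real.sqrt n))) /
            (Real.sqrt n / D)) := by
            gcongr
            exact h7.trans (by gcongr)
        _ = 2 * D * 27 ^ D * D * 4 ^ D * (4 ^ D * D.factorial * 3) * L := by
            field_simp
    have hfin : 0 ≤ (2 * (D : ℝ) + 1) * L := by positivity
    calc 2 ^ n * (2 * (h : ℝ) * (1 + 8 * t * Real.sqrt k) ^ (h - 1) * κ ^ N +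
          2 * (h : ℝ) * 5 ^ (h - 1) * Real.sqrt 2 ^ N * Real.exp (-(t ^ 2 * N) / 16))
        ≤ 2 ^ n * (2 * D * 27 ^ D * D * 4 ^ D * (4 ^ D * D.factorial * 3) * L +
          2 * D * 5 ^ D * 2 ^ D * L) := by gcongr
      _ ≤ 2 ^ n * (((2 * D + 1) + 2 * D * 5 ^ D * 2 ^ D +
          2 * D * 27 ^ D * D * 4 ^ D * (4 ^ D * D.factorial * 3)) * L) := by
          apply mul_le_mul_of_nonneg_left _ (by positivity)
          linarith
      _ = _ := by ring

end Pool.MP43e44c.GA
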