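import Pool.Agent.H.MP_43e44c_ag.GA.Def
import Pool.Agent.H.MP_43e44c_ag.OD.StepA

/-!
The number of sign vectors with a given image, mod p, for odd families with symmetries.
-/

set_option autoImplicit false

open Finset Module

namespace Pool.MP43e44c.GA

open Pool.MP43e44c.OD

universe u v

namespace Half

variable {G : Type u} [Group G] {ι : Type v} (H : Half G ι)

/-- The action of the group on the representatives. -/
@[reducible] def Step_act : MulAction G ι where
  smul h i := H.π (H.t i * h⁻¹)
  one_smul i := by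
    show H.π (H.t i * 1⁻¹) = i
    rw [inv_one, mul_one, H.π_t]
  mul_smul g h i := by
    show H.π (H.t i * (g * h)⁻¹) = H.π (H.t (H.π (H.t i * h⁻¹)) * g⁻¹)
    rcases H.t_π (H.t i * h⁻¹) with h1 | h1
    · rw [h1, mul_inv_rev, mul_assoc]
    · have h2 : H.t i * h⁻¹ * H.c * g⁻¹ = H.t i * (g * h)⁻¹ * H.c := by
        rw [mul_inv_rev, mul_assoc (H.t i * h⁻¹), ← H.cen, ← mul_assoc, ← mul_assoc]
      rw [h1, h2, H.π_c]

theorem Step_smul (h : G) (i : ι) : (letI := H.Step_act; h • i) = H.π (H.t i * h⁻¹) := rfl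

theorem Step_pretransitive : letI := H.Step_act; MulAction.IsPretransitive G ι := by
  letI := H.Step_act
  constructor
  intro i j
  refine ⟨(H.t j)⁻¹ * H.t i, ?_⟩
  show H.π (H.t i * ((H.t j)⁻¹ * H.t i)⁻¹) = j
  rw [mul_inv_rev, inv_inv, mul_inv_cancel_left, H.π_t]

/-- The representatives span the same space. -/
theorem Step_span {R : Type*} [CommRing R] {E : Type*} [AddCommGroup E] [Module R E] (x : G → E)
    (hodd : ∀ g, x (g * H.c) = -x g) :
    Submodule.span R (Set.range fun i => x (H.t i)) = Submodule.span R (Set.range x) := by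
  apply le_antisymm
  · refine Submodule.span_mono ?_
    rintro _ ⟨i, rfl⟩
    exact ⟨H.t i, rfl⟩
  · rw [Submodule.span_le]
    rintro _ ⟨g, rfl⟩
    have hi : x (H.t (H.π g)) ∈ Submodule.span R (Set.range fun i => x (H.t i)) :=
      Submodule.subset_span ⟨H.π g, rfl⟩
    rcases H.t_π g with h | h
    · rw [h] at hi
      exact hi
    · rw [h, hodd] at hi
      have := Submodule.neg_mem _ hi
      rw [neg_neg] at this
      exact this

/-- PROOF. `Gᵐᵒᵖ` acts on `ι` by `h • i = π (t i * unop h)` (an action by `π_c`, `t_π`, `cen`),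
transitively, with the cocycle of signs `ε h i = 1` if `t (h • i) = t i * unop h` and `- 1` if
`t (h • i) = t i * unop h * c`.  With `y i = x (t i)` one has `x (t i * h) = ε • y (h • i)`, so `y`
satisfies the hypothesis of `step_span` (MQ/Step.lean): if `∑ c i • y i = 0` extend `c` by `0` to the
elements `t i * c` (as a function on `G`).  The version with a target `y₀` instead of `0` is proved as in
OD/StepA.lean (there for the trivial cocycle): the proof of `step_span` works with an arbitrary target
if `fou_modp` is replaced by `stepA_fou`. -/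
theorem stepT [Fintype G] [Fintype ι] {p : ℕ} [Fact p.Prime]
    {E : Type*} [AddCommGroup E] [Module (ZMod p) E] [Module.Finite (ZMod p) E] (x : G → E)
    (hodd : ∀ g, x (g * H.c) = -x g)
    (hx : ∀ (h : G) (c : G → ZMod p), ∑ g, c g • x g = 0 → ∑ g, c g • x (g * h) = 0)
    {d : ℕ} (hd : 0 < d)
    (hspan : finrank (ZMod p) (Submodule.span (ZMod p) (Set.range x)) = d) (y : E) :
    ({v : ι → Bool | ∑ i, svr (ZMod p) v i • x (H.t i) = y}.ncard : ℝ) * (p : ℝ) ^ d
      ≤ 2 ^ Fintype.card ι * cosS p ((Fintype.card ι : ℝ) / d) ^ d := by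
  classical
  letI := H.Step_act
  haveI := H.Step_pretransitive
  have hspan' : finrank (ZMod p) (Submodule.span (ZMod p) (Set.range fun i => x (H.t i))) = d := by
    rw [H.Step_span x hodd]
    exact hspan
  obtain ⟨f, hli, hs⟩ := step_basis (fun i => x (H.t i)) hspan'
  have hco : ∀ i, ∃ c : Fin d → ZMod p, ∑ l, c l • x (H.t (f l)) = x (H.t i) := by
    intro i
    have h1 : x (H.t i) ∈ Submodule.span (ZMod p) (Set.range fun j => x (H.t (f j))) := by
      rw [hs]
      exact Submodule.subset_span ⟨i, rfl⟩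
    exact (Submodule.mem_span_range_iff_exists_fun _).1 h1
  choose A hA using hco
  have hcomb : ∀ ε : ι → ZMod p,
      ∑ i, ε i • x (H.t i) = ∑ l, (∑ i, A i l * ε i) • x (H.t (f l)) := by
    intro ε
    simp only [Finset.sum_smul]
    rw [Finset.sum_comm]
    refine Finset.sum_congr rfl fun i _ => ?_
    rw [← hA i, Finset.smul_sum]
    refine Finset.sum_congr rfl fun l _ => ?_
    rw [smul_smul, mul_comm]
  by_cases hy : ∃ z : Fin d → ZMod p, ∑ l, z l • x (H.t (f l)) = y
  swap
  · have hempty : {v : ι → Bool | ∑ i, svr (ZMod p) v i • x (H.t i) = y} = ∅ := by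
      rw [Set.eq_empty_iff_forall_notMem]
      intro v hv
      rw [Set.mem_ofPred_eq, hcomb] at hv
      exact hy ⟨_, hv⟩
    rw [hempty, Set.ncard_empty, Nat.cast_zero, zero_mul]
    have : 0 ≤ cosS p ((Fintype.card ι : ℝ) / d) :=
      sum_nonneg fun a _ => Real.rpow_nonneg (abs_nonneg _) _
    positivity
  obtain ⟨z, hz⟩ := hy
  have hset : {v : ι → Bool | ∑ i, svr (ZMod p) v i • x (H.t i) = y} =
      {v : ι → Bool | ∀ l, ∑ i, (Matrix.of fun l i => A i l) l i * svr (ZMod p) v i = z l} := by
    ext v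
    rw [Set.mem_ofPred_eq, Set.mem_ofPred_eq, hcomb]
    constructor
    · intro h
      have h2 : ∑ l, ((∑ i, A i l * svr (ZMod p) v i) - z l) • x (H.t (f l)) = 0 := by
        simp only [sub_smul, sum_sub_distrib]
        rw [h, hz, sub_self]
      intro l
      exact sub_eq_zero.1 (Fintype.linearIndependent_iff.1 hli _ h2 l)
    · intro h
      rw [← hz]
      refine Finset.sum_congr rfl fun l _ => ?_
      have h1 : ∑ i, A i l * svr (ZMod p) v i = z l := h l
      rw [h1]
  rw [hset]
  refine (stepA_fou (Matrix.of fun l i => A i l) z).trans ?_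
  refine mul_le_mul_of_nonneg_left ?_ (by positivity)
  refine fin_holder (Γ := G) hd (Matrix.of fun l i => A i l) f ?_
    (φ := fun a => |Real.cos (2 * Real.pi * (a.val : ℝ) / p)|) (fun a => abs_nonneg _)
  intro g hdet
  obtain ⟨c, hc0, hc⟩ := Matrix.exists_mulVec_eq_zero_iff.2 hdet
  apply hc0
  have h1 : ∑ j, c j • x (H.t (g • f j)) = 0 := by
    have h2 : ∀ j, c j • x (H.t (g • f j)) = ∑ l, (c j * A (g • f j) l) • x (H.t (f l)) := by
      intro j
      rw [← hA (g • f j), Finset.smul_sum]
      refine Finset.sum_congr rfl fun l _ => ?_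
      rw [smul_smul]
    rw [Finset.sum_congr rfl fun j _ => h2 j, Finset.sum_comm]
    refine Finset.sum_eq_zero fun l _ => ?_
    rw [← Finset.sum_smul]
    have h3 := congrFun hc l
    rw [Matrix.mulVec, dotProduct, Pi.zero_apply] at h3
    have h4 : ∑ j, c j * A (g • f j) l = 0 := by
      rw [← h3]
      refine Finset.sum_congr rfl fun j _ => ?_
      rw [Matrix.submatrix_apply, Matrix.of_apply, mul_comm]
      rfl
    rw [h4, zero_smul]
  have h5 := hx g (fun u => ∑ j, if H.t (g • f j) = u then c j else 0) (by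
    have h6 := step_sum (fun j => H.t (g • f j)) c x (fun _ => 1)
    simp only [mul_one] at h6
    rw [h6]
    exact h1)
  have h7 := step_sum (fun j => H.t (g • f j)) c (fun u => x (u * g)) (fun _ => 1)
  simp only [mul_one] at h7
  rw [h7] at h5
  have h8 : ∀ j, ∃ s : ZMod p, s * s = 1 ∧ x (H.t (g • f j) * g) = s • x (H.t (f j)) := by
    intro j
    have h9 : g • f j = H.π (H.t (f j) * g⁻¹) := rfl
    rcases H.t_π (H.t (f j) * g⁻¹) with h10 | h10
    · refine ⟨1, one_mul 1, ?_⟩
      rw [h9, h10, inv_mul_cancel_right, one_smul]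
    · refine ⟨-1, by ring, ?_⟩
      rw [h9, h10, mul_assoc _ H.c g, ← H.cen g, ← mul_assoc, inv_mul_cancel_right, hodd,
        neg_smul, one_smul]
  choose s hs1 hs2 using h8
  simp only [hs2, smul_smul] at h5
  have h11 := Fintype.linearIndependent_iff.1 hli _ h5
  funext j
  have h12 := h11 j
  calc c j = c j * s j * s j := by rw [mul_assoc, hs1, mul_one]
    _ = 0 := by rw [h12, zero_mul]

end Half

end Pool.MP43e44c.GA
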