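import Pool.Agent.H.MP_43e44c_ag.GA.Odd
import Pool.Agent.H.MP_43e44c_ag.GA.Step
import Pool.Agent.H.MP_43e44c_ag.OD.Row

/-!
Counting modulo an odd prime.
-/

set_option autoImplicit false

open Finset Module

namespace Pool.MP43e44c.GA

open Pool.MP43e44c.OD

universe u v

namespace Half

variable {G : Type u} [Group G] {ι : Type v} (H : Half G ι) [Fintype G] [Fintype ι]

theorem row_rowMap_el {p : ℕ} [Fact p.Prime] (P : WD (ZMod p) G) (K : Finset (Fin P.m))
    (u : RowE P K) (v : ι → Bool) :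
    ∑ i, svr (ZMod p) v i • rowMap P K u (MonoidAlgebra.single (H.t i) 1)
      = rowMap P K u (H.el (ZMod p) v) := by
  unfold el
  rw [map_sum]
  refine sum_congr rfl fun i _ => ?_
  rw [← map_smul]
  congr 1
  rw [MonoidAlgebra.smul_single, smul_eq_mul, mul_one]
  rfl

theorem row_odd {p : ℕ} [Fact p.Prime] (P : WD (ZMod p) G) (K : Finset (Fin P.m))
    (hK : ∀ j ∈ K, H.Odd P j) (u : RowE P K) (g : G) :
    rowMap P K u (MonoidAlgebra.single (g * H.c) 1)
      = -rowMap P K u (MonoidAlgebra.single g 1) := by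
  ext j : 1
  show Matrix.vecMul (u j) (P.comp j (MonoidAlgebra.single (g * H.c) 1))
    = -Matrix.vecMul (u j) (P.comp j (MonoidAlgebra.single g 1))
  rw [H.odd_single (hK j j.2), Matrix.vecMul_neg]

/-- PROOF: as `badI_row` in OD/Row.lean, for a subset `S` of the components below `i`.  The family
`x g = (u j ᵥ* P.comp j (single g 1))_{j ∈ S}` is odd (`odd_of_mem_J`, `odd_single`), use `stepT` (`y = 0`)
and `link` (with `b = H.el ℤ v`, `toQ_el`, `toP_el`).  If `S` is empty both sides are at most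
`2 ^ card ι`. -/
theorem badI_row {p : ℕ} [Fact p.Prime] (hp2 : p ≠ 2) (hp : ¬ p ∣ Fintype.card G) (W : WD ℚ G)
    (P : WD (ZMod p) G) {i : Fin W.m} (hi : H.Odd W i) {S : Finset (Fin P.m)}
    (hS : S ⊆ J W P i) {k : ℕ} (hk : k = ∑ j ∈ S, P.r j * P.f j) :
    (((H.badI W i).ncard : ℕ) : ℝ) * ∏ j ∈ S, ((p : ℝ) ^ P.f j - 1)
      ≤ 2 ^ Fintype.card ι * cosS p ((Fintype.card ι : ℝ) / k) ^ k := by
  classical
  have hp1 : 1 < p := (Fact.out : p.Prime).one_lt
  have hp0 : (0 : ℝ) < p := by exact_mod_cast (zero_lt_one.trans hp1)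
  rcases S.eq_empty_or_nonempty with hS0 | hSne
  · subst hS0
    rw [sum_empty] at hk
    subst hk
    rw [prod_empty, mul_one, pow_zero, mul_one]
    have h0 : (H.badI W i).ncard ≤ Nat.card (ι → Bool) := by
      rw [← Set.ncard_univ]
      exact Set.ncard_le_ncard (Set.subset_univ _) (Set.toFinite _)
    have h00 : Nat.card (ι → Bool) = 2 ^ Fintype.card ι := by
      rw [Nat.card_eq_fintype_card, Fintype.card_fun, Fintype.card_bool]
    rw [h00] at h0
    exact_mod_cast h0
  have hkpos : 0 < k := by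
    rw [hk]
    obtain ⟨j, hj⟩ := hSne
    exact lt_of_lt_of_le (Nat.mul_pos (Nat.pos_of_ne_zero (NeZero.ne (P.r j))) (P.f_pos j))
      (single_le_sum (f := fun j => P.r j * P.f j) (fun _ _ => Nat.zero_le _) hj)
  have hoddS : ∀ j ∈ S, H.Odd P j := fun j hj => H.odd_of_mem_J hp2 W P hi (hS hj)
  have hfinD : ∀ j, Finite (P.D j) := row_finD P
  have hfinE : Finite (RowE P S) := inferInstance
  let _ : Fintype (RowE P S) := Fintype.ofFinite _
  set C : ℝ := 2 ^ Fintype.card ι * cosS p ((Fintype.card ι : ℝ) / k) ^ k with hC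
  let U : Finset (RowE P S) := univ.filter fun u => ∀ j, u j ≠ 0
  let B : Finset (ι → Bool) := univ.filter fun v => v ∈ H.badI W i
  have hB : (H.badI W i).ncard = B.card := by
    rw [← Set.ncard_coe_finset]
    congr 1
    ext v
    simp [B]
  -- the count for a fixed tuple
  have h1 : ∀ u ∈ U, ((B.filter fun v => rowMap P S u (H.el (ZMod p) v) = 0).card : ℝ)
      * (p : ℝ) ^ k ≤ C := by
    intro u hu
    have hu' : ∀ j, u j ≠ 0 := (mem_filter.1 hu).2
    have h2 := H.stepT (p := p) (fun g => rowMap P S u (MonoidAlgebra.single g 1))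
      (fun g => H.row_odd P S hoddS u g)
      (fun h c h0 => rowMap_sym P S u h c h0) hkpos (by rw [row_span P S hu', hk]) 0
    refine le_trans ?_ h2
    gcongr
    rw [← Set.ncard_coe_finset]
    refine Set.ncard_le_ncard ?_ (Set.toFinite _)
    intro v hv
    have hv' := (mem_filter.1 (Finset.mem_coe.1 hv)).2
    show ∑ i, svr (ZMod p) v i • rowMap P S u (MonoidAlgebra.single (H.t i) 1) = 0
    rw [H.row_rowMap_el]
    exact hv'
  -- the number of tuples for a fixed bad vector
  have h2 : ∀ v ∈ B, ∏ j ∈ S, ((p : ℝ) ^ P.f j - 1) ≤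
      ((U.filter fun u => rowMap P S u (H.el (ZMod p) v) = 0).card : ℝ) := by
    intro v hv
    obtain ⟨X, hX, hXv⟩ : v ∈ H.badI W i := (mem_filter.1 hv).2
    have hl : ∀ j : {j // j ∈ S}, ∃ u : Fin (P.r j) → P.D j, u ≠ 0 ∧
        Matrix.vecMul u (P.comp j (H.el (ZMod p) v)) = 0 := by
      intro j
      apply row_kill
      rw [← H.toP_el]
      refine link hp W P (H.el ℤ v) i hX ?_ (hS j.2)
      rw [H.toQ_el]
      exact hXv
    choose u0 hu0 hu0v using hl
    let T : Type u := Π j : {j // j ∈ S}, {x : P.D j // x ≠ 0}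
    have hfinT : Finite T := inferInstanceAs (Finite (Π j : {j // j ∈ S}, {x : P.D j // x ≠ 0}))
    let _ : Fintype T := Fintype.ofFinite _
    have hTcard : (Fintype.card T : ℝ) = ∏ j ∈ S, ((p : ℝ) ^ P.f j - 1) := by
      rw [← Nat.card_eq_fintype_card]
      show ((Nat.card (Π j : {j // j ∈ S}, {x : P.D j // x ≠ 0}) : ℕ) : ℝ) = _
      rw [Nat.card_pi, ← Finset.prod_coe_sort S fun j => ((p : ℝ) ^ P.f j - 1), Nat.cast_prod]
      refine prod_congr rfl fun j _ => ?_
      have h5 : Nat.card {x : P.D j // x ≠ 0} = p ^ P.f j - 1 := by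
        let _ : Fintype (P.D j) := Fintype.ofFinite _
        rw [← cardD P j, Nat.card_eq_fintype_card, Nat.card_eq_fintype_card]
        have h9 := Fintype.card_subtype_compl fun x : P.D j => x = 0
        rw [Fintype.card_subtype_eq] at h9
        exact h9
      rw [h5, Nat.cast_sub (Nat.one_le_pow _ _ (zero_lt_one.trans hp1))]
      push_cast
      rfl
    rw [← hTcard]
    have h6 : Fintype.card T ≤ (U.filter fun u => rowMap P S u (H.el (ZMod p) v) = 0).card := by
      rw [← card_univ]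
      refine card_le_card_of_injOn (fun s => fun j => (s j : P.D j) • u0 j) ?_ ?_
      · intro s _
        simp only [coe_filter, Set.mem_ofPred_eq, U, mem_filter, mem_univ, true_and]
        refine ⟨fun j => smul_ne_zero (s j).2 (hu0 j), ?_⟩
        ext j : 1
        show Matrix.vecMul ((s j : P.D j) • u0 j) (P.comp j (H.el (ZMod p) v)) = 0
        rw [Matrix.smul_vecMul, hu0v, smul_zero]
      · intro s _ t _ hst
        ext j
        have h7 : (s j : P.D j) • u0 j = (t j : P.D j) • u0 j := congrFun hst j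
        exact smul_left_injective _ (hu0 j) h7
    exact_mod_cast h6
  -- double counting
  have h3 : ∑ v ∈ B, ((U.filter fun u => rowMap P S u (H.el (ZMod p) v) = 0).card : ℝ)
      = ∑ u ∈ U, ((B.filter fun v => rowMap P S u (H.el (ZMod p) v) = 0).card : ℝ) := by
    simp only [card_filter, Nat.cast_sum]
    rw [sum_comm]
  have hCnn : 0 ≤ C := by
    have : 0 ≤ cosS p ((Fintype.card ι : ℝ) / k) := by
      unfold cosS
      exact sum_nonneg fun a _ => Real.rpow_nonneg (abs_nonneg _) _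
    positivity
  have hUcard : (U.card : ℝ) ≤ (p : ℝ) ^ k := by
    have h8 : U.card ≤ p ^ k := by
      rw [hk, ← rowE_card P S, Nat.card_eq_fintype_card, ← card_univ]
      exact card_le_card (filter_subset _ _)
    exact_mod_cast h8
  have hpk : (0 : ℝ) < (p : ℝ) ^ k := by positivity
  rw [hB]
  calc (B.card : ℝ) * ∏ j ∈ S, ((p : ℝ) ^ P.f j - 1)
      = ∑ v ∈ B, ∏ j ∈ S, ((p : ℝ) ^ P.f j - 1) := by rw [sum_const, nsmul_eq_mul]
    _ ≤ ∑ v ∈ B, ((U.filter fun u => rowMap P S u (H.el (ZMod p) v) = 0).card : ℝ) :=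
        sum_le_sum h2
    _ = ∑ u ∈ U, ((B.filter fun v => rowMap P S u (H.el (ZMod p) v) = 0).card : ℝ) := h3
    _ ≤ ∑ u ∈ U, C / (p : ℝ) ^ k := by
        refine sum_le_sum fun u hu => ?_
        rw [le_div_iff₀ hpk]
        exact h1 u hu
    _ = U.card * (C / (p : ℝ) ^ k) := by rw [sum_const, nsmul_eq_mul]
    _ ≤ (p : ℝ) ^ k * (C / (p : ℝ) ^ k) := by gcongr
    _ = C := by field_simp

end Half

end Pool.MP43e44c.GA
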