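import Pool.Agent.H.MP_43e44c_ag.GA.Sup

/-!
Components of dimension one and two, and components with `r = 1`.
-/

set_option autoImplicit false

open Finset Module

namespace Pool.MP43e44c.GA

open Pool.MP43e44c.OD

universe u v

namespace Half

theorem SmallA_comp_eq_zero {G : Type u} [Group G] {ι : Type v} (H : Half G ι)
    [Fintype G] [Fintype ι] (W : WD ℚ G) (i : Fin W.m)
    (hr : W.r i = 1) {v : ι → Bool} (hv : v ∈ H.badI W i) : W.comp i (H.el ℚ v) = 0 := by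
  obtain ⟨X, hX, h⟩ := hv
  haveI : Subsingleton (Fin (W.r i)) := by rw [hr]; infer_instance
  obtain ⟨a0, b0, h0⟩ : ∃ a b, X a b ≠ 0 := by
    by_contra hcon
    push Not at hcon
    apply hX
    ext a b
    exact hcon a b
  ext a b
  have h1 := congrFun (congrFun h a0) b
  rw [Matrix.mul_apply, Fintype.sum_subsingleton _ b0] at h1
  rw [Subsingleton.elim a b0]
  exact (mul_eq_zero.1 h1).resolve_left h0

theorem SmallA_bad_le {G : Type u} [Group G] {ι : Type v} (H : Half G ι)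
    [Fintype G] [Fintype ι] (W : WD ℚ G) (i : Fin W.m)
    (hr : W.r i = 1) : (((H.badI W i).ncard : ℕ) : ℝ) ≤
      (({v : ι → Bool | W.comp i (H.el ℚ v) = 0}.ncard : ℕ) : ℝ) := by
  have h := Set.ncard_le_ncard (s := H.badI W i)
    (t := {v : ι → Bool | W.comp i (H.el ℚ v) = 0})
    (fun v hv => SmallA_comp_eq_zero H W i hr hv) (Set.toFinite _)
  exact_mod_cast h

theorem SmallA_r_one {G : Type u} [Group G] [Fintype G] (W : WD ℚ G) (i : Fin W.m)
    (ha : W.a i ≤ 2) : W.r i = 1 := by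
  have h1 : W.r i ^ 2 * finrank ℚ (W.D i) ≤ 2 := ha
  have h3 : W.r i ≠ 0 := (W.nz i).out
  have h5 : 0 < finrank ℚ (W.D i) := finrank_pos
  have h4 : W.r i < 2 := by
    by_contra h4
    push Not at h4
    nlinarith
  omega

theorem SmallA_pos {G : Type u} [Group G] {ι : Type v} (H : Half G ι)
    [Fintype G] [Fintype ι] : 0 < Fintype.card ι := by
  have h1 := H.card_eq
  have h2 : 0 < Fintype.card G := Fintype.card_pos
  omega

/-- Components of dimension one: a bad vector satisfies `W.comp i (el v) = 0`; `sup_comp`. -/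
theorem badI_a_one : ∃ C : ℝ, 0 < C ∧ ∀ {G : Type u} [Group G] {ι : Type v} (H : Half G ι)
    [Fintype G] [Fintype ι] (W : WD ℚ G) (i : Fin W.m), H.Odd W i → W.a i = 1 →
    (((H.badI W i).ncard : ℕ) : ℝ) ≤ C / Real.sqrt (Fintype.card ι) * 2 ^ Fintype.card ι := by
  obtain ⟨C, hC, h⟩ := sup_comp.{u, v}
  refine ⟨C, hC, fun {G} _ {ι} H _ _ W i ho ha => ?_⟩
  have hr : W.r i = 1 := SmallA_r_one W i (by rw [ha]; norm_num)
  refine (SmallA_bad_le H W i hr).trans ((h H W i ho 0).trans (le_of_eq ?_))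
  rw [ha, pow_one]
  congr 1
  push_cast
  rw [Real.sqrt_div zero_le_one, Real.sqrt_one]
  ring

/-- Components of dimension two (`badI_two` in OD/Cub2.lean). -/
theorem badI_a_two : ∃ C : ℝ, 0 < C ∧ ∀ {G : Type u} [Group G] {ι : Type v} (H : Half G ι)
    [Fintype G] [Fintype ι] (W : WD ℚ G) (i : Fin W.m), H.Odd W i → W.a i = 2 →
    (((H.badI W i).ncard : ℕ) : ℝ) ≤ C / Fintype.card ι * 2 ^ Fintype.card ι := by
  obtain ⟨C, hC, h⟩ := sup_comp.{u, v}
  refine ⟨C ^ 2 * 2, by positivity, fun {G} _ {ι} H _ _ W i ho ha => ?_⟩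
  have hr : W.r i = 1 := SmallA_r_one W i (by rw [ha])
  refine (SmallA_bad_le H W i hr).trans ((h H W i ho 0).trans (le_of_eq ?_))
  have h5 : (0 : ℝ) ≤ 2 / Fintype.card ι := by positivity
  rw [ha, mul_pow]
  congr 1
  push_cast
  rw [Real.sq_sqrt h5]
  ring

/-- `badI_one` in OD/Cub2.lean: if `W.r i = 1` a bad vector satisfies `W.comp i (el v) = 0`; the
proportion is at most `(C √(a / n)) ^ a`. -/
theorem badI_r_one (Δ : ℕ) : ∃ C : ℝ, 0 < C ∧ ∀ {G : Type u} [Group G] {ι : Type v}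
    (H : Half G ι) [Fintype G] [Fintype ι] (W : WD ℚ G) (i : Fin W.m), H.Odd W i →
    W.r i = 1 → 3 ≤ W.a i → W.a i ≤ Δ →
    (((H.badI W i).ncard : ℕ) : ℝ) ≤ C * (Fintype.card ι : ℝ) ^ (-(3 / 2) : ℝ) *
      2 ^ Fintype.card ι := by
  obtain ⟨C, hC, h⟩ := sup_comp.{u, v}
  refine ⟨((C + 1) * (Real.sqrt Δ + 1)) ^ Δ, by positivity,
    fun {G} _ {ι} H _ _ W i ho hr ha hΔ => ?_⟩
  refine (SmallA_bad_le H W i hr).trans ((h H W i ho 0).trans ?_)
  refine mul_le_mul_of_nonneg_right ?_ (by positivity)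
  have hn : (1 : ℝ) ≤ (Fintype.card ι : ℝ) := by
    have : 0 < Fintype.card ι := SmallA_pos H
    exact_mod_cast this
  have hn0 : (0 : ℝ) < (Fintype.card ι : ℝ) := lt_of_lt_of_le one_pos hn
  set n : ℝ := (Fintype.card ι : ℝ) with hndef
  have hsq : 1 ≤ Real.sqrt n := by
    rw [Real.one_le_sqrt]
    exact hn
  have hsq0 : 0 < Real.sqrt n := lt_of_lt_of_le one_pos hsq
  -- the power of `n`
  have h1 : n ^ (-(3 / 2) : ℝ) = ((Real.sqrt n)⁻¹) ^ 3 := by
    rw [Real.rpow_neg hn0.le, inv_pow, Real.sqrt_eq_rpow, ← Real.rpow_natCast, ← Real.rpow_mul hn0.le]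
    norm_num
  have h2 : Real.sqrt (W.a i / n) = Real.sqrt (W.a i) * (Real.sqrt n)⁻¹ := by
    rw [Real.sqrt_div (Nat.cast_nonneg _), div_eq_mul_inv]
  rw [h1, h2, ← mul_assoc, mul_pow]
  have h3 : ((Real.sqrt n)⁻¹) ^ W.a i ≤ ((Real.sqrt n)⁻¹) ^ 3 :=
    pow_le_pow_of_le_one (inv_nonneg.2 hsq0.le) (inv_le_one_of_one_le₀ hsq) ha
  have h4 : (C * Real.sqrt (W.a i)) ^ W.a i ≤ ((C + 1) * (Real.sqrt Δ + 1)) ^ Δ := by
    have e1 : Real.sqrt (W.a i) ≤ Real.sqrt Δ + 1 := by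
      have : Real.sqrt (W.a i) ≤ Real.sqrt Δ := Real.sqrt_le_sqrt (by exact_mod_cast hΔ)
      linarith
    have e2 : C * Real.sqrt (W.a i) ≤ (C + 1) * (Real.sqrt Δ + 1) :=
      mul_le_mul (by linarith) e1 (Real.sqrt_nonneg _) (by positivity)
    have e3 : 1 ≤ (C + 1) * (Real.sqrt Δ + 1) := by
      have : 0 ≤ Real.sqrt Δ := Real.sqrt_nonneg _
      nlinarith
    calc (C * Real.sqrt (W.a i)) ^ W.a i ≤ ((C + 1) * (Real.sqrt Δ + 1)) ^ W.a i :=
          pow_le_pow_left₀ (by positivity) e2 _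
      _ ≤ _ := pow_le_pow_right₀ e3 hΔ
  exact mul_le_mul h4 h3 (by positivity) (by positivity)

end Half

end Pool.MP43e44c.GA
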