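import Pool.Agent.H.MP_43e44c_ag.GA.Odd
import Pool.Agent.H.MP_43e44c_ag.GA.Step
import Pool.Agent.H.MP_43e44c_ag.OD.Sup

/-!
The bound for the atoms.
-/

set_option autoImplicit false

open Finset Module

namespace Pool.MP43e44c.GA

open Pool.MP43e44c.OD

universe u v

namespace Half

/-- The bound for an abstract algebra spanned by a group of units. -/
theorem sup_absH {O : Type u} [Group O] [Fintype O] {ι : Type v} [Fintype ι] (H : Half O ι)
    {V : Type*} [Ring V] [Algebra ℚ V]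
    [Module.Finite ℚ V] (ρ : O → V) (hmul : ∀ g h, ρ (g * h) = ρ g * ρ h)
    (hodd : ∀ g, ρ (g * H.c) = -ρ g)
    (hspan : Submodule.span ℚ (Set.range ρ) = ⊤) (hd : 0 < finrank ℚ V)
    {p : ℕ} [Fact p.Prime] (Z : V) :
    ({v : ι → Bool | ∑ i, svr ℚ v i • ρ (H.t i) = Z}.ncard : ℝ) * (p : ℝ) ^ finrank ℚ V
      ≤ 2 ^ Fintype.card ι * cosS p ((Fintype.card ι : ℝ) / finrank ℚ V) ^ finrank ℚ V := by
  classical
  set Λ : Submodule ℤ V := Submodule.span ℤ (Set.range ρ) with hΛ
  have hρ : ∀ g, ρ g ∈ Λ := fun g => Submodule.subset_span ⟨g, rfl⟩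
  have hΛfin : Module.Finite ℤ Λ := Module.Finite.span_of_finite ℤ (Set.finite_range ρ)
  have htf : IsAddTorsionFree V := IsAddTorsionFree.of_module_rat V
  have hfree : Module.Free ℤ Λ := inferInstance
  let b := Module.finBasis ℤ Λ
  have hli : LinearIndependent ℤ (fun j => (b j : V)) :=
    b.linearIndependent.map' Λ.subtype (Submodule.ker_subtype _)
  have hliQ : LinearIndependent ℚ (fun j => (b j : V)) :=
    (LinearIndependent.iff_fractionRing ℤ ℚ).1 hli
  have hrep : ∀ x : Λ, (x : V) = ∑ j, (b.repr x j) • (b j : V) := by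
    intro x
    have h1 := congrArg (fun y : Λ => (y : V)) (b.sum_repr x)
    refine h1.symm.trans ?_
    show ((∑ j, b.repr x j • b j : Λ) : V) = _
    rw [AddSubmonoidClass.coe_finsetSum]
    rfl
  have hspanQ : ⊤ ≤ Submodule.span ℚ (Set.range fun j => (b j : V)) := by
    rw [← hspan, Submodule.span_le]
    rintro _ ⟨g, rfl⟩
    have h1 : ρ g = ∑ j, (b.repr ⟨ρ g, hρ g⟩ j) • (b j : V) := hrep ⟨ρ g, hρ g⟩
    rw [h1]
    refine Submodule.sum_mem _ fun j _ => ?_
    rw [← Int.cast_smul_eq_zsmul ℚ]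
    exact Submodule.smul_mem _ _ (Submodule.subset_span ⟨j, rfl⟩)
  have hfin : finrank ℚ V = finrank ℤ Λ := by
    rw [finrank_eq_card_basis (Basis.mk hliQ hspanQ), Fintype.card_fin]
  -- the reduction
  let red : Λ →+ (Fin (finrank ℤ Λ) → ZMod p) :=
    { toFun := fun l j => ((b.repr l j : ℤ) : ZMod p)
      map_zero' := by
        funext j
        simp
      map_add' := by
        intro l l'
        funext j
        simp }
  have hred : ∀ l j, red l j = ((b.repr l j : ℤ) : ZMod p) := fun _ _ => rfl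
  have hredz : ∀ l, red l = 0 → ∃ m : Λ, l = p • m := by
    intro l hl
    have h1 : ∀ j, ∃ a : ℤ, b.repr l j = (p : ℤ) * a := by
      intro j
      have h2 := congrFun hl j
      rw [hred, Pi.zero_apply, ZMod.intCast_zmod_eq_zero_iff_dvd] at h2
      exact h2
    choose a ha using h1
    refine ⟨∑ j, a j • b j, ?_⟩
    conv_lhs => rw [← b.sum_repr l]
    rw [smul_sum]
    refine sum_congr rfl fun j _ => ?_
    rw [ha, mul_smul, natCast_zsmul]
  have hR : ∀ h : O, ∀ l ∈ Λ, l * ρ h ∈ Λ := by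
    intro h l hl
    refine Submodule.span_induction (p := fun l _ => l * ρ h ∈ Λ) ?_ ?_ ?_ ?_ hl
    · rintro _ ⟨g, rfl⟩
      rw [← hmul]
      exact hρ _
    · rw [zero_mul]
      exact Λ.zero_mem
    · intro x y _ _ hx hy
      rw [add_mul]
      exact Λ.add_mem hx hy
    · intro a x _ hx
      rw [smul_mul_assoc]
      exact Λ.smul_mem a hx
  let R : O → (Λ →+ Λ) := fun h =>
    { toFun := fun l => ⟨l * ρ h, hR h l l.2⟩
      map_zero' := by
        apply Subtype.ext
        simp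
      map_add' := by
        intro l l'
        apply Subtype.ext
        simp [add_mul] }
  let r : O → Λ := fun g => ⟨ρ g, hρ g⟩
  have hRr : ∀ g h, R h (r g) = r (g * h) := by
    intro g h
    apply Subtype.ext
    exact (hmul g h).symm
  let x : O → (Fin (finrank ℤ Λ) → ZMod p) := fun g => red (r g)
  have hxodd : ∀ g, x (g * H.c) = -x g := by
    intro g
    have h1 : r (g * H.c) = -r g := Subtype.ext (hodd g)
    show red (r (g * H.c)) = -red (r g)
    rw [h1, map_neg]
  have hsm : ∀ (z : ℤ) (l : Λ), red (z • l) = (z : ZMod p) • red l := by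
    intro z l
    rw [map_zsmul, Int.cast_smul_eq_zsmul]
  have hx : ∀ (h : O) (c : O → ZMod p), ∑ g, c g • x g = 0 → ∑ g, c g • x (g * h) = 0 := by
    intro h c hc
    have h1 : ∀ s : O → O, ∑ g, c g • x (s g) = red (∑ g, ((c g).val : ℤ) • r (s g)) := by
      intro s
      rw [map_sum]
      refine sum_congr rfl fun g _ => ?_
      rw [hsm, Int.cast_natCast, ZMod.natCast_zmod_val]
    have h2 := h1 id
    simp only [id] at h2
    rw [hc] at h2
    obtain ⟨m, hm⟩ := hredz _ h2.symm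
    have h3 : ∑ g, ((c g).val : ℤ) • r (g * h) = p • R h m := by
      rw [← map_nsmul, ← hm, map_sum]
      refine sum_congr rfl fun g _ => ?_
      rw [map_zsmul, hRr]
    rw [h1 (fun g => g * h), h3, map_nsmul]
    funext j
    simp
  have hin : ∀ l : V, ∀ hl : l ∈ Λ, red ⟨l, hl⟩ ∈ Submodule.span (ZMod p) (Set.range x) := by
    intro l hl
    refine Submodule.span_induction
      (p := fun l hl => red ⟨l, hl⟩ ∈ Submodule.span (ZMod p) (Set.range x)) ?_ ?_ ?_ ?_ hl
    · rintro _ ⟨g, rfl⟩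
      exact Submodule.subset_span ⟨g, rfl⟩
    · have h0 : (⟨0, Λ.zero_mem⟩ : Λ) = 0 := rfl
      rw [h0, map_zero]
      exact Submodule.zero_mem _
    · intro y z hy hz h1 h2
      have h3 : (⟨y + z, Λ.add_mem hy hz⟩ : Λ) = ⟨y, hy⟩ + ⟨z, hz⟩ := rfl
      rw [h3, map_add]
      exact Submodule.add_mem _ h1 h2
    · intro a y hy h1
      have h3 : (⟨a • y, Λ.smul_mem a hy⟩ : Λ) = a • ⟨y, hy⟩ := rfl
      rw [h3, hsm]
      exact Submodule.smul_mem _ _ h1
  have htop : Submodule.span (ZMod p) (Set.range x) = ⊤ := by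
    rw [eq_top_iff]
    intro y _
    have h1 : y = ∑ j, y j • red (b j) := by
      funext j
      rw [Finset.sum_apply, sum_eq_single j]
      · rw [Pi.smul_apply, hred, Basis.repr_self, Finsupp.single_eq_same, Int.cast_one,
          smul_eq_mul, mul_one]
      · intro k _ hk
        rw [Pi.smul_apply, hred, Basis.repr_self, Finsupp.single_eq_of_ne (Ne.symm hk),
          Int.cast_zero, smul_zero]
      · intro h
        exact absurd (mem_univ j) h
    rw [h1]
    refine Submodule.sum_mem _ fun j _ => Submodule.smul_mem _ _ ?_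
    exact hin (b j) (b j).2
  have hspan' : finrank (ZMod p) (Submodule.span (ZMod p) (Set.range x)) = finrank ℤ Λ := by
    rw [htop, finrank_top, finrank_fin_fun]
  have hd' : 0 < finrank ℤ Λ := hfin ▸ hd
  rw [hfin]
  rcases Set.eq_empty_or_nonempty {v : ι → Bool | ∑ i, svr ℚ v i • ρ (H.t i) = Z} with he | ⟨v0, hv0⟩
  · rw [he, Set.ncard_empty, Nat.cast_zero, zero_mul]
    exact mul_nonneg (by positivity) (pow_nonneg sup_cosS_nonneg _)
  · have hval : ∀ v : ι → Bool, ((∑ i, svr ℤ v i • r (H.t i) : Λ) : V) =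
        ∑ i, svr ℚ v i • ρ (H.t i) := by
      intro v
      rw [AddSubmonoidClass.coe_finsetSum]
      refine sum_congr rfl fun g _ => ?_
      show svr ℤ v g • ρ (H.t g) = svr ℚ v g • ρ (H.t g)
      unfold svr
      by_cases hg : v g <;> simp [hg]
    have hval' : ∀ v : ι → Bool, ∑ i, svr (ZMod p) v i • x (H.t i) =
        red (∑ i, svr ℤ v i • r (H.t i)) := by
      intro v
      rw [map_sum]
      refine sum_congr rfl fun g _ => ?_
      rw [hsm]
      congr 1
      unfold svr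
      by_cases hg : v g <;> simp [hg]
    have hsub : {v : ι → Bool | ∑ i, svr ℚ v i • ρ (H.t i) = Z} ⊆
        {v : ι → Bool | ∑ i, svr (ZMod p) v i • x (H.t i) =
          ∑ i, svr (ZMod p) v0 i • x (H.t i)} := by
      intro v hv
      have h1 : (∑ i, svr ℤ v i • r (H.t i) : Λ) = ∑ i, svr ℤ v0 i • r (H.t i) := by
        apply Subtype.ext
        rw [hval, hval]
        exact hv.trans hv0.symm
      show ∑ i, svr (ZMod p) v i • x (H.t i) = ∑ i, svr (ZMod p) v0 i • x (H.t i)
      rw [hval', hval', h1]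
    refine le_trans ?_ (H.stepT x hxodd hx hd' hspan' (∑ i, svr (ZMod p) v0 i • x (H.t i)))
    refine mul_le_mul_of_nonneg_right ?_ (by positivity)
    exact_mod_cast Set.ncard_le_ncard hsub (Set.toFinite _)

/-- PROOF as `sup_comp` in OD/Sup.lean, with `stepT` instead of `stepA`; `W.a i ≤ card ι` by
`sum_odd_a`. -/
theorem sup_comp : ∃ C : ℝ, 0 < C ∧ ∀ {G : Type u} [Group G] {ι : Type v} (H : Half G ι)
    [Fintype G] [Fintype ι] (W : WD ℚ G) (i : Fin W.m), H.Odd W i →
    ∀ Z : Matrix (Fin (W.r i)) (Fin (W.r i)) (W.D i),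
    (({v : ι → Bool | W.comp i (H.el ℚ v) = Z}.ncard : ℕ) : ℝ)
      ≤ (C * Real.sqrt (W.a i / Fintype.card ι)) ^ W.a i * 2 ^ Fintype.card ι := by
  obtain ⟨C, hC, hcos⟩ := cosS_sup
  refine ⟨C, hC, ?_⟩
  intro G _ ι H _ _ W i hi Z
  classical
  have hfr : finrank ℚ (Matrix (Fin (W.r i)) (Fin (W.r i)) (W.D i)) = W.a i := by
    rw [finrank_matrix, Fintype.card_fin, WD.a, pow_two]
  have ha : 0 < W.a i := (W.f_pos i).trans_le (W.f_le_a i)
  have han : W.a i ≤ Fintype.card ι := by
    rw [← H.sum_odd_a two_ne_zero W]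
    exact single_le_sum (f := fun i => W.a i) (fun _ _ => Nat.zero_le _)
      (mem_filter.mpr ⟨mem_univ i, hi⟩)
  let ρ : G → Matrix (Fin (W.r i)) (Fin (W.r i)) (W.D i) :=
    fun g => W.comp i (MonoidAlgebra.single g 1)
  have hmul : ∀ g h, ρ (g * h) = ρ g * ρ h := by
    intro g h
    show W.comp i (MonoidAlgebra.single (g * h) 1) = _
    rw [← map_mul, MonoidAlgebra.single_mul_single, mul_one]
  have hodd : ∀ g, ρ (g * H.c) = -ρ g := fun g => H.odd_single hi g 1
  have hrho : ∀ (g : G) (q : ℚ), W.comp i (MonoidAlgebra.single g q) = q • ρ g := by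
    intro g q
    rw [← map_smul, MonoidAlgebra.smul_single, smul_eq_mul, mul_one]
  have hspan : Submodule.span ℚ (Set.range ρ) = ⊤ := by
    rw [eq_top_iff]
    intro X _
    obtain ⟨x, hx, _⟩ := W.exists_comp i X
    rw [← hx]
    have h1 : x = ∑ g, MonoidAlgebra.single g (x.coeff g) := by
      apply ma_ext
      intro g
      exact (ofFun_coeff (fun g => x.coeff g) g).symm
    rw [h1, map_sum]
    refine Submodule.sum_mem _ fun g _ => ?_
    rw [hrho]
    exact Submodule.smul_mem _ _ (Submodule.subset_span ⟨g, rfl⟩)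
  have hset : {v : ι → Bool | W.comp i (H.el ℚ v) = Z} =
      {v : ι → Bool | ∑ i, svr ℚ v i • ρ (H.t i) = Z} := by
    ext v
    have h1 : W.comp i (H.el ℚ v) = ∑ i, svr ℚ v i • ρ (H.t i) := by
      unfold el
      rw [map_sum]
      exact sum_congr rfl fun g _ => hrho _ _
    show W.comp i (H.el ℚ v) = Z ↔ _
    rw [h1]
    rfl
  set n := Fintype.card ι with hn
  set d := W.a i with hdd
  have hn0 : 0 < n := ha.trans_le han
  have hdR : (0 : ℝ) < d := by exact_mod_cast ha
  have hnR : (0 : ℝ) < n := by exact_mod_cast hn0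
  have hL : (1 : ℝ) ≤ (n : ℝ) / d := by
    rw [le_div_iff₀ hdR, one_mul]
    exact_mod_cast han
  obtain ⟨p, hpl, hp⟩ := Nat.exists_infinite_primes (max 3 ⌈Real.sqrt ((n : ℝ) / d)⌉₊)
  have : Fact p.Prime := ⟨hp⟩
  have hp2 : p ≠ 2 := by
    have := (le_max_left 3 _).trans hpl
    omega
  have hps : Real.sqrt ((n : ℝ) / d) ≤ p :=
    (Nat.le_ceil _).trans (by exact_mod_cast (le_max_right 3 _).trans hpl)
  have hpR : (0 : ℝ) < p := by exact_mod_cast hp.pos
  have h1 := sup_absH H ρ hmul hodd hspan (by rw [hfr]; exact ha) (p := p) Z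
  rw [hfr, ← hn] at h1
  have h2 := hcos hp2 hL hps
  have hsq : 0 < Real.sqrt ((n : ℝ) / d) := Real.sqrt_pos.2 (by positivity)
  have h3 : cosS p ((n : ℝ) / d) ^ d ≤ (C * p / Real.sqrt ((n : ℝ) / d)) ^ d :=
    pow_le_pow_left₀ sup_cosS_nonneg h2 d
  have h4 : (C * p / Real.sqrt ((n : ℝ) / d)) = (C * Real.sqrt ((d : ℝ) / n)) * p := by
    have : Real.sqrt ((d : ℝ) / n) = (Real.sqrt ((n : ℝ) / d))⁻¹ := by
      rw [← Real.sqrt_inv, inv_div]
    rw [this]
    field_simp
  rw [h4, mul_pow] at h3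
  have h5 : ({v : ι → Bool | ∑ i, svr ℚ v i • ρ (H.t i) = Z}.ncard : ℝ) * (p : ℝ) ^ d ≤
      ((C * Real.sqrt ((d : ℝ) / n)) ^ d * 2 ^ n) * (p : ℝ) ^ d := by
    refine h1.trans ?_
    calc 2 ^ n * cosS p ((n : ℝ) / d) ^ d ≤
        2 ^ n * ((C * Real.sqrt ((d : ℝ) / n)) ^ d * (p : ℝ) ^ d) :=
          mul_le_mul_of_nonneg_left h3 (by positivity)
      _ = _ := by ring
  rw [hset]
  exact le_of_mul_le_mul_right h5 (by positivity)

end Half

end Pool.MP43e44c.GA
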